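import Mathlib

/-!
Schramm's function for `κ = 6`.
-/

set_option autoImplicit false

namespace Pool.Agent.J6H72.LP
open MeasureTheory Set Real

/-- the density of Schramm's function -/
noncomputable def fS (u : ℝ) : ℝ := (Real.sin u) ^ (-(2/3) : ℝ)

/-- Schramm's function, as a function of the harmonic measure -/
noncomputable def Sch (θ : ℝ) : ℝ :=
  (∫ u in (0 : ℝ)..(Real.pi * θ), fS u) / ∫ u in (0 : ℝ)..Real.pi, fS u

/-- the majorant -/
noncomputable def gS (u : ℝ) : ℝ :=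
  (2 / Real.pi) ^ (-(2/3) : ℝ) * (u ^ (-(2/3) : ℝ) + (Real.pi - u) ^ (-(2/3) : ℝ))

theorem fS_le {u : ℝ} (h0 : 0 < u) (h1 : u < Real.pi) : fS u ≤ gS u := by
  have hp := Real.pi_pos
  have hA : 0 < (2 / Real.pi) ^ (-(2/3) : ℝ) := Real.rpow_pos_of_pos (by positivity) _
  have e1 : 0 ≤ u ^ (-(2/3) : ℝ) := Real.rpow_nonneg h0.le _
  have e2 : 0 ≤ (Real.pi - u) ^ (-(2/3) : ℝ) := Real.rpow_nonneg (by linarith) _
  unfold fS gS
  rcases le_total u (Real.pi / 2) with h | h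
  · have h2 := Real.mul_le_sin h0.le h
    have h3 : (Real.sin u) ^ (-(2/3) : ℝ) ≤ (2 / Real.pi * u) ^ (-(2/3) : ℝ) :=
      Real.rpow_le_rpow_of_nonpos (by positivity) h2 (by norm_num)
    rw [Real.mul_rpow (by positivity) h0.le] at h3
    refine h3.trans (mul_le_mul_of_nonneg_left ?_ hA.le)
    linarith
  · have h2 := Real.mul_le_sin (x := Real.pi - u) (by linarith) (by linarith)
    rw [Real.sin_pi_sub] at h2
    have h3 : (Real.sin u) ^ (-(2/3) : ℝ) ≤ (2 / Real.pi * (Real.pi - u)) ^ (-(2/3) : ℝ) :=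
      Real.rpow_le_rpow_of_nonpos (mul_pos (by positivity) (by linarith)) h2 (by norm_num)
    rw [Real.mul_rpow (by positivity) (by linarith)] at h3
    refine h3.trans (mul_le_mul_of_nonneg_left ?_ hA.le)
    linarith

theorem le_fS {u : ℝ} (h0 : 0 < u) (h1 : u < Real.pi) : u ^ (-(2/3) : ℝ) ≤ fS u := by
  unfold fS
  exact Real.rpow_le_rpow_of_nonpos (Real.sin_pos_of_pos_of_lt_pi h0 h1) (Real.sin_le h0.le)
    (by norm_num)

theorem int_pow (a b : ℝ) : IntervalIntegrable (fun u : ℝ => u ^ (-(2/3) : ℝ)) volume a b :=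
  intervalIntegral.intervalIntegrable_rpow' (by norm_num)

theorem int_gS (a b : ℝ) : IntervalIntegrable gS volume a b := by
  have h1 := int_pow a b
  have h2 : IntervalIntegrable (fun u : ℝ => (Real.pi - u) ^ (-(2/3) : ℝ)) volume a b := by
    have h3 := int_pow (Real.pi - a) (Real.pi - b)
    have := h3.comp_sub_left (Real.pi)
    simpa using this
  exact (h1.add h2).const_mul _

theorem fS_nonneg {u : ℝ} (h0 : 0 ≤ u) (h1 : u ≤ Real.pi) : 0 ≤ fS u :=
  Real.rpow_nonneg (Real.sin_nonneg_of_nonneg_of_le_pi h0 h1) _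

theorem meas_fS : Measurable fS := Real.measurable_sin.pow_const _

theorem int_fS {a b : ℝ} (h0 : 0 ≤ a) (hab : a ≤ b) (h1 : b ≤ Real.pi) :
    IntervalIntegrable fS volume a b := by
  have h2 := int_gS a b
  rw [intervalIntegrable_iff_integrableOn_Ioo_of_le hab] at h2 ⊢
  refine h2.mono' meas_fS.aestronglyMeasurable ?_
  rw [ae_restrict_iff' measurableSet_Ioo]
  refine Filter.Eventually.of_forall fun u hu => ?_
  rw [Real.norm_of_nonneg (fS_nonneg (by linarith [hu.1]) (by linarith [hu.2]))]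
  exact fS_le (by linarith [hu.1]) (by linarith [hu.2])

/-- the primitive -/
noncomputable def FS (a : ℝ) : ℝ := ∫ u in (0 : ℝ)..a, fS u

theorem int_rp {a : ℝ} : ∫ u in (0 : ℝ)..a, u ^ (-(2/3) : ℝ) = 3 * a ^ ((1 : ℝ) / 3) := by
  rw [integral_rpow (Or.inl (by norm_num)), Real.zero_rpow (by norm_num)]
  norm_num
  ring

theorem FS_low {a : ℝ} (h0 : 0 ≤ a) (h1 : a ≤ Real.pi) : 3 * a ^ ((1 : ℝ) / 3) ≤ FS a := by
  rw [← int_rp]
  unfold FS
  apply intervalIntegral.integral_mono_on_of_le_Ioo h0 (int_pow 0 a) (int_fS le_rfl h0 h1)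
  intro u hu
  exact le_fS hu.1 (by linarith [hu.2])

theorem FS_up {a : ℝ} (h0 : 0 ≤ a) (h1 : a ≤ Real.pi) :
    FS a ≤ (2 / Real.pi) ^ (-(2/3) : ℝ) * 6 * a ^ ((1 : ℝ) / 3) := by
  have hA : 0 < (2 / Real.pi) ^ (-(2/3) : ℝ) :=
    Real.rpow_pos_of_pos (by have := Real.pi_pos; positivity) _
  have e1 : ∫ u in (0 : ℝ)..a, gS u =
      (2 / Real.pi) ^ (-(2/3) : ℝ) * (3 * a ^ ((1 : ℝ) / 3) +
        (3 * Real.pi ^ ((1 : ℝ) / 3) - 3 * (Real.pi - a) ^ ((1 : ℝ) / 3))) := by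
    unfold gS
    rw [intervalIntegral.integral_const_mul, intervalIntegral.integral_add (int_pow 0 a), int_rp]
    · congr 2
      rw [intervalIntegral.integral_comp_sub_left (fun u => u ^ (-(2/3) : ℝ)) Real.pi, sub_zero,
        integral_rpow (Or.inl (by norm_num))]
      norm_num
      ring
    · have h3 := int_pow (Real.pi - 0) (Real.pi - a)
      have := h3.comp_sub_left (Real.pi)
      simpa using this
  have e2 : FS a ≤ ∫ u in (0 : ℝ)..a, gS u := by
    unfold FS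
    apply intervalIntegral.integral_mono_on_of_le_Ioo h0 (int_fS le_rfl h0 h1) (int_gS 0 a)
    intro u hu
    exact fS_le hu.1 (by linarith [hu.2])
  have e3 : Real.pi ^ ((1 : ℝ) / 3) ≤ (Real.pi - a) ^ ((1 : ℝ) / 3) + a ^ ((1 : ℝ) / 3) := by
    have := Real.rpow_add_le_add_rpow (p := 1 / 3) (a := Real.pi - a) (b := a) (by linarith) h0
      (by norm_num) (by norm_num)
    rwa [sub_add_cancel] at this
  refine e2.trans ?_
  rw [e1, mul_assoc]
  apply mul_le_mul_of_nonneg_left _ hA.le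
  linarith

theorem FS_symm {a : ℝ} (h0 : 0 ≤ a) (h1 : a ≤ Real.pi) : FS Real.pi - FS a = FS (Real.pi - a) := by
  unfold FS
  have e1 := intervalIntegral.integral_add_adjacent_intervals
    (int_fS (a := 0) (b := a) le_rfl h0 h1) (int_fS (a := a) (b := Real.pi) h0 h1 le_rfl)
  have e2 : ∫ u in a..Real.pi, fS u = ∫ u in (0 : ℝ)..(Real.pi - a), fS u := by
    have := intervalIntegral.integral_comp_sub_left (a := a) (b := Real.pi) fS Real.pi
    rw [sub_self] at this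
    rw [← this]
    apply intervalIntegral.integral_congr
    intro u _
    show fS u = fS (Real.pi - u)
    unfold fS
    rw [Real.sin_pi_sub]
  rw [← e2]
  linarith

/-- **bounds for Schramm's function** -/
theorem sch_bd : ∃ k K : ℝ, 0 < k ∧ 0 < K ∧ ∀ θ : ℝ, 0 ≤ θ → θ ≤ 1 →
    (k * θ ^ ((1 : ℝ) / 3) ≤ Sch θ ∧ Sch θ ≤ K * θ ^ ((1 : ℝ) / 3)) ∧
      k * (1 - θ) ^ ((1 : ℝ) / 3) ≤ 1 - Sch θ ∧ 1 - Sch θ ≤ K * (1 - θ) ^ ((1 : ℝ) / 3) := by
  have hp := Real.pi_pos
  have hA : 0 < (2 / Real.pi) ^ (-(2/3) : ℝ) := Real.rpow_pos_of_pos (by positivity) _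
  have hT : 0 < FS Real.pi :=
    lt_of_lt_of_le (by have := Real.rpow_pos_of_pos hp ((1 : ℝ) / 3); positivity)
      (FS_low hp.le le_rfl)
  obtain ⟨B, hB⟩ : ∃ B, B = Real.pi ^ ((1 : ℝ) / 3) := ⟨_, rfl⟩
  have hB0 : 0 < B := by rw [hB]; exact Real.rpow_pos_of_pos hp _
  have key : ∀ θ : ℝ, 0 ≤ θ → θ ≤ 1 →
      3 * B / FS Real.pi * θ ^ ((1 : ℝ) / 3) ≤ FS (Real.pi * θ) / FS Real.pi ∧
        FS (Real.pi * θ) / FS Real.pi ≤
          (2 / Real.pi) ^ (-(2/3) : ℝ) * 6 * B / FS Real.pi * θ ^ ((1 : ℝ) / 3) := by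
    intro θ h0 h1
    have hx0 : 0 ≤ Real.pi * θ := by positivity
    have hx1 : Real.pi * θ ≤ Real.pi := by nlinarith
    have e1 := FS_low hx0 hx1
    have e2 := FS_up hx0 hx1
    rw [Real.mul_rpow hp.le h0, ← hB] at e1 e2
    constructor
    · rw [div_mul_eq_mul_div]
      apply div_le_div_of_nonneg_right _ hT.le
      linarith
    · rw [div_mul_eq_mul_div]
      apply div_le_div_of_nonneg_right _ hT.le
      linarith
  refine ⟨3 * B / FS Real.pi, (2 / Real.pi) ^ (-(2/3) : ℝ) * 6 * B / FS Real.pi,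
    by positivity, by positivity, ?_⟩
  intro θ h0 h1
  have hS : Sch θ = FS (Real.pi * θ) / FS Real.pi := rfl
  have hS' : 1 - Sch θ = FS (Real.pi * (1 - θ)) / FS Real.pi := by
    have := FS_symm (a := Real.pi * θ) (by positivity) (by nlinarith)
    rw [hS, show Real.pi * (1 - θ) = Real.pi - Real.pi * θ by ring, ← this, sub_div,
      div_self hT.ne']
  rw [hS', hS]
  exact ⟨key θ h0 h1, key (1 - θ) (by linarith) (by linarith)⟩

end Pool.Agent.J6H72.LP
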