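import Pool.Agent.H974R2.Circ

/-!
Primal crossings block dual crossings, in both directions.
-/

set_option autoImplicit false

namespace Pool.Agent.J6H72.LP
open Finset H974

/-- the edges of `F` which are connected to `v` -/
def Wt (F : Set Edg) (v : Vtx) : Set Edg := {e | e ∈ F ∧ Reach F v (src e)}

theorem Wt_sub (F : Set Edg) (v : Vtx) : Wt F v ⊆ F := fun _ h => h.1

theorem Wt_mono {F G : Set Edg} (h : F ⊆ G) (v : Vtx) : Wt F v ⊆ Wt G v :=
  fun _ he => ⟨h he.1, he.2.mono h⟩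

theorem Wt_hub {F : Set Edg} {v w : Vtx} (h : Reach F v w) : Wt F w ⊆ Wt F v :=
  fun _ he => ⟨he.1, h.trans he.2⟩

theorem Wt_tgt {F : Set Edg} {v : Vtx} {e : Edg} (h : e ∈ Wt F v) : Reach F v (tgt e) :=
  h.2.trans (Adj.reach ⟨e, h.1, Or.inl ⟨rfl, rfl⟩⟩)

/-- a path connected to `v` consists of edges of the cluster of `v` -/
theorem Wt_path {F T : Set Edg} {v u w : Vtx} (hu : Reach F v u) (h : Reach (F ∩ T) u w) :
    Reach (Wt F v ∩ T) u w := by
  have key : Reach F v w ∧ Reach (Wt F v ∩ T) u w := by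
    induction h with
    | refl => exact ⟨hu, Reach.refl _ _⟩
    | @tail w' w'' _ hs ih =>
      obtain ⟨e, ⟨heF, heT⟩, hc⟩ := hs
      have hv : Reach F v w'' := ih.1.trans (Adj.reach ⟨e, heF, hc⟩)
      refine ⟨hv, ih.2.trans (Adj.reach ⟨e, ⟨⟨heF, ?_⟩, heT⟩, hc⟩)⟩
      rcases hc with ⟨h1, _⟩ | ⟨h1, _⟩
      · rw [h1]; exact ih.1
      · rw [h1]; exact hv
  exact key.2

/-- the cluster of `z0` separates the face `z` from the outside of the quadrant -/
def Blk (F : Set Edg) (z0 z : Vtx) : Prop :=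
  ∀ g : Vtx, (g.1 < 0 ∨ g.2 < 0) → ¬ DReach (Wt F z0)ᶜ z g

theorem Blk.mono {F G : Set Edg} (h : F ⊆ G) {z0 z : Vtx} (hF : Blk F z0 z) : Blk G z0 z :=
  fun g hg hd => hF g hg (hd.mono (Set.compl_subset_compl.mpr (Wt_mono h z0)))

/-- first step out of a rectangle -/
theorem first_leave {G : Set Edg} {a b c d : ℤ} {u v : Vtx} (hu : inR a b c d u)
    (h : Reach G u v) (hv : ¬ inR a b c d v) :
    ∃ w w', inR a b c d w ∧ ¬ inR a b c d w' ∧ Adj G w w' ∧ Reach (G ∩ ↑(RE a b c d)) u w := by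
  have key : ∀ w, Reach G u w →
      (∃ w w', inR a b c d w ∧ ¬ inR a b c d w' ∧ Adj G w w' ∧ Reach (G ∩ ↑(RE a b c d)) u w) ∨
      (inR a b c d w ∧ Reach (G ∩ ↑(RE a b c d)) u w) := by
    intro w hw
    induction hw with
    | refl => exact Or.inr ⟨hu, Reach.refl _ _⟩
    | @tail w w' _ hs ih =>
      rcases ih with ih | ⟨ih1, ih2⟩
      · exact Or.inl ih
      · by_cases hw' : inR a b c d w'
        · right
          refine ⟨hw', ih2.trans ?_⟩
          obtain ⟨e, heG, hcase⟩ := hs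
          refine Adj.reach ⟨e, ⟨heG, Finset.mem_coe.mpr ?_⟩, hcase⟩
          obtain ⟨x0, y0, bo⟩ := e
          unfold inR at ih1 hw'
          cases bo
          · simp only [src_mk, tgt_false] at hcase
            rw [mem_RE_false]
            rcases hcase with ⟨h3, h4⟩ | ⟨h3, h4⟩
            · rw [← h3] at ih1; rw [← h4] at hw'; simp only at ih1 hw'; omega
            · rw [← h4] at ih1; rw [← h3] at hw'; simp only at ih1 hw'; omega
          · simp only [src_mk, tgt_true] at hcase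
            rw [mem_RE_true]
            rcases hcase with ⟨h3, h4⟩ | ⟨h3, h4⟩
            · rw [← h3] at ih1; rw [← h4] at hw'; simp only at ih1 hw'; omega
            · rw [← h4] at ih1; rw [← h3] at hw'; simp only at ih1 hw'; omega
        · exact Or.inl ⟨w, w', ih1, hw', hs, ih2⟩
  rcases key v h with h1 | ⟨h1, -⟩
  · exact h1
  · exact absurd h1 hv

/-- transposition of dual paths -/
theorem dreach_tps {F : Set Edg} {u v : Vtx} (h : DReach F u v) :
    DReach (tps.φ '' F) (u.2, u.1) (v.2, v.1) := by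
  induction h with
  | refl => exact DReach.refl _ _
  | tail _ hs ih =>
    refine ih.trans (DAdj.reach ?_)
    obtain ⟨⟨x, y, b⟩, he, hc⟩ := hs
    refine ⟨tps.φ (x, y, b), Set.mem_image_of_mem _ he, ?_⟩
    cases b
    · simp only [dsrc_false, dtgt_mk] at hc
      simp only [tps_φ, Bool.not_false, dsrc_true, dtgt_mk]
      rcases hc with ⟨h1, h2⟩ | ⟨h1, h2⟩
      · left; rw [← h1, ← h2]; exact ⟨rfl, rfl⟩
      · right; rw [← h1, ← h2]; exact ⟨rfl, rfl⟩
    · simp only [dsrc_true, dtgt_mk] at hc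
      simp only [tps_φ, Bool.not_true, dsrc_false, dtgt_mk]
      rcases hc with ⟨h1, h2⟩ | ⟨h1, h2⟩
      · left; rw [← h1, ← h2]; exact ⟨rfl, rfl⟩
      · right; rw [← h1, ← h2]; exact ⟨rfl, rfl⟩

/-- An open top-bottom crossing and a closed dual left-right crossing cannot coexist. -/
theorem no_both' {a b c d : ℤ} (hab : a ≤ b) {F : Set Edg} {y y' x x' : ℤ}
    (hx' : a ≤ x' ∧ x' ≤ b) (hy : c ≤ y ∧ y < d)
    (h1 : Reach (F ∩ TBE a b c d) (x, c) (x', d))
    (h2 : DReach (Fᶜ ∩ TBE a b c d) (a - 1, y) (b, y')) : False := by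
  have h3 := tps.reach h1
  have h4 := dreach_tps h2
  rw [Set.image_inter tps.φ.injective, ← LSym.coe_mp, tps_TBE] at h3 h4
  rw [Set.image_compl_eq tps.φ.bijective] at h4
  exact no_both (a := c) (b := d) (c := a) (d := b) hab hx' hy h3 h4

/-- a horizontal crossing blocks the vertical dual paths -/
theorem block_h {K T : Set Edg} {a b c d C D y1 y2 : ℤ} (hcd : c ≤ d) (hy2 : c ≤ y2 ∧ y2 ≤ d)
    (hK : Reach (K ∩ ↑(LRE a b c d)) (a, y1) (b, y2))
    (hT : T ⊆ ↑(RE a (b - 1) C D)) {f g : Vtx} (hf : f.2 ≤ c - 1)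
    (hg : d ≤ g.2) (h : Reach (dl '' Kᶜ ∩ T) f g) : False := by
  obtain ⟨x1, x2, h1, h2, h3, -⟩ := sub_TB (a := a) (b := b - 1) (c := c - 1) (d := d) (by omega)
    (by
      rintro x y ⟨-, he⟩ _ _
      have := hT he
      rw [Finset.mem_coe, mem_RE_false] at this
      omega)
    (by
      rintro x y ⟨-, he⟩ _ _
      have := hT he
      rw [Finset.mem_coe, mem_RE_true] at this
      omega) h hf hg
  rw [← dmp_LRE, coe_dmp] at h3
  refine no_both (F := K) hcd hy2 (x := x1) ⟨h1.1, by omega⟩ hK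
    (x' := x2) (reach_dl.mp (h3.mono ?_))
  rintro _ ⟨⟨⟨e, he, rfl⟩, -⟩, ⟨e', he', hee⟩⟩
  have : e' = e := dl.injective hee
  subst this
  exact Set.mem_image_of_mem _ ⟨he, he'⟩

/-- a vertical crossing blocks the horizontal dual paths -/
theorem block_v {K T : Set Edg} {a b c d A B x1 x2 : ℤ} (hab : a ≤ b) (hx2 : a ≤ x2 ∧ x2 ≤ b)
    (hK : Reach (K ∩ ↑(TBE a b c d)) (x1, c) (x2, d))
    (hT : T ⊆ ↑(RE A B c (d - 1))) {f g : Vtx} (hf : f.1 ≤ a - 1)
    (hg : b ≤ g.1) (h : Reach (dl '' Kᶜ ∩ T) f g) : False := by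
  obtain ⟨y1, y2, h1, h2, h3, -⟩ := sub_LR (a := a - 1) (b := b) (c := c) (d := d - 1) (by omega)
    (by
      rintro x y ⟨-, he⟩ _ _
      have := hT he
      rw [Finset.mem_coe, mem_RE_true] at this
      omega)
    (by
      rintro x y ⟨-, he⟩ _ _
      have := hT he
      rw [Finset.mem_coe, mem_RE_false] at this
      omega) h hf hg
  rw [← dmp_TBE, coe_dmp] at h3
  refine no_both' (F := K) hab hx2 (y := y1) ⟨h1.1, by omega⟩ hK
    (y' := y2) (reach_dl.mp (h3.mono ?_))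
  rintro _ ⟨⟨⟨e, he, rfl⟩, -⟩, ⟨e', he', hee⟩⟩
  have : e' = e := dl.injective hee
  subst this
  exact Set.mem_image_of_mem _ ⟨he, he'⟩

end Pool.Agent.J6H72.LP
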