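import Pool.Agent.J6H72.LP.Num

/-!
The probability that the clusters of `I` surround `z` and the harmonic measure.
-/

set_option autoImplicit false

namespace Pool.Agent.J6H72.LP
open TH976 TH976.QC MeasureTheory Set
open Pool.Agent.H160R2.CV Pool.Agent.H160R2.CV.Quad
open H362P Pool.Agent.H389R2.CD

/-- the arc has one nearest point to each `x`, with a ray next to it -/
def Big (K : Set ℤ) : Prop :=
  ∀ x : ℤ, ∃ e ∈ K, (∀ t ∈ K, |x - e| ≤ |x - t|) ∧
    ((∀ t, e ≤ t → t ∈ K) ∨ ∀ t, t ≤ e → t ∈ K)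

theorem big_Ici (a : ℤ) : Big (Ici a) := by
  intro x
  rcases le_total a x with h | h
  · refine ⟨x, h, ?_, Or.inl fun t ht => le_trans h ht⟩
    intro t _
    rw [sub_self, abs_zero]
    exact abs_nonneg _
  · refine ⟨a, mem_Ici.mpr le_rfl, ?_, Or.inl fun t ht => ht⟩
    intro t ht
    have ht' : a ≤ t := ht
    rw [abs_of_nonpos (by omega), abs_of_nonpos (by omega)]
    omega

theorem big_Iic (a : ℤ) : Big (Iic a) := by
  intro x
  rcases le_total x a with h | h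
  · refine ⟨x, h, ?_, Or.inr fun t ht => le_trans ht h⟩
    intro t _
    rw [sub_self, abs_zero]
    exact abs_nonneg _
  · refine ⟨a, mem_Iic.mpr le_rfl, ?_, Or.inr fun t ht => ht⟩
    intro t ht
    have ht' : t ≤ a := ht
    rw [abs_of_nonneg (by omega), abs_of_nonneg (by omega)]
    omega

theorem big_cIcc (a b : ℤ) : Big (Icc a b)ᶜ := by
  intro x
  have hm : ∀ t : ℤ, t ∈ (Icc a b)ᶜ ↔ t < a ∨ b < t := by
    intro t
    rw [mem_compl_iff, mem_Icc]
    omega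
  rcases lt_or_ge x a with h | h
  · refine ⟨x, (hm _).mpr (Or.inl h), ?_, Or.inr fun t ht => (hm _).mpr (Or.inl (by omega))⟩
    intro t _
    rw [sub_self, abs_zero]
    exact abs_nonneg _
  · rcases lt_or_ge b x with h' | h'
    · refine ⟨x, (hm _).mpr (Or.inr h'), ?_, Or.inl fun t ht => (hm _).mpr (Or.inr (by omega))⟩
      intro t _
      rw [sub_self, abs_zero]
      exact abs_nonneg _
    · rcases le_total (x - a) (b - x) with h2 | h2
      · refine ⟨a - 1, (hm _).mpr (Or.inl (by omega)), ?_,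
          Or.inr fun t ht => (hm _).mpr (Or.inl (by omega))⟩
        intro t ht
        rw [hm] at ht
        rcases abs_cases (x - (a - 1)) with ⟨h3, _⟩ | ⟨h3, _⟩ <;>
          rcases abs_cases (x - t) with ⟨h4, _⟩ | ⟨h4, _⟩ <;> omega
      · refine ⟨b + 1, (hm _).mpr (Or.inr (by omega)), ?_,
          Or.inl fun t ht => (hm _).mpr (Or.inr (by omega))⟩
        intro t ht
        rw [hm] at ht
        rcases abs_cases (x - (b + 1)) with ⟨h3, _⟩ | ⟨h3, _⟩ <;>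
          rcases abs_cases (x - t) with ⟨h4, _⟩ | ⟨h4, _⟩ <;> omega

/-- the boundary arcs -/
theorem arc_cases1 {S : Set ℤ} (h1 : S.Nonempty) (h2 : Sᶜ.Nonempty) (h3 : S.OrdConnected) :
    (Big S ∧ Big Sᶜ) ∨ ((∃ a b, a ≤ b ∧ S = Icc a b) ∧ Big Sᶜ) := by
  by_cases hb : BddBelow S
  · have hm := Int.csInf_mem h1 hb
    have hl : ∀ t ∈ S, sInf S ≤ t := fun t ht => csInf_le hb ht
    by_cases ha : BddAbove S
    · have hM := Int.csSup_mem h1 ha
      have hu : ∀ t ∈ S, t ≤ sSup S := fun t ht => le_csSup ha ht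
      have he : S = Icc (sInf S) (sSup S) := by
        ext t
        exact ⟨fun ht => ⟨hl t ht, hu t ht⟩, fun ht => h3.out hm hM ht⟩
      have hle : sInf S ≤ sSup S := hl _ hM
      right
      refine ⟨⟨_, _, hle, he⟩, ?_⟩
      rw [he]
      exact big_cIcc _ _
    · have he : S = Ici (sInf S) := by
        ext t
        refine ⟨fun ht => hl t ht, fun ht => ?_⟩
        obtain ⟨s, hs, hst⟩ := not_bddAbove_iff.mp ha t
        exact h3.out hm hs ⟨ht, hst.le⟩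
      left
      rw [he]
      refine ⟨big_Ici _, ?_⟩
      have : (Ici (sInf S))ᶜ = Iic (sInf S - 1) := by
        ext t
        simp only [mem_compl_iff, mem_Ici, mem_Iic]
        omega
      rw [this]
      exact big_Iic _
  · by_cases ha : BddAbove S
    · have hM := Int.csSup_mem h1 ha
      have hu : ∀ t ∈ S, t ≤ sSup S := fun t ht => le_csSup ha ht
      have he : S = Iic (sSup S) := by
        ext t
        refine ⟨fun ht => hu t ht, fun ht => ?_⟩
        obtain ⟨s, hs, hst⟩ := not_bddBelow_iff.mp hb t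
        exact h3.out hs hM ⟨hst.le, ht⟩
      left
      rw [he]
      refine ⟨big_Iic _, ?_⟩
      have : (Iic (sSup S))ᶜ = Ici (sSup S + 1) := by
        ext t
        simp only [mem_compl_iff, mem_Ici, mem_Iic]
        omega
      rw [this]
      exact big_Ici _
    · exfalso
      obtain ⟨t, ht⟩ := h2
      obtain ⟨s, hs, hst⟩ := not_bddBelow_iff.mp hb t
      obtain ⟨s', hs', hst'⟩ := not_bddAbove_iff.mp ha t
      exact ht (h3.out hs hs' ⟨hst.le, hst'.le⟩)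

/-- nonempty finite intervals -/
def Fi (K : Set ℤ) : Prop := ∃ a b, a ≤ b ∧ K = Icc a b

theorem arc_cases {I : Set ℤ} (h1 : I.Nonempty) (h2 : Iᶜ.Nonempty)
    (h3 : I.OrdConnected ∨ Iᶜ.OrdConnected) : (Big I ∨ Fi I) ∧ (Big Iᶜ ∨ Fi Iᶜ) := by
  rcases h3 with h3 | h3
  · rcases arc_cases1 h1 h2 h3 with ⟨h4, h5⟩ | ⟨h4, h5⟩
    · exact ⟨Or.inl h4, Or.inl h5⟩
    · exact ⟨Or.inr h4, Or.inl h5⟩
  · have h1' : Iᶜᶜ.Nonempty := by rwa [compl_compl]
    rcases arc_cases1 h2 h1' h3 with ⟨h4, h5⟩ | ⟨h4, h5⟩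
    · rw [compl_compl] at h5
      exact ⟨Or.inl h5, Or.inl h4⟩
    · rw [compl_compl] at h5
      exact ⟨Or.inl h5, Or.inr h4⟩

theorem rp_comb {P W q c1 C1 c2 C2 : ℝ} (hc1 : 0 < c1) (hC1 : 1 ≤ C1) (hc2 : 0 < c2)
    (hc2' : c2 ≤ 1) (hC2 : 1 ≤ C2) (hq : 0 ≤ q) (h1 : c1 * q ^ ((1 : ℝ) / 3) ≤ P)
    (h2 : P ≤ C1 * q ^ ((1 : ℝ) / 3)) (h3 : c2 * q ≤ W) (h4 : W ≤ C2 * q) :
    c1 / C2 * W ^ ((1 : ℝ) / 3) ≤ P ∧ P ≤ C1 / c2 * W ^ ((1 : ℝ) / 3) := by
  have hW : 0 ≤ W := le_trans (by positivity) h3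
  have e1 := rp_le (x := W) (y := q) (k := C2) hW hq hC2 h4
  have e2 := rp_le (x := q) (y := W) (k := c2⁻¹) hq hW
    (by rw [inv_eq_one_div, le_div_iff₀ hc2]; linarith)
    (by rw [inv_eq_one_div, one_div_mul_eq_div, le_div_iff₀ hc2]; linarith)
  have hC20 : 0 < C2 := by linarith
  constructor
  · refine le_trans ?_ h1
    rw [div_mul_eq_mul_div, div_le_iff₀ hC20]
    calc c1 * W ^ ((1 : ℝ) / 3) ≤ c1 * (C2 * q ^ ((1 : ℝ) / 3)) :=
          mul_le_mul_of_nonneg_left e1 hc1.le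
      _ = c1 * q ^ ((1 : ℝ) / 3) * C2 := by ring
  · refine h2.trans ?_
    calc C1 * q ^ ((1 : ℝ) / 3) ≤ C1 * (c2⁻¹ * W ^ ((1 : ℝ) / 3)) :=
          mul_le_mul_of_nonneg_left e2 (by linarith)
      _ = C1 / c2 * W ^ ((1 : ℝ) / 3) := by rw [div_eq_mul_inv]; ring

theorem hmr_nonneg' {x y : ℤ} (hv : 0 < vz x y) (K : Set ℤ) :
    0 ≤ hmr (uz x y) (vz x y) (RI K) ∧ hmr (uz x y) (vz x y) (RI K) ≤ 1 := by
  refine ⟨?_, hmr_le_one _ hv _⟩
  have h1 := RI_compl hv K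
  have h2 := hmr_le_one (uz x y) hv (RI Kᶜ)
  linarith

/-- the harmonic measure of a large arc -/
theorem num_big : ∃ c C : ℝ, 0 < c ∧ c ≤ 1 ∧ 1 ≤ C ∧ ∀ (K : Set ℤ) (x y e : ℤ) (h g : ℕ),
    0 ≤ y → y ≤ x → (h : ℤ) = y + 1 → e ∈ K → (∀ t ∈ K, |x - e| ≤ |x - t|) →
    ((∀ t, e ≤ t → t ∈ K) ∨ ∀ t, t ≤ e → t ∈ K) → (g : ℤ) = max |x - e| h →
    c * qf x h g ≤ hmr (uz x y) (vz x y) (RI K) ∧
      hmr (uz x y) (vz x y) (RI K) ≤ C * qf x h g := by
  obtain ⟨c, hc, hl⟩ := num_low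
  refine ⟨min c 1, 96, lt_min hc one_pos, min_le_right _ _, by norm_num, ?_⟩
  intro K x y e h g hy hyx hh he hnear hray hg
  obtain ⟨v0, v1, v2, u1⟩ := uv_bounds hy hyx hh
  have hh1 : 1 ≤ h := by omega
  have hg1 : 1 ≤ g := by omega
  have hh0 : (0 : ℝ) < h := by exact_mod_cast hh1
  have hg0 : (0 : ℝ) < g := by exact_mod_cast hg1
  have q0 := qf_pos x hh0 hg0
  have hxe : |x - e| ≤ g := by omega
  have hab := abs_nonneg (x - e)
  constructor
  · have key : ∀ a b : ℤ, (g : ℤ) = b - a + 1 → a ≤ e → e ≤ b → (∀ t, a ≤ t → t ≤ b → t ∈ K) →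
        c * qf x h g ≤ hmr (uz x y) (vz x y) (RI K) := by
      intro a b h1 h2 h3 h4
      have := hl K x y a b e h g g hy hyx hh hg1 h1 h2 h3 (by omega) (by omega) h4
      have e1 : qf e g g = 1 := by
        rw [qf_small hg0 le_rfl, div_self (Mf_pos e hg0).ne']
      rwa [e1, mul_one] at this
    refine le_trans (mul_le_mul_of_nonneg_right (min_le_left _ _) q0.le) ?_
    rcases hray with hr | hr
    · exact key e (e + g - 1) (by ring) le_rfl (by omega) (fun t h1 _ => hr t h1)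
    · exact key (e - g + 1) e (by ring) (by omega) le_rfl (fun t _ h2 => hr t h2)
  · rcases le_or_gt |x - e| h with h1 | h1
    · have h2 : g = h := by omega
      rw [h2]
      have e1 : qf x h h = 1 := by
        rw [qf_small hh0 le_rfl, div_self (Mf_pos x hh0).ne']
      rw [e1]
      have := (hmr_nonneg' v0 K).2
      linarith
    · have h2 : (g : ℤ) = |x - e| := by omega
      exact num_up1 K x y h g hy hyx hh hg1 (fun t ht => by rw [h2]; exact hnear t ht)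

/-- **main bounds** for `I` -/
theorem asm_I (hA : ArS) : ∃ c C : ℝ, 0 < c ∧ 0 < C ∧ ∀ (I : Set ℤ) (x y : ℤ),
    0 ≤ y → y ≤ x → (Big I ∨ Fi I) →
    c * hmr (uz x y) (vz x y) (RI I) ^ ((1 : ℝ) / 3) ≤ pE I (x, y) ∧
      pE I (x, y) ≤ C * hmr (uz x y) (vz x y) (RI I) ^ ((1 : ℝ) / 3) := by
  obtain ⟨c1, hc1, hL⟩ := pE_low hA
  obtain ⟨C1, hC1, hU1⟩ := pE_up1 hA
  obtain ⟨C2, hC2, hU2⟩ := pE_up2 hA
  obtain ⟨c3, C3, hc3, hc3', hC3, hB⟩ := num_big
  obtain ⟨c4, hc4, hNL⟩ := num_low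
  obtain ⟨C5, hC5, hNU⟩ := num_up2
  obtain ⟨m, hm⟩ : ∃ m : ℝ, m = min c3 (min c4 1) := ⟨_, rfl⟩
  obtain ⟨M, hM⟩ : ∃ M : ℝ, M = max C3 C5 := ⟨_, rfl⟩
  obtain ⟨D, hD⟩ : ∃ D : ℝ, D = max (max C1 C2) 1600 := ⟨_, rfl⟩
  have m0 : 0 < m := by rw [hm]; exact lt_min hc3 (lt_min hc4 one_pos)
  have m1 : m ≤ 1 := by rw [hm]; exact (min_le_right _ _).trans (min_le_right _ _)
  have m3 : m ≤ c3 := by rw [hm]; exact min_le_left _ _
  have m4 : m ≤ c4 := by rw [hm]; exact (min_le_right _ _).trans (min_le_left _ _)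
  have M3 : C3 ≤ M := by rw [hM]; exact le_max_left _ _
  have M5 : C5 ≤ M := by rw [hM]; exact le_max_right _ _
  have M1 : 1 ≤ M := hC3.trans M3
  have D1 : C1 ≤ D := by rw [hD]; exact (le_max_left _ _).trans (le_max_left _ _)
  have D2 : C2 ≤ D := by rw [hD]; exact (le_max_right _ _).trans (le_max_left _ _)
  have D3 : 1600 ≤ D := by rw [hD]; exact le_max_right _ _
  have hD1 : 1 ≤ D := by linarith
  refine ⟨c1 / M, D / m, by positivity, by positivity, ?_⟩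
  intro I x y hy hyx hI
  obtain ⟨h, hh⟩ : ∃ h : ℕ, (h : ℤ) = y + 1 := ⟨(y + 1).toNat, by omega⟩
  have hh1 : 1 ≤ h := by omega
  have hh0 : (0 : ℝ) < h := by exact_mod_cast hh1
  rcases hI with hI | hI
  · obtain ⟨e, heI, hnear, hray⟩ := hI x
    have hab := abs_nonneg (x - e)
    obtain ⟨g, hg⟩ : ∃ g : ℕ, (g : ℤ) = max |x - e| h := ⟨(max |x - e| h).toNat, by omega⟩
    have hg1 : 1 ≤ g := by omega
    have hg0 : (0 : ℝ) < g := by exact_mod_cast hg1
    have q0 := qf_pos x hh0 hg0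
    obtain ⟨w1, w2⟩ := hB I x y e h g hy hyx hh heI hnear hray hg
    have hgg : qf e g g = 1 := by
      rw [qf_small hg0 le_rfl, div_self (Mf_pos e hg0).ne']
    have hlow : c1 * (qf x h g) ^ ((1 : ℝ) / 3) ≤ pE I (x, y) := by
      have key : ∀ a b : ℤ, (g : ℤ) = b - a + 1 → a ≤ e → e ≤ b →
          (∀ t, a ≤ t → t ≤ b → t ∈ I) → c1 * (qf x h g) ^ ((1 : ℝ) / 3) ≤ pE I (x, y) := by
        intro a b h1 h2 h3 h4
        have := hL I x y a b e h g g hy hyx hh hg1 h1 h2 h3 (by omega) (by omega) h4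
        rwa [hgg, mul_one] at this
      rcases hray with hr | hr
      · exact key e (e + g - 1) (by ring) le_rfl (by omega) (fun t h1 _ => hr t h1)
      · exact key (e - g + 1) e (by ring) (by omega) le_rfl (fun t _ h2 => hr t h2)
    have hup : pE I (x, y) ≤ D * (qf x h g) ^ ((1 : ℝ) / 3) := by
      have r0 : 0 ≤ (qf x h g) ^ ((1 : ℝ) / 3) := Real.rpow_nonneg q0.le _
      rcases le_or_gt (40 * h) g with h1 | h1
      · refine (hU1 I x y h g hy hyx hh h1 ?_).trans (mul_le_mul_of_nonneg_right D1 r0)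
        intro t ht
        have := hnear t ht
        omega
      · have h2 := qf_rp_ge (t := x) (r := (h : ℝ)) (g := (g : ℝ)) (k := 40) hh0 hg0 (by norm_num)
          (by exact_mod_cast h1.le)
        have h3 := pE_le_one I (x, y)
        have h4 := mul_le_mul_of_nonneg_right D3 r0
        norm_num at h2
        norm_num at h4 ⊢
        linarith
    exact rp_comb hc1 hD1 m0 m1 M1 q0.le hlow hup
      ((mul_le_mul_of_nonneg_right m3 q0.le).trans w1)
      (w2.trans (mul_le_mul_of_nonneg_right M3 q0.le))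
  · obtain ⟨a, b, hab, rfl⟩ := hI
    obtain ⟨e, he1, he2, hnear⟩ : ∃ e, a ≤ e ∧ e ≤ b ∧ ∀ t, a ≤ t → t ≤ b → |x - e| ≤ |x - t| := by
      refine ⟨max a (min x b), by omega, by omega, ?_⟩
      intro t h1 h2
      rcases abs_cases (x - (max a (min x b))) with ⟨h3, _⟩ | ⟨h3, _⟩ <;>
        rcases abs_cases (x - t) with ⟨h4, _⟩ | ⟨h4, _⟩ <;> omega
    have habs := abs_nonneg (x - e)
    obtain ⟨r, hr⟩ : ∃ r : ℕ, (r : ℤ) = b - a + 1 := ⟨(b - a + 1).toNat, by omega⟩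
    obtain ⟨g, hg⟩ : ∃ g : ℕ, (g : ℤ) = max |x - e| h := ⟨(max |x - e| h).toNat, by omega⟩
    have hg1 : 1 ≤ g := by omega
    have hr1 : 1 ≤ r := by omega
    have hg0 : (0 : ℝ) < g := by exact_mod_cast hg1
    have hr0 : (0 : ℝ) < r := by exact_mod_cast hr1
    have q0 : 0 < qf x h g * qf e r g := mul_pos (qf_pos x hh0 hg0) (qf_pos e hr0 hg0)
    have r0 : 0 ≤ (qf x h g * qf e r g) ^ ((1 : ℝ) / 3) := Real.rpow_nonneg q0.le _
    have p1 := hL (Icc a b) x y a b e h r g hy hyx hh hr1 hr he1 he2 (by omega) (by omega)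
      (fun t h1 h2 => ⟨h1, h2⟩)
    have p2 := hU2 x y a b e h r g hy hyx hh hr1 hr he1 he2 hnear hg
    have p3 := hNL (Icc a b) x y a b e h r g hy hyx hh hr1 hr he1 he2 (by omega) (by omega)
      (fun t h1 h2 => ⟨h1, h2⟩)
    have p4 := hNU (Icc a b) x y a b e h r g hy hyx hh hr1 hr he1 he2 hnear hg
      (fun t ht => ht)
    exact rp_comb hc1 hD1 m0 m1 M1 q0.le p1 (p2.trans (mul_le_mul_of_nonneg_right D2 r0))
      ((mul_le_mul_of_nonneg_right m4 q0.le).trans p3)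
      (p4.trans (mul_le_mul_of_nonneg_right M5 q0.le))

/-- **main bounds** for the complement -/
theorem asm_N (hA : ArS) : ∃ c C : ℝ, 0 < c ∧ 0 < C ∧ ∀ (I : Set ℤ) (x y : ℤ),
    0 ≤ y → y ≤ x → (Big Iᶜ ∨ Fi Iᶜ) →
    c * hmr (uz x y) (vz x y) (RI Iᶜ) ^ ((1 : ℝ) / 3) ≤ 1 - pE I (x, y) ∧
      1 - pE I (x, y) ≤ C * hmr (uz x y) (vz x y) (RI Iᶜ) ^ ((1 : ℝ) / 3) := by
  obtain ⟨c1, hc1, hL⟩ := pN_low2 hA
  obtain ⟨C1, hC1, hU1⟩ := pN_up hA
  obtain ⟨C2, hC2, hU2⟩ := pN_up2 hA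
  obtain ⟨c3, C3, hc3, hc3', hC3, hB⟩ := num_big
  obtain ⟨c4, hc4, hNL⟩ := num_low
  obtain ⟨C5, hC5, hNU⟩ := num_up2
  obtain ⟨m, hm⟩ : ∃ m : ℝ, m = min c3 (min c4 1) := ⟨_, rfl⟩
  obtain ⟨M, hM⟩ : ∃ M : ℝ, M = max C3 C5 := ⟨_, rfl⟩
  obtain ⟨D, hD⟩ : ∃ D : ℝ, D = max (C1 * 4) C2 := ⟨_, rfl⟩
  have m0 : 0 < m := by rw [hm]; exact lt_min hc3 (lt_min hc4 one_pos)
  have m1 : m ≤ 1 := by rw [hm]; exact (min_le_right _ _).trans (min_le_right _ _)
  have m3 : m ≤ c3 := by rw [hm]; exact min_le_left _ _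
  have m4 : m ≤ c4 := by rw [hm]; exact (min_le_right _ _).trans (min_le_left _ _)
  have M3 : C3 ≤ M := by rw [hM]; exact le_max_left _ _
  have M5 : C5 ≤ M := by rw [hM]; exact le_max_right _ _
  have M1 : 1 ≤ M := hC3.trans M3
  have D1 : C1 * 4 ≤ D := by rw [hD]; exact le_max_left _ _
  have D2 : C2 ≤ D := by rw [hD]; exact le_max_right _ _
  have hD1 : 1 ≤ D := by linarith
  refine ⟨c1 / M, D / m, by positivity, by positivity, ?_⟩
  intro I x y hy hyx hI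
  obtain ⟨h, hh⟩ : ∃ h : ℕ, (h : ℤ) = y + 1 := ⟨(y + 1).toNat, by omega⟩
  have hh1 : 1 ≤ h := by omega
  have hh0 : (0 : ℝ) < h := by exact_mod_cast hh1
  have hpn : 1 - pE I (x, y) ≤ 1 := by
    have : 0 ≤ pE I (x, y) := measureReal_nonneg
    linarith
  rcases hI with hI | hI
  · obtain ⟨e, heI, hnear, hray⟩ := hI x
    have hab := abs_nonneg (x - e)
    obtain ⟨g, hg⟩ : ∃ g : ℕ, (g : ℤ) = max |x - e| h := ⟨(max |x - e| h).toNat, by omega⟩
    have hg1 : 1 ≤ g := by omega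
    have hg0 : (0 : ℝ) < g := by exact_mod_cast hg1
    have q0 := qf_pos x hh0 hg0
    obtain ⟨w1, w2⟩ := hB Iᶜ x y e h g hy hyx hh heI hnear hray hg
    have hgg : qf e g g = 1 := by
      rw [qf_small hg0 le_rfl, div_self (Mf_pos e hg0).ne']
    have hlow : c1 * (qf x h g) ^ ((1 : ℝ) / 3) ≤ 1 - pE I (x, y) := by
      have key : ∀ a b : ℤ, (g : ℤ) = b - a + 1 → a ≤ e → e ≤ b →
          (∀ t, a ≤ t → t ≤ b → t ∈ Iᶜ) → c1 * (qf x h g) ^ ((1 : ℝ) / 3) ≤ 1 - pE I (x, y) := by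
        intro a b h1 h2 h3 h4
        have := hL I x y a b e h g g hy hyx hh (by omega) hg1 h1 ⟨h2, h3⟩ (by omega)
          (fun p hp1 hp2 hp3 => h4 p hp1 hp2 hp3.1)
        rwa [hgg, mul_one] at this
      rcases hray with hr | hr
      · exact key e (e + g - 1) (by ring) le_rfl (by omega) (fun t h1 _ => hr t h1)
      · exact key (e - g + 1) e (by ring) (by omega) le_rfl (fun t _ h2 => hr t h2)
    have hup : 1 - pE I (x, y) ≤ D * (qf x h g) ^ ((1 : ℝ) / 3) := by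
      have r0 : 0 ≤ (qf x h g) ^ ((1 : ℝ) / 3) := Real.rpow_nonneg q0.le _
      rcases le_or_gt g h with h1 | h1
      · have h2 : g = h := by omega
        rw [h2]
        have e1 : qf x h h = 1 := by
          rw [qf_small hh0 le_rfl, div_self (Mf_pos x hh0).ne']
        rw [e1, Real.one_rpow, mul_one]
        linarith
      · obtain ⟨D', hD'⟩ : ∃ D', g = D' + 1 := ⟨g - 1, by omega⟩
        have hD'1 : 1 ≤ D' := by omega
        have hD'0 : (0 : ℝ) < D' := by exact_mod_cast hD'1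
        have hge : (g : ℤ) = |x - e| := by omega
        have h2 := hU1 I x y h D' hy hyx hh hD'1 (by
          intro t ht1 ht2
          by_contra hno
          have h3 := hnear t hno
          rcases abs_cases (x - t) with ⟨h4, _⟩ | ⟨h4, _⟩ <;> omega)
        have h3 : qf x h D' ≤ 4 * qf x h g := by
          have h4 : Mf x (g : ℝ) ≤ 2 ^ 2 * Mf x D' := by
            refine (Mf_mono x hg0.le ?_).trans (Mf_scale x hD'0.le (by norm_num : (1 : ℝ) ≤ 2))
            rw [hD']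
            push_cast
            have : (1 : ℝ) ≤ D' := by exact_mod_cast hD'1
            linarith
          unfold qf
          rw [mul_min_of_nonneg _ _ (by norm_num : (0 : ℝ) ≤ 4)]
          apply le_min
          · exact (min_le_left _ _).trans (by norm_num)
          · refine (min_le_right _ _).trans ?_
            have p1 := Mf_pos x hg0
            have p2 := Mf_pos x hD'0
            have p3 := Mf_pos x hh0
            rw [mul_div_assoc', div_le_div_iff₀ p2 p1]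
            nlinarith
        have h4 := rp_le (x := qf x h D') (y := qf x h g) (k := 4) (qf_pos x hh0 hD'0).le q0.le
          (by norm_num) h3
        calc 1 - pE I (x, y) ≤ C1 * (qf x h D') ^ ((1 : ℝ) / 3) := h2
          _ ≤ C1 * (4 * (qf x h g) ^ ((1 : ℝ) / 3)) :=
              mul_le_mul_of_nonneg_left h4 (by linarith)
          _ = C1 * 4 * (qf x h g) ^ ((1 : ℝ) / 3) := by ring
          _ ≤ D * (qf x h g) ^ ((1 : ℝ) / 3) := mul_le_mul_of_nonneg_right D1 r0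
    exact rp_comb hc1 hD1 m0 m1 M1 q0.le hlow hup
      ((mul_le_mul_of_nonneg_right m3 q0.le).trans w1)
      (w2.trans (mul_le_mul_of_nonneg_right M3 q0.le))
  · obtain ⟨a, b, hab, hIe⟩ := hI
    rw [hIe]
    have hmem : ∀ t, t ∈ I ↔ ¬ (a ≤ t ∧ t ≤ b) := by
      intro t
      have : t ∈ Iᶜ ↔ t ∈ Icc a b := by rw [hIe]
      rw [mem_compl_iff, mem_Icc] at this
      tauto
    obtain ⟨e, he1, he2, hnear⟩ : ∃ e, a ≤ e ∧ e ≤ b ∧ ∀ t, a ≤ t → t ≤ b → |x - e| ≤ |x - t| := by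
      refine ⟨max a (min x b), by omega, by omega, ?_⟩
      intro t h1 h2
      rcases abs_cases (x - (max a (min x b))) with ⟨h3, _⟩ | ⟨h3, _⟩ <;>
        rcases abs_cases (x - t) with ⟨h4, _⟩ | ⟨h4, _⟩ <;> omega
    have habs := abs_nonneg (x - e)
    obtain ⟨r, hr⟩ : ∃ r : ℕ, (r : ℤ) = b - a + 1 := ⟨(b - a + 1).toNat, by omega⟩
    obtain ⟨g, hg⟩ : ∃ g : ℕ, (g : ℤ) = max |x - e| h := ⟨(max |x - e| h).toNat, by omega⟩
    have hg1 : 1 ≤ g := by omega
    have hr1 : 1 ≤ r := by omega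
    have hg0 : (0 : ℝ) < g := by exact_mod_cast hg1
    have hr0 : (0 : ℝ) < r := by exact_mod_cast hr1
    have q0 : 0 < qf x h g * qf e r g := mul_pos (qf_pos x hh0 hg0) (qf_pos e hr0 hg0)
    have r0 : 0 ≤ (qf x h g * qf e r g) ^ ((1 : ℝ) / 3) := Real.rpow_nonneg q0.le _
    have p1 := hL I x y a b e h r g hy hyx hh (by omega) hr1 hr ⟨he1, he2⟩ (by omega)
      (fun p h1 h2 h3 => (hmem p).mp h3.1 ⟨h1, h2⟩)
    have p2 := hU2 I x y a b e h r g hy hyx hh hr1 hr he1 he2 hnear hg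
      (fun t ht => (hmem t).mpr (by omega))
    have p3 := hNL (Icc a b) x y a b e h r g hy hyx hh hr1 hr he1 he2 (by omega) (by omega)
      (fun t h1 h2 => ⟨h1, h2⟩)
    have p4 := hNU (Icc a b) x y a b e h r g hy hyx hh hr1 hr he1 he2 hnear hg
      (fun t ht => ht)
    exact rp_comb hc1 hD1 m0 m1 M1 q0.le p1 (p2.trans (mul_le_mul_of_nonneg_right D2 r0))
      ((mul_le_mul_of_nonneg_right m4 q0.le).trans p3)
      (p4.trans (mul_le_mul_of_nonneg_right M5 q0.le))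

end Pool.Agent.J6H72.LP
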