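import Pool.Agent.J6H72.LP.Pow

/-!
The case where the complement of `I` is a finite interval: dual arms around this interval.
-/

set_option autoImplicit false

namespace Pool.Agent.J6H72.LP
open Finset H974 TH976 TH976.QC MeasureTheory
open Pool.Agent.H160R2.CV Pool.Agent.H160R2.CV.Quad
open H362P Pool.Agent.H389R2.CD

theorem dl_tps (e : Edg) : dl (tps.φ e) = tps.φ (dl e) := by
  obtain ⟨x, y, _ | _⟩ := e
  · rw [tps_φ, Bool.not_false, dl_t, dl_f, tps_φ, Bool.not_true]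
  · rw [tps_φ, Bool.not_true, dl_f, dl_t, tps_φ, Bool.not_false]

theorem dmp_tps (F : Finset Edg) : dmp (tps.mp F) = tps.mp (dmp F) := by
  apply Finset.coe_injective
  rw [coe_dmp, LSym.coe_mp, LSym.coe_mp, coe_dmp, Set.image_image, Set.image_image]
  simp only [dl_tps]

theorem qb_tps (c : Vtx) (m : ℕ) : tps.mp (qb c m) = qb (c.2, c.1) m := by
  unfold qb
  rw [tps_RE]

theorem Cx_tps {c : Vtx} {r n : ℕ} {F : Finset Edg} (h : Cx c r n F) :
    Cx (c.2, c.1) r n (tps.mp F) := by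
  obtain ⟨u, v, h1, h2, h3, h4⟩ := h
  refine ⟨(u.2, u.1), (v.2, v.1), ⟨h1.2, h1.1⟩, ?_, ?_, ?_⟩
  · unfold sd at h2 ⊢
    simp only
    omega
  · unfold sd at h3 ⊢
    simp only
    omega
  · rw [LSym.coe_mp]
    exact tps.reach h4

theorem CxL_tps {c : Vtx} {r n : ℕ} {F : Finset Edg} (h : CxL c r n F) :
    CxL (c.2, c.1) r n (tps.mp F) := by
  unfold CxL at h ⊢
  have h1 := Cx_tps h
  rw [LSym.mp_inter, LSym.mp_sdiff, qb_tps, qb_tps] at h1
  exact h1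

theorem CNq_tps {a b c d : ℤ} {F : Finset Edg} (h : CNq (-d) (-c) (-b) (-a) (tps.mp F)) :
    CNq a b c d F := by
  obtain ⟨x, y, hx, hy, hr⟩ := h
  refine ⟨-y, -x, by omega, by omega, ?_⟩
  rw [LSym.coe_mp] at hr
  have h2 : Reach (tps.φ '' (↑F : Set Edg)) ((bt (-x)).2, (bt (-x)).1)
      ((bt (-y)).2, (bt (-y)).1) := by
    rw [← bt_refl, ← bt_refl, neg_neg, neg_neg]
    exact hr
  exact (tps.reach_iff (F := (F : Set Edg)) (u := bt (-x)) (v := bt (-y))).mp h2 |>.symm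

/-- dual arm around a gap of the vertical axis -/
theorem dual_armQ' {a b c d N t0 : ℤ} {g n : ℕ} {F : Finset Edg} (hbc : b < c)
    (hb1 : b ≤ -1) (ht : t0 = min c 0) (hg : (g : ℤ) = c - b)
    (hgn : g < n) (hr : 2 * (n : ℤ) + 5 ≤ b - a + 1) (hs : 2 * (n : ℤ) + 5 ≤ d - c + 1)
    (hN : -t0 + n + 2 ≤ N) (hF : F ⊆ RE 0 N 0 N) (hno : ¬ CNq a b c d F) :
    CxL (bt t0) g n (dmp (RE 0 N 0 N \ F)) := by
  have hF' : tps.mp F ⊆ RE 0 N 0 N := by
    have := tps.mp_mono hF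
    rwa [tps_RE] at this
  have h1 := dual_armQ (a := -d) (b := -c) (c := -b) (d := -a) (N := N) (t0 := -t0) (g := g)
    (n := n) (F := tps.mp F) (by omega) (by omega) (by omega) (by omega) hgn (by omega)
    (by omega) hN hF' (fun h => hno (CNq_tps h))
  have h2 := CxL_tps h1
  have e1 : ((bt (-t0)).2, (bt (-t0)).1) = bt t0 := by rw [← bt_refl, neg_neg]
  have e2 : tps.mp (dmp (RE 0 N 0 N \ tps.mp F)) = dmp (RE 0 N 0 N \ F) := by
    rw [← dmp_tps, LSym.mp_sdiff, tps_RE, tps_tps]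
  rw [e1, e2] at h2
  exact h2

/-- the centre of the annuli around the gap `[b, c]` -/
def ctr (b c : ℤ) : ℤ := if 1 ≤ c then max b 0 else c

theorem ctr_mem {b c : ℤ} (h : b < c) : b ≤ ctr b c ∧ ctr b c ≤ c := by
  unfold ctr
  split_ifs <;> omega

theorem dual_armQ2 {a b c d N : ℤ} {g n : ℕ} {F : Finset Edg} (hbc : b < c)
    (hg : (g : ℤ) = c - b)
    (hgn : g < n) (hr : 2 * (n : ℤ) + 5 ≤ b - a + 1) (hs : 2 * (n : ℤ) + 5 ≤ d - c + 1)
    (hN : |ctr b c| + n + 2 ≤ N) (hF : F ⊆ RE 0 N 0 N) (hno : ¬ CNq a b c d F) :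
    CxL (bt (ctr b c)) g n (dmp (RE 0 N 0 N \ F)) := by
  have k1 := le_abs_self (ctr b c)
  have k2 := neg_abs_le (ctr b c)
  by_cases hc : 1 ≤ c
  · have e : ctr b c = max b 0 := by unfold ctr; rw [if_pos hc]
    exact dual_armQ hbc hc e hg hgn hr hs (by omega) hF hno
  · have e : ctr b c = c := by unfold ctr; rw [if_neg hc]
    exact dual_armQ' hbc (by omega) (by omega) hg hgn hr hs (by omega) hF hno

/-- a dual arm around the complement of `I` -/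
theorem dualJ_det {F : Set Edg} {I : Set ℤ} {x' c d N : ℤ} {z : Vtx} {g n : ℕ} {T : Set Edg}
    {FN : Finset Edg} (hcd : c ≤ d) (hg : (g : ℤ) = d + 1 - (c - 1)) (hgn : g < n)
    (hI : ∀ t, (c - 2 * n - 5 ≤ t ∧ t < c) ∨ (d < t ∧ t ≤ d + 2 * n + 5) → t ∈ I)
    (hJ : ∀ t, ¬ (t ∈ I ∧ t + 1 ∈ I) → c - 1 ≤ t ∧ t ≤ d)
    (hx' : x' < c - 2 * n - 5 ∨ d + 2 * n + 5 ≤ x')
    (hd : DReach (T ∩ QE) z (ofc x'))
    (hT : ∀ e ∈ T, n + 1 < sd (src e) (bt (ctr (c - 1) (d + 1))))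
    (hN : |ctr (c - 1) (d + 1)| + n + 2 ≤ N) (hFN : FN ⊆ RE 0 N 0 N)
    (hFF : (↑FN : Set Edg) ⊆ F) (hE : ¬ Enc F I z) :
    CxL (bt (ctr (c - 1) (d + 1))) g n (dmp (RE 0 N 0 N \ FN)) := by
  obtain ⟨s0, hs0⟩ : ∃ s0, s0 = ctr (c - 1) (d + 1) := ⟨_, rfl⟩
  rw [← hs0] at hT hN ⊢
  obtain ⟨F', hF'⟩ : ∃ F', F' = FN ∩ qb (bt s0) (n + 1) := ⟨_, rfl⟩
  have hF'N : F' ⊆ FN := by rw [hF']; exact Finset.inter_subset_left
  have hno : ¬ CNq (c - 1 - (2 * n + 4)) (c - 1) (d + 1) (d + 1 + (2 * n + 4)) F' := by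
    rintro ⟨u, v, hu, hv, huv⟩
    apply hE
    refine enc_of_path' (F' := (↑F' : Set Edg)) (a := u) (b := v) (x' := x') (T := T)
      (Set.Subset.trans (by exact_mod_cast hF'N) hFF) ?_
      (hI u (Or.inl ⟨by omega, by omega⟩)) ?_ hd ?_ huv
    · intro e he
      exact RE_inQ N e (hFN (hF'N (Finset.mem_coe.mp he)))
    · intro t ht'
      have h1 := hJ t ht'
      constructor
      · rintro ⟨h2, h3⟩
        exfalso
        omega
      · intro h2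
        exfalso
        exact h2 ⟨by omega, by omega⟩
    · intro e he h4
      have h5 := hT e he
      rw [Finset.mem_coe, hF', Finset.mem_inter] at h4
      have h6 := (qb_ends h4.2).1.2
      omega
  have h1 := dual_armQ2 (a := c - 1 - (2 * n + 4)) (b := c - 1) (c := d + 1)
    (d := d + 1 + (2 * n + 4)) (N := N) (g := g) (n := n) (F := F') (by omega) hg hgn
    (by omega) (by omega) (by rw [← hs0]; exact hN) (hF'N.trans hFN) hno
  rw [← hs0] at h1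
  rw [CxL_loc (bt s0) g n] at h1 ⊢
  have e : dmp (RE 0 N 0 N \ F') ∩ (qb (bt s0) n \ qb (bt s0) g) =
      dmp (RE 0 N 0 N \ FN) ∩ (qb (bt s0) n \ qb (bt s0) g) := by
    ext ⟨p, q, _ | _⟩
    · simp only [Finset.mem_inter, Finset.mem_sdiff, mem_dmp, dls_f, hF', qb, mem_RE_true,
        mem_RE_false]
      constructor
      · rintro ⟨⟨k1, k2⟩, k3, k4⟩
        exact ⟨⟨k1, fun k5 => k2 ⟨k5, by push_cast; omega⟩⟩, k3, k4⟩
      · rintro ⟨⟨k1, k2⟩, k3, k4⟩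
        exact ⟨⟨k1, fun k5 => k2 k5.1⟩, k3, k4⟩
    · simp only [Finset.mem_inter, Finset.mem_sdiff, mem_dmp, dls_t, hF', qb, mem_RE_true,
        mem_RE_false]
      constructor
      · rintro ⟨⟨k1, k2⟩, k3, k4⟩
        exact ⟨⟨k1, fun k5 => k2 ⟨k5, by push_cast; omega⟩⟩, k3, k4⟩
      · rintro ⟨⟨k1, k2⟩, k3, k4⟩
        exact ⟨⟨k1, fun k5 => k2 k5.1⟩, k3, k4⟩
  rw [e] at h1
  exact h1

end Pool.Agent.J6H72.LP
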