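import Pool.Agent.TH976.QC.Sum
import Pool.Agent.J6H72.LP.Hub

/-!
The face `z` of the quadrant is separated from the outside by the open clusters of the boundary
set `I`: deterministic criteria.
-/

set_option autoImplicit false

namespace Pool.Agent.J6H72.LP
open Finset H974 TH976 TH976.QC
open Pool.Agent.H160R2.CV Pool.Agent.H160R2.CV.Quad

/-- the edges of the quadrant -/
def QE : Set Edg := {e | 0 ≤ e.1 ∧ 0 ≤ e.2.1}

/-- the edges of `F` which are connected to the boundary set `I` -/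
def WI (F : Set Edg) (I : Set ℤ) : Set Edg := {e | e ∈ F ∧ ∃ t ∈ I, Reach F (bt t) (src e)}

/-- the clusters of `I` separate the face `z` from the boundary edges outside `I` -/
def Enc (F : Set Edg) (I : Set ℤ) (z : Vtx) : Prop :=
  ∀ t : ℤ, ¬ (t ∈ I ∧ t + 1 ∈ I) → ¬ DReach ((WI F I)ᶜ ∩ QE) z (ofc t)

theorem WI_mono {F : Set Edg} {I I' : Set ℤ} (h : I ⊆ I') : WI F I ⊆ WI F I' := by
  rintro e ⟨h1, t, h2, h3⟩
  exact ⟨h1, t, h h2, h3⟩

theorem Enc.mono {F : Set Edg} {I I' : Set ℤ} (h : I ⊆ I') {z : Vtx} (hE : Enc F I z) :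
    Enc F I' z := by
  intro t ht hd
  refine hE t (fun h' => ht ⟨h h'.1, h h'.2⟩) (hd.mono ?_)
  exact Set.inter_subset_inter_left _ (Set.compl_subset_compl.mpr (WI_mono h))

theorem ofc_out (t : ℤ) : (ofc t).1 < 0 ∨ (ofc t).2 < 0 := by
  unfold ofc
  split_ifs
  · right; simp
  · left; simp

/-- a blocking cluster connected to `I` -/
theorem enc_of_blk {F : Set Edg} {I : Set ℤ} {z z0 : Vtx} {t : ℤ} (ht : t ∈ I)
    (h : Reach F z0 (bt t)) (hB : Blk F z0 z) : Enc F I z := by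
  intro s _ hd
  refine hB (ofc s) (ofc_out s) (hd.mono ?_)
  refine Set.inter_subset_left.trans (Set.compl_subset_compl.mpr ?_)
  rintro e ⟨h1, h2⟩
  exact ⟨h1, t, ht, h.symm.trans h2⟩

/-- a face path to the outside meets an edge connected to `I` -/
theorem enc_hit {F : Set Edg} {I : Set ℤ} {z : Vtx} {t : ℤ} (hE : Enc F I z)
    (ht : ¬ (t ∈ I ∧ t + 1 ∈ I)) {T : Set Edg} (hd : DReach (T ∩ QE) z (ofc t)) :
    ∃ e ∈ T, e ∈ WI F I := by
  by_contra hno
  push Not at hno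
  refine hE t ht (hd.mono ?_)
  rintro e ⟨h1, h2⟩
  exact ⟨hno e h1, h2⟩

/-- the vertical edges-path: the horizontal edges below the face `(x, y)` -/
def VP (x y : ℤ) : Set Edg := {e | e.1 = x ∧ (0 ≤ e.2.1 ∧ e.2.1 ≤ y) ∧ e.2.2 = true}

theorem vpath {x : ℤ} (hx : 0 ≤ x) (n : ℕ) : DReach (VP x n ∩ QE) (x, (n : ℤ)) (ofc x) := by
  have e : ofc x = (x, -1) := by unfold ofc; rw [if_pos hx]
  rw [e]
  induction n with
  | zero =>
    refine DAdj.reach ⟨(x, 0, true), ⟨⟨rfl, ⟨le_rfl, by simp⟩, rfl⟩, hx, le_rfl⟩, Or.inr ?_⟩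
    simp
  | succ n ih =>
    refine DReach.trans (v := (x, (n : ℤ))) (DAdj.reach ⟨(x, (n : ℤ) + 1, true),
      ⟨⟨rfl, ⟨by simp only; omega, by simp⟩, rfl⟩, hx, by simp only; omega⟩, Or.inr ?_⟩) (ih.mono ?_)
    · simp
    · apply Set.inter_subset_inter_left
      rintro ⟨a, b, c⟩ ⟨h1, h2, h3⟩
      refine ⟨h1, ⟨h2.1, h2.2.trans ?_⟩, h3⟩
      push_cast
      omega

theorem vpath' {x y : ℤ} (hx : 0 ≤ x) (hy : 0 ≤ y) : DReach (VP x y ∩ QE) (x, y) (ofc x) := by
  obtain ⟨n, rfl⟩ := Int.eq_ofNat_of_zero_le hy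
  exact vpath hx n

/-- the vertical edges crossed by a horizontal face path -/
def HP (x y m : ℤ) : Set Edg := {e | (x < e.1 ∧ e.1 ≤ x + m) ∧ e.2.1 = y ∧ e.2.2 = false}

theorem hpath {x y : ℤ} (hx : 0 ≤ x) (hy : 0 ≤ y) (m : ℕ) :
    DReach (HP x y m ∩ QE) (x, y) (x + m, y) := by
  induction m with
  | zero => simp only [Nat.cast_zero, add_zero]; exact DReach.refl _ _
  | succ m ih =>
    refine DReach.trans (v := (x + (m : ℤ), y)) (ih.mono ?_)
      (DAdj.reach ⟨(x + m + 1, y, false), ⟨⟨?_, rfl, rfl⟩, by simp only; omega, hy⟩, Or.inl ?_⟩)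
    · apply Set.inter_subset_inter_left
      rintro ⟨a, b, c⟩ ⟨h1, h2⟩
      refine ⟨⟨h1.1, h1.2.trans ?_⟩, h2⟩
      push_cast
      omega
    · simp only
      push_cast
      omega
    · rw [dsrc_false, dtgt_mk]
      push_cast
      refine ⟨?_, ?_⟩
      · rw [add_sub_cancel_right]
      · rw [add_assoc]

theorem QE_box {e : Edg} (h : e ∈ QE) :
    ∀ M : ℤ, max e.1 e.2.1 + 1 ≤ M → e ∈ RE 0 M 0 M := by
  obtain ⟨x, y, _ | _⟩ := e
  · intro M hM
    obtain ⟨h1, h2⟩ := h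
    simp only at h1 h2 hM
    rw [mem_RE_false]
    omega
  · intro M hM
    obtain ⟨h1, h2⟩ := h
    simp only at h1 h2 hM
    rw [mem_RE_true]
    omega

theorem reach_box {K : Set Edg} {u v : Vtx} (h : Reach (K ∩ QE) u v) :
    ∃ N : ℤ, ∀ M, N ≤ M → Reach (K ∩ ↑(RE 0 M 0 M)) u v := by
  induction h with
  | refl => exact ⟨0, fun _ _ => Reach.refl _ _⟩
  | tail _ hs ih =>
    obtain ⟨N, hN⟩ := ih
    obtain ⟨e, ⟨h1, h2⟩, hc⟩ := hs
    refine ⟨max N (max e.1 e.2.1 + 1), fun M hM => (hN M (by omega)).trans (Adj.reach ?_)⟩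
    exact ⟨e, ⟨h1, Finset.mem_coe.mpr (QE_box h2 M (by omega))⟩, hc⟩

theorem dreach_box {K : Set Edg} {u v : Vtx} (h : DReach (K ∩ QE) u v) :
    ∃ N : ℤ, ∀ M, N ≤ M → DReach (K ∩ ↑(RE 0 M 0 M)) u v := by
  induction h with
  | refl => exact ⟨0, fun _ _ => DReach.refl _ _⟩
  | tail _ hs ih =>
    obtain ⟨N, hN⟩ := ih
    obtain ⟨e, ⟨h1, h2⟩, hc⟩ := hs
    refine ⟨max N (max e.1 e.2.1 + 1), fun M hM => (hN M (by omega)).trans (DAdj.reach ?_)⟩
    exact ⟨e, ⟨h1, Finset.mem_coe.mpr (QE_box h2 M (by omega))⟩, hc⟩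

/-- an open path between two points of `I` which separates the boundary edge `x'` from the boundary
edges outside `I`, and does not cross a face path from `z` to the boundary edge `x'` -/
theorem enc_of_path' {F F' T : Set Edg} (hF : F' ⊆ F) (hQ : F' ⊆ QE) {I : Set ℤ} {x' a b : ℤ}
    {z : Vtx} (ha : a ∈ I)
    (hsep : ∀ t, ¬ (t ∈ I ∧ t + 1 ∈ I) → ((a ≤ x' ∧ x' < b) ↔ ¬ (a ≤ t ∧ t < b)))
    (hT : DReach (T ∩ QE) z (ofc x'))
    (hav : ∀ e ∈ T, e ∉ F') (h : Reach F' (bt a) (bt b)) : Enc F I z := by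
  intro t ht hd
  obtain ⟨K, hK⟩ : ∃ K, K = Wt F' (bt a) := ⟨_, rfl⟩
  have hKI : K ⊆ WI F I := by
    rw [hK]
    rintro e ⟨h1, h2⟩
    exact ⟨hF h1, a, ha, h2.mono hF⟩
  have hKF : K ⊆ F' := by rw [hK]; exact Wt_sub _ _
  have d1 : DReach (Kᶜ ∩ QE) z (ofc t) :=
    hd.mono (Set.inter_subset_inter_left _ (Set.compl_subset_compl.mpr hKI))
  have d2 : DReach (Kᶜ ∩ QE) z (ofc x') := by
    refine hT.mono (Set.inter_subset_inter_left _ ?_)
    intro e he hKe
    exact hav e he (hKF hKe)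
  have d3 : DReach (Kᶜ ∩ QE) (ofc x') (ofc t) := d2.symm.trans d1
  have r1 : Reach (K ∩ QE) (bt a) (bt b) := by
    have h' : Reach (F' ∩ QE) (bt a) (bt b) := Reach.mono (Set.subset_inter subset_rfl hQ) h
    have := Wt_path (F := F') (T := QE) (Reach.refl F' (bt a)) h'
    rw [← hK] at this
    exact this
  obtain ⟨N1, h1⟩ := dreach_box d3
  obtain ⟨N2, h2⟩ := reach_box r1
  have k1 := h1 (max N1 N2) (le_max_left _ _)
  have k2 := h2 (max N1 N2) (le_max_right _ _)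
  have hs := hsep t ht
  by_cases hxx : a ≤ x' ∧ x' < b
  · have h3 := hs.mp hxx
    rcases le_or_gt b t with h4 | h4
    · exact no_quad (p := x') (q := t) (u := b) (v := a) ⟨hxx.2, h4⟩ (Or.inl hxx.1) k1 k2.symm
    · have h5 : t < a := by
        by_contra h6
        exact h3 ⟨by omega, h4⟩
      exact no_quad (p := t) (q := x') (u := a) (v := b) ⟨h5, hxx.1⟩ (Or.inr hxx.2) k1.symm k2
  · have h3 : a ≤ t ∧ t < b := by
      by_contra h4
      exact hxx (hs.mpr h4)
    rcases le_or_gt b x' with h4 | h4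
    · exact no_quad (p := t) (q := x') (u := b) (v := a) ⟨h3.2, h4⟩ (Or.inl h3.1) k1.symm k2.symm
    · have h5 : x' < a := by
        by_contra h6
        exact hxx ⟨by omega, h4⟩
      exact no_quad (p := x') (q := t) (u := a) (v := b) ⟨h5, h3.1⟩ (Or.inr h3.2) k1 k2

/-- an open path between two points of `I` which separates the foot of `z` from the boundary edges
outside `I`, and does not cross the vertical segment below `z` -/
theorem enc_of_path {F F' : Set Edg} (hF : F' ⊆ F) (hQ : F' ⊆ QE) {I : Set ℤ} {x y a b : ℤ}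
    (hx : 0 ≤ x) (hy : 0 ≤ y) (ha : a ∈ I)
    (hsep : ∀ t, ¬ (t ∈ I ∧ t + 1 ∈ I) → ((a ≤ x ∧ x < b) ↔ ¬ (a ≤ t ∧ t < b)))
    (hav : ∀ e ∈ VP x y, e ∉ F') (h : Reach F' (bt a) (bt b)) : Enc F I (x, y) :=
  enc_of_path' hF hQ ha hsep (vpath' hx hy) hav h

theorem be_QE (k : ℤ) : be k ∈ QE := by
  unfold be QE
  split_ifs with h
  · exact ⟨h, le_rfl⟩
  · refine ⟨le_rfl, ?_⟩
    simp only
    omega

/-- a closed dual cluster which blocks the face `z` and is connected to a boundary edge outside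
`I` -/
theorem not_enc_of_dual {F H : Set Edg} (hH : H ⊆ dl '' (Fᶜ ∩ QE)) {I : Set ℤ} {z z0 : Vtx}
    (hz : InV z) (hB : Blk H z0 z) {p : ℤ} (hp : ¬ (p ∈ I ∧ p + 1 ∈ I)) (hbe : be p ∉ F)
    (hc : Reach H z0 (bt (kap p))) : ¬ Enc F I z := by
  intro henc
  apply henc p hp
  have hFW : Fᶜ ⊆ (WI F I)ᶜ := fun e he h => he h.1
  have claim : ∃ f, Reach H z0 f ∧ DReach ((WI F I)ᶜ ∩ QE) z f := by
    by_contra hno
    push Not at hno
    obtain ⟨M, hM⟩ : ∃ M : Set Edg, M = {e | dl e ∉ Wt H z0} := ⟨_, rfl⟩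
    have hMm : ∀ e, dl e ∉ Wt H z0 → e ∈ M := fun e he => by rw [hM]; exact he
    have hFM : F ⊆ M := by
      intro e he
      apply hMm
      intro h
      obtain ⟨e', he', hee⟩ := hH h.1
      have : e' = e := dl.injective hee
      rw [this] at he'
      exact he'.1 he
    have blocked : ∀ w : Vtx, (w.1 < 1 ∨ w.2 < 1) → ¬ Reach M (z.1 + 1, z.2 + 1) w := by
      intro w hw hr
      apply hB (w.1 - 1, w.2 - 1) (by simp only; omega)
      rw [← reach_dl]
      have h1 := (trl (-1) (-1)).reach hr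
      obtain ⟨z1, z2⟩ := z
      obtain ⟨w1, w2⟩ := w
      rw [trl_ψ, trl_ψ] at h1
      simp only [add_neg_cancel_right] at h1
      simp only
      refine Reach.mono ?_ h1
      rintro _ ⟨e, he, rfl⟩
      refine ⟨dl e, ?_, ?_⟩
      · rw [hM] at he
        exact he
      · obtain ⟨x, y, _ | _⟩ := e
        · rw [dl_f, dl_t, trl_φ]; rfl
        · rw [dl_t, dl_f, trl_φ]; rfl
    have key : ∀ k : ℕ, (k : ℤ) ≤ z.2 + 1 → DReach ((WI F I)ᶜ ∩ QE) z (z.1, z.2 - k) ∧
        Reach M (z.1 + 1, z.2 + 1) (z.1 + 1, z.2 - k + 1) := by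
      intro k
      induction k with
      | zero =>
        intro _
        simp only [Nat.cast_zero, sub_zero]
        exact ⟨DReach.refl _ _, Reach.refl _ _⟩
      | succ k ih =>
        intro hk
        push_cast at hk
        obtain ⟨h1, h2⟩ := ih (by omega)
        obtain ⟨X, hX⟩ : ∃ X, X = z.1 := ⟨_, rfl⟩
        obtain ⟨Y, hY⟩ : ∃ Y, Y = z.2 - k := ⟨_, rfl⟩
        rw [← hX, ← hY] at h1
        rw [← hX, ← hY] at h2
        have hX0 : 0 ≤ X := by rw [hX]; exact hz.1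
        have hY0 : 0 ≤ Y := by omega
        have hn : ¬ Reach H z0 (X, Y) := fun h => hno _ h h1
        have m1 : ((X + 1, Y, false) : Edg) ∈ M := by
          apply hMm
          intro h
          rw [dl_f, add_sub_cancel_right] at h
          exact hn h.2
        have m2 : ((X, Y, true) : Edg) ∈ M := by
          apply hMm
          intro h
          rw [dl_t] at h
          have := Wt_tgt h
          rw [tgt_false, sub_add_cancel] at this
          exact hn this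
        have r1 : Reach M (z.1 + 1, z.2 + 1) (X + 1, Y) := by
          rw [← hX]
          refine h2.trans (Adj.reach ⟨_, m1, Or.inr ⟨rfl, rfl⟩⟩)
        have r2 : Reach M (z.1 + 1, z.2 + 1) (X, Y) :=
          r1.trans (Adj.reach ⟨_, m2, Or.inr ⟨rfl, rfl⟩⟩)
        have m3 : ((X, Y, true) : Edg) ∉ WI F I := by
          rintro ⟨h3, t, h4, h5⟩
          apply blocked (bt t) ?_ (r2.trans (h5.mono hFM).symm)
          unfold bt
          simp only
          omega
        have e1 : (z.1, z.2 - ((k + 1 : ℕ) : ℤ)) = (X, Y - 1) := by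
          rw [hX, hY]
          push_cast
          rw [sub_sub]
        have e2 : (z.1 + 1, z.2 - ((k + 1 : ℕ) : ℤ) + 1) = (X + 1, Y) := by
          rw [hX, hY]
          push_cast
          rw [Prod.mk.injEq]
          constructor
          · rfl
          · ring
        rw [e1, e2]
        refine ⟨h1.trans (DAdj.reach ⟨(X, Y, true), ⟨m3, hX0, hY0⟩, Or.inr ⟨rfl, rfl⟩⟩), r1⟩
    obtain ⟨n, hn⟩ := Int.eq_ofNat_of_zero_le (by have := hz.2; omega : 0 ≤ z.2 + 1)
    have h1 := (key n hn.ge).2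
    refine blocked _ ?_ h1
    right
    simp only
    omega
  obtain ⟨f, hf1, hf2⟩ := claim
  have h1 : Reach H f (bt (kap p)) := hf1.symm.trans hc
  have h2 : DReach ((WI F I)ᶜ ∩ QE) f (bt (kap p)) :=
    reach_dl.mp (h1.mono (hH.trans (Set.image_mono (Set.inter_subset_inter_left _ hFW))))
  exact hf2.trans (h2.trans (DAdj.reach ⟨be p, ⟨hFW hbe, be_QE p⟩, Or.inr (be_faces p)⟩))

end Pool.Agent.J6H72.LP
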