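import Mathlib

/-!
The harmonic measure of a subset of the real line, seen from a point of the upper half-plane.
-/

set_option autoImplicit false

namespace Pool.Agent.J6H72.LP
open MeasureTheory Set

/-- the Poisson kernel (times `π`) -/
noncomputable def ker (u v s : ℝ) : ℝ := v / ((s - u) ^ 2 + v ^ 2)

/-- harmonic measure -/
noncomputable def hmr (u v : ℝ) (A : Set ℝ) : ℝ := (∫ s in A, ker u v s) / Real.pi

theorem ker_nonneg (u : ℝ) {v : ℝ} (hv : 0 < v) (s : ℝ) : 0 ≤ ker u v s := by
  unfold ker; positivity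

theorem ker_eq (u : ℝ) {v : ℝ} (hv : 0 < v) (s : ℝ) :
    ker u v s = v⁻¹ * (1 + ((s - u) / v) ^ 2)⁻¹ := by
  unfold ker
  field_simp
  ring

theorem ker_integrable (u : ℝ) {v : ℝ} (hv : 0 < v) : Integrable (ker u v) := by
  have h := ((integrable_inv_one_add_sq.comp_div hv.ne').comp_sub_right u).const_mul v⁻¹
  exact h.congr (Filter.Eventually.of_forall (fun s => (ker_eq u hv s).symm))

theorem ker_total (u : ℝ) {v : ℝ} (hv : 0 < v) : ∫ s, ker u v s = Real.pi := by
  have h1 : ∫ s, ker u v s = v⁻¹ * ∫ s, (1 + ((s - u) / v) ^ 2)⁻¹ := by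
    rw [← integral_const_mul]
    exact integral_congr_ae (Filter.Eventually.of_forall (fun s => ker_eq u hv s))
  rw [h1, integral_sub_right_eq_self (fun s => (1 + (s / v) ^ 2)⁻¹) u,
    Measure.integral_comp_div (fun s : ℝ => (1 + s ^ 2)⁻¹) v, integral_univ_inv_one_add_sq,
    abs_of_pos hv, smul_eq_mul]
  field_simp

theorem hmr_nonneg (u : ℝ) {v : ℝ} (hv : 0 < v) (A : Set ℝ) : 0 ≤ hmr u v A := by
  unfold hmr
  exact div_nonneg (integral_nonneg (fun s => ker_nonneg u hv s)) Real.pi_pos.le

theorem hmr_mono (u : ℝ) {v : ℝ} (hv : 0 < v) {A B : Set ℝ} (h : A ⊆ B) :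
    hmr u v A ≤ hmr u v B := by
  unfold hmr
  apply div_le_div_of_nonneg_right _ Real.pi_pos.le
  exact setIntegral_mono_set (ker_integrable u hv).integrableOn
    (Filter.Eventually.of_forall (fun s => ker_nonneg u hv s)) h.eventuallyLE

theorem hmr_le_one (u : ℝ) {v : ℝ} (hv : 0 < v) (A : Set ℝ) : hmr u v A ≤ 1 := by
  have h := hmr_mono u hv (subset_univ A)
  have h1 : hmr u v univ = 1 := by
    unfold hmr
    rw [Measure.restrict_univ, ker_total u hv, div_self Real.pi_ne_zero]
  linarith

theorem hmr_union (u : ℝ) {v : ℝ} (hv : 0 < v) {A B : Set ℝ} :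
    hmr u v (A ∪ B) ≤ hmr u v A + hmr u v B := by
  unfold hmr
  rw [← add_div]
  apply div_le_div_of_nonneg_right _ Real.pi_pos.le
  have h1 : ∫ s in A ∪ B, ker u v s ∂volume ≤
      ∫ s, ker u v s ∂(volume.restrict A + volume.restrict B) := by
    apply integral_mono_measure
    · exact Measure.restrict_union_le A B
    · exact Filter.Eventually.of_forall (fun s => ker_nonneg u hv s)
    · exact integrable_add_measure.mpr
        ⟨(ker_integrable u hv).integrableOn, (ker_integrable u hv).integrableOn⟩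
  refine h1.trans (le_of_eq ?_)
  exact integral_add_measure (ker_integrable u hv).integrableOn
    (ker_integrable u hv).integrableOn

/-- lower bound -/
theorem hmr_low (u : ℝ) {v : ℝ} (hv : 0 < v) {A : Set ℝ} {α β M : ℝ} (hαβ : α ≤ β)
    (hA : Icc α β ⊆ A) (hM : ∀ s ∈ Icc α β, |s - u| ≤ M) :
    (β - α) * v / ((M ^ 2 + v ^ 2) * Real.pi) ≤ hmr u v A := by
  refine le_trans ?_ (hmr_mono u hv hA)
  unfold hmr
  rw [← div_div]
  apply div_le_div_of_nonneg_right _ Real.pi_pos.le
  have h1 : ∫ _ in Icc α β, v / (M ^ 2 + v ^ 2) ≤ ∫ s in Icc α β, ker u v s := by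
    apply setIntegral_mono_on
    · exact integrableOn_const (by simp) (by simp)
    · exact (ker_integrable u hv).integrableOn
    · exact measurableSet_Icc
    · intro s hs
      unfold ker
      apply div_le_div_of_nonneg_left hv.le (by positivity)
      have := hM s hs
      have h2 : (s - u) ^ 2 ≤ M ^ 2 := sq_le_sq' (by linarith [(abs_le.mp this).1])
        (abs_le.mp this).2
      linarith
  rw [setIntegral_const, smul_eq_mul, measureReal_def, Real.volume_Icc,
    ENNReal.toReal_ofReal (by linarith)] at h1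
  calc (β - α) * v / (M ^ 2 + v ^ 2) = (β - α) * (v / (M ^ 2 + v ^ 2)) := by ring
    _ ≤ _ := h1

/-- upper bound -/
theorem hmr_up1 (u : ℝ) {v : ℝ} (hv : 0 < v) {A : Set ℝ} {α β : ℝ} (hαβ : α ≤ β)
    (hA : A ⊆ Icc α β) : hmr u v A ≤ (β - α) / v := by
  refine (hmr_mono u hv hA).trans ?_
  unfold hmr
  rw [div_le_iff₀ Real.pi_pos]
  have h1 : ∫ s in Icc α β, ker u v s ≤ ∫ _ in Icc α β, 1 / v := by
    apply setIntegral_mono_on
    · exact (ker_integrable u hv).integrableOn
    · exact integrableOn_const (by simp) (by simp)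
    · exact measurableSet_Icc
    · intro s _
      unfold ker
      rw [div_le_div_iff₀ (by positivity) hv]
      nlinarith [sq_nonneg (s - u)]
  rw [setIntegral_const, smul_eq_mul, measureReal_def, Real.volume_Icc,
    ENNReal.toReal_ofReal (by linarith)] at h1
  have h2 : 0 ≤ (β - α) / v := div_nonneg (by linarith) hv.le
  calc ∫ s in Icc α β, ker u v s ≤ (β - α) * (1 / v) := h1
    _ = (β - α) / v * 1 := by ring
    _ ≤ _ := mul_le_mul_of_nonneg_left (by linarith [Real.pi_gt_three]) h2

/-- upper bound far away -/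
theorem hmr_up2 (u : ℝ) {v : ℝ} (hv : 0 < v) {A : Set ℝ} {α β d : ℝ} (hαβ : α ≤ β) (hd : 0 < d)
    (hA : A ⊆ Icc α β) (hA' : ∀ s ∈ Icc α β, d ≤ |s - u|) :
    hmr u v A ≤ (β - α) * v / d ^ 2 := by
  refine (hmr_mono u hv hA).trans ?_
  unfold hmr
  rw [div_le_iff₀ Real.pi_pos]
  have h1 : ∫ s in Icc α β, ker u v s ≤ ∫ _ in Icc α β, v / d ^ 2 := by
    apply setIntegral_mono_on
    · exact (ker_integrable u hv).integrableOn
    · exact integrableOn_const (by simp) (by simp)
    · exact measurableSet_Icc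
    · intro s hs
      unfold ker
      apply div_le_div_of_nonneg_left hv.le (by positivity)
      have h2 : d ^ 2 ≤ (s - u) ^ 2 := by
        rw [← sq_abs (s - u)]
        exact pow_le_pow_left₀ hd.le (hA' s hs) 2
      nlinarith
  rw [setIntegral_const, smul_eq_mul, measureReal_def, Real.volume_Icc,
    ENNReal.toReal_ofReal (by linarith)] at h1
  have h2 : 0 ≤ (β - α) * v / d ^ 2 :=
    div_nonneg (mul_nonneg (by linarith) hv.le) (by positivity)
  calc ∫ s in Icc α β, ker u v s ≤ (β - α) * (v / d ^ 2) := h1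
    _ = (β - α) * v / d ^ 2 * 1 := by ring
    _ ≤ _ := mul_le_mul_of_nonneg_left (by linarith [Real.pi_gt_three]) h2

/-- the right tail -/
theorem tail_right (u : ℝ) {v d : ℝ} (hv : 0 < v) (hd : 0 < d) :
    ∫ s in Ioi (u + d), ker u v s ≤ v / d := by
  have hder : ∀ s ∈ Ici (u + d), HasDerivAt (fun s => -(v / (s - u))) (v / (s - u) ^ 2) s := by
    intro s hs
    have hs' : s - u ≠ 0 := by
      have : u + d ≤ s := hs
      intro h
      linarith
    have h1 := ((hasDerivAt_id s).sub_const u)
    have h2 := (h1.inv hs').const_mul v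
    have h3 := h2.neg
    refine (h3.congr_deriv ?_).congr_of_eventuallyEq ?_
    · simp only [id]
      field_simp
    · apply Filter.Eventually.of_forall
      intro t
      simp [div_eq_mul_inv]
  have hpos : ∀ s ∈ Ioi (u + d), 0 ≤ v / (s - u) ^ 2 := fun s _ => by positivity
  have hlim : Filter.Tendsto (fun s => -(v / (s - u))) Filter.atTop (nhds 0) := by
    have h1 : Filter.Tendsto (fun s : ℝ => s - u) Filter.atTop Filter.atTop :=
      Filter.tendsto_atTop_add_const_right _ _ Filter.tendsto_id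
    have h2 := (h1.const_div_atTop v).neg
    rwa [neg_zero] at h2
  have h1 := integral_Ioi_of_hasDerivAt_of_nonneg' hder hpos hlim
  have h2 := integrableOn_Ioi_deriv_of_nonneg' hder hpos hlim
  have h3 : ∫ s in Ioi (u + d), ker u v s ≤ ∫ s in Ioi (u + d), v / (s - u) ^ 2 := by
    apply setIntegral_mono_on (ker_integrable u hv).integrableOn h2 measurableSet_Ioi
    intro s hs
    have hs' : 0 < s - u := by
      have : u + d < s := hs
      linarith
    unfold ker
    apply div_le_div_of_nonneg_left hv.le (by positivity)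
    nlinarith [sq_nonneg v]
  rw [h1] at h3
  have e : u + d - u = d := by ring
  rw [e] at h3
  linarith

/-- reflection -/
theorem ker_refl (u v s : ℝ) : ker (-u) v (-s) = ker u v s := by
  unfold ker
  congr 1
  ring

theorem hmr_refl (u : ℝ) {v : ℝ} {A : Set ℝ} (hA : MeasurableSet A) :
    hmr (-u) v ((fun s => -s) ⁻¹' A) = hmr u v A := by
  unfold hmr
  congr 1
  have hA' : MeasurableSet ((fun s : ℝ => -s) ⁻¹' A) := hA.preimage measurable_neg
  rw [← integral_indicator hA, ← integral_indicator hA',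
    ← integral_neg_eq_self (A.indicator (ker u v)) volume]
  congr 1
  funext s
  by_cases h : -s ∈ A
  · rw [indicator_of_mem (show s ∈ (fun s : ℝ => -s) ⁻¹' A from h), indicator_of_mem h]
    rw [← ker_refl u v (-s), neg_neg]
  · rw [indicator_of_notMem (show s ∉ (fun s : ℝ => -s) ⁻¹' A from h), indicator_of_notMem h]

/-- the tails -/
theorem hmr_right (u : ℝ) {v d : ℝ} (hv : 0 < v) (hd : 0 < d) {A : Set ℝ}
    (hA : A ⊆ Ici (u + d)) : hmr u v A ≤ v / d := by
  refine (hmr_mono u hv hA).trans ?_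
  unfold hmr
  rw [integral_Ici_eq_integral_Ioi, div_le_iff₀ Real.pi_pos]
  have h1 := tail_right u hv hd
  have h2 : 0 < v / d := div_pos hv hd
  nlinarith [Real.pi_gt_three]

theorem hmr_left (u : ℝ) {v d : ℝ} (hv : 0 < v) (hd : 0 < d) {A : Set ℝ}
    (hA : A ⊆ Iic (u - d)) : hmr u v A ≤ v / d := by
  refine (hmr_mono u hv hA).trans ?_
  rw [← hmr_refl u measurableSet_Iic]
  apply hmr_right (-u) hv hd
  intro s hs
  have : -s ≤ u - d := hs
  show -u + d ≤ s
  linarith

/-- the complement -/
theorem hmr_compl (u : ℝ) {v : ℝ} (hv : 0 < v) {A B : Set ℝ} (hA : MeasurableSet A)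
    (h1 : A ∪ B = univ) (h2 : volume (A ∩ B) = 0) : hmr u v A + hmr u v B = 1 := by
  have hB : hmr u v B = hmr u v Aᶜ := by
    unfold hmr
    congr 1
    apply setIntegral_congr_set
    have h3 : Aᶜ ⊆ B := by
      intro s hs
      have : s ∈ A ∪ B := by rw [h1]; trivial
      exact this.resolve_left hs
    have h4 : B \ Aᶜ ⊆ A ∩ B := by
      rintro s ⟨h5, h6⟩
      exact ⟨not_not.mp h6, h5⟩
    apply Filter.EventuallyEq.symm
    exact Filter.EventuallyLE.antisymm h3.eventuallyLE
      (ae_le_set.mpr (measure_mono_null h4 h2))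
  rw [hB]
  unfold hmr
  rw [← add_div, integral_add_compl hA (ker_integrable u hv), ker_total u hv,
    div_self Real.pi_ne_zero]

end Pool.Agent.J6H72.LP
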