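import Pool.Agent.J6H72.LP.Enc

/-!
Lower bound for the probability that a cluster of a boundary interval surrounds a face.
-/

set_option autoImplicit false

namespace Pool.Agent.J6H72.LP
open Finset H974 TH976 TH976.QC
open Pool.Agent.H160R2.CV Pool.Agent.H160R2.CV.Quad

/-- the four edges of a face block it -/
theorem blk_face {F : Set Edg} {x y : ℤ} (hz : InV (x, y)) (h1 : ((x, y, true) : Edg) ∈ F)
    (h2 : ((x, y, false) : Edg) ∈ F) (h3 : ((x, y + 1, true) : Edg) ∈ F)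
    (h4 : ((x + 1, y, false) : Edg) ∈ F) : Blk F (x, y) (x, y) := by
  have w1 : ((x, y, true) : Edg) ∈ Wt F (x, y) := ⟨h1, Reach.refl _ _⟩
  have w2 : ((x, y, false) : Edg) ∈ Wt F (x, y) := ⟨h2, Reach.refl _ _⟩
  have w3 : ((x, y + 1, true) : Edg) ∈ Wt F (x, y) :=
    ⟨h3, Adj.reach ⟨_, h2, Or.inl ⟨rfl, rfl⟩⟩⟩
  have w4 : ((x + 1, y, false) : Edg) ∈ Wt F (x, y) :=
    ⟨h4, Adj.reach ⟨_, h1, Or.inl ⟨rfl, rfl⟩⟩⟩
  intro g hg hd
  rcases Relation.ReflTransGen.cases_head hd with h | ⟨w, h, -⟩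
  · rw [← h] at hg
    unfold InV at hz
    simp only at hg hz
    omega
  · obtain ⟨⟨a, b, _ | _⟩, he, hc⟩ := h
    · simp only [dsrc_false, dtgt_mk, Prod.mk.injEq] at hc
      rcases hc with ⟨⟨k1, k2⟩, -⟩ | ⟨-, k1, k2⟩
      · have e1 : a = x + 1 := by omega
        rw [e1, k2] at he
        exact he w4
      · rw [k1, k2] at he
        exact he w2
    · simp only [dsrc_true, dtgt_mk, Prod.mk.injEq] at hc
      rcases hc with ⟨⟨k1, k2⟩, -⟩ | ⟨-, k1, k2⟩
      · have e1 : b = y + 1 := by omega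
        rw [e1, k1] at he
        exact he w3
      · rw [k1, k2] at he
        exact he w1

/-- a cluster which blocks the face `z` reaches distance `n` -/
def Zar (z : Vtx) (h n : ℕ) (F : Finset Edg) : Prop :=
  ∃ z0 v : Vtx, InV z0 ∧ sd z0 z ≤ h ∧ n ≤ sd v z ∧ Reach (↑F) z0 v ∧ Blk (↑F) z0 z

theorem Zar_incr (S : Finset Edg) (z : Vtx) (h n : ℕ) : IncrE S (Zar z h n) := by
  rintro F G hFG _ ⟨z0, v, h1, h2, h3, h4, h5⟩
  exact ⟨z0, v, h1, h2, h3, h4.mono (by exact_mod_cast hFG), h5.mono (by exact_mod_cast hFG)⟩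

theorem Zar_low : ∃ κ : ℝ, 0 < κ ∧ ∀ (z : Vtx) (h n : ℕ), InV z → (h : ℤ) = min z.1 z.2 + 1 →
    h ≤ n → ∀ S : Finset Edg, qb z n ⊆ S → κ * (aq z n / aq z h) ≤ Pr P S (Zar z h n) := by
  have k40 := k4_pos
  have kd0 := kd_pos
  refine ⟨min ((1 / 2 : ℝ) ^ 8) (k4 * kd ^ 2), lt_min (by positivity) (by positivity), ?_⟩
  intro z h n hz hh hhn S hS
  have pn := aq_pos hz n
  have ph := aq_pos hz h
  rcases Nat.lt_or_ge h 4 with h4 | h4
  · -- a face near the boundary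
    obtain ⟨x, y⟩ := z
    have hh1 : 1 ≤ h := by
      unfold InV at hz
      omega
    obtain ⟨T, hT⟩ : ∃ T : Finset Edg, T = {(x, y, true), (x, y, false), (x, y + 1, true),
      (x + 1, y, false)} := ⟨_, rfl⟩
    have hTc : T.card ≤ 4 := by
      rw [hT]
      exact Finset.card_le_four
    have hTS : T ⊆ S := by
      refine Finset.Subset.trans ?_ hS
      rw [hT]
      unfold InV at hz
      simp only at hz
      intro e he
      simp only [Finset.mem_insert, Finset.mem_singleton] at he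
      rcases he with rfl | rfl | rfl | rfl
      · rw [qb, mem_RE_true]; simp only; omega
      · rw [qb, mem_RE_false]; simp only; omega
      · rw [qb, mem_RE_true]; simp only; omega
      · rw [qb, mem_RE_false]; simp only; omega
    have p1 : (1 / 2 : ℝ) ^ 4 ≤ Pr P S (fun F => T ⊆ F) :=
      le_trans (pow_le_pow_of_le_one (by norm_num) (by norm_num) hTc) (pr_all hTS)
    have p2 : aq (x, y) n ≤ Pr P S (Ar (x, y) n) := pr_Ar_ge hS
    have p3 := fkg (S := S) (A := fun F => T ⊆ F) (B := Ar (x, y) n)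
      (fun F G h _ hF => hF.trans h) (Ar_incr S (x, y) n) pn.le p1 p2
    have p4 : (1 / 2 : ℝ) ^ 4 ≤ aq (x, y) h :=
      le_trans (pow_le_pow_of_le_one (by norm_num) (by norm_num) h4.le) (aq_ge_pow hz h)
    have p5 : (1 / 2 : ℝ) ^ 4 * (aq (x, y) n / aq (x, y) h) ≤ aq (x, y) n := by
      rw [mul_div_assoc', div_le_iff₀ ph, mul_comm]
      exact mul_le_mul_of_nonneg_left p4 pn.le
    calc min ((1 / 2 : ℝ) ^ 8) (k4 * kd ^ 2) * (aq (x, y) n / aq (x, y) h) ≤
        (1 / 2 : ℝ) ^ 8 * (aq (x, y) n / aq (x, y) h) :=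
          mul_le_mul_of_nonneg_right (min_le_left _ _) (by positivity)
      _ = (1 / 2 : ℝ) ^ 4 * ((1 / 2 : ℝ) ^ 4 * (aq (x, y) n / aq (x, y) h)) := by ring
      _ ≤ (1 / 2 : ℝ) ^ 4 * aq (x, y) n := mul_le_mul_of_nonneg_left p5 (by positivity)
      _ ≤ _ := p3
      _ ≤ _ := by
        apply Pr_mono okP
        rintro F - ⟨hTF, v, hv, hr⟩
        rw [hT] at hTF
        refine ⟨(x, y), v, hz, by rw [sd_self]; omega, hv, hr, blk_face hz ?_ ?_ ?_ ?_⟩ <;>
          exact Finset.mem_coe.mpr (hTF (by simp))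
  · -- a face far from the boundary
    obtain ⟨R, hR⟩ : ∃ R, R = (h - 1) / 3 := ⟨_, rfl⟩
    have hR1 : 1 ≤ R := by omega
    have h3R : 3 * R ≤ h - 1 := by omega
    have pR := aq_pos hz R
    have p1 : k4 ≤ Pr P S (CQ z R) := pr_CQ' hz hR1 ((qb_mono (by omega)).trans hS)
    have p2 : bq z R n ≤ Pr P S (Cx z R n) := pr_Cx_ge hS
    have p3 := fkg (CQ_incr S z R) (Cx_incr S z R n) (bq_nonneg _ _ _) p1 p2
    have p4 := aq_split hz (r := R) (n := n) (by omega)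
    have p5 := aq_dbl2 hz R
    have p6 : aq z (9 * R) ≤ aq z h := aq_anti (by omega)
    have b0 := bq_nonneg z R n
    have p7 : kd ^ 2 * (aq z n / aq z h) ≤ bq z R n := by
      rw [mul_div_assoc', div_le_iff₀ ph]
      calc kd ^ 2 * aq z n ≤ kd ^ 2 * (aq z R * bq z R n) :=
            mul_le_mul_of_nonneg_left p4 (by positivity)
        _ = bq z R n * (kd ^ 2 * aq z R) := by ring
        _ ≤ bq z R n * aq z h := mul_le_mul_of_nonneg_left (p5.trans p6) b0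
    calc min ((1 / 2 : ℝ) ^ 8) (k4 * kd ^ 2) * (aq z n / aq z h) ≤
        (k4 * kd ^ 2) * (aq z n / aq z h) :=
          mul_le_mul_of_nonneg_right (min_le_right _ _) (by positivity)
      _ = k4 * (kd ^ 2 * (aq z n / aq z h)) := by ring
      _ ≤ k4 * bq z R n := mul_le_mul_of_nonneg_left p7 k40.le
      _ ≤ _ := p3
      _ ≤ _ := by
        apply Pr_mono okP
        rintro F - ⟨hC, u, v, hu, huz, hvz, huv⟩
        obtain ⟨z0, i1, i2, i3, i4⟩ := CQ_hub hR1 (by omega) (by omega) hC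
        exact ⟨z0, v, i1, by omega, hvz, (i3 u v huz (by omega) huv).symm.trans huv, i4⟩

/-- the boundary interval `[a, b]` is connected to a cluster which blocks the face `z` -/
def LE (z : Vtx) (a b : ℤ) (F : Finset Edg) : Prop :=
  ∃ (z0 : Vtx) (x : ℤ), (a ≤ x ∧ x ≤ b) ∧ Reach (↑F) z0 (bt x) ∧ Blk (↑F) z0 z

theorem LE_low : ∃ κ : ℝ, 0 < κ ∧ ∀ (z : Vtx) (a b e : ℤ) (h r g : ℕ), InV z →
    (h : ℤ) = min z.1 z.2 + 1 → 1 ≤ r → (r : ℤ) = b - a + 1 → a ≤ e → e ≤ b → h ≤ g → r ≤ g →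
    sd z (bt e) ≤ g → ∀ S : Finset Edg, InQ S → qb (bt e) (18 * g) ⊆ S →
    κ * ((aq (bt e) g / aq (bt e) r) * (aq z g / aq z h)) ≤ Pr P S (LE z a b) := by
  obtain ⟨κ1, hκ1, H1⟩ := Zar_low
  obtain ⟨κ2, hκ2, H2⟩ := IA_low
  have k40 := k4_pos
  have kd0 := kd_pos
  refine ⟨(κ1 * kd ^ 2) * (κ2 * kd ^ 2) * k4, by positivity, ?_⟩
  intro z a b e h r g hz hh hr hrr hae heb hhg hrg hze S hSQ hS
  have hpe := bt_in e
  have hg1 : 1 ≤ g := by omega
  have pzh := aq_pos hz h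
  have per := aq_pos hpe r
  have hez : sd (bt e) z ≤ g := by rw [sd_comm]; exact hze
  have arm : ∀ (c : Vtx), InV c → ∀ (q n : ℕ), n ≤ 9 * g →
      kd ^ 2 * (aq c g / aq c q) ≤ aq c n / aq c q := by
    intro c hc q n hn
    have h1 := aq_dbl2 hc g
    have h2 : aq c (9 * g) ≤ aq c n := aq_anti hn
    have h3 := aq_pos hc q
    rw [mul_div_assoc']
    exact div_le_div_of_nonneg_right (h1.trans h2) h3.le
  have p1 : (κ1 * kd ^ 2) * (aq z g / aq z h) ≤ Pr P S (Zar z h (7 * g)) := by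
    refine le_trans ?_ (H1 z h (7 * g) hz hh (by omega) S ((qb_sub (by omega)).trans hS))
    rw [mul_assoc]
    exact mul_le_mul_of_nonneg_left (arm z hz h (7 * g) (by omega)) hκ1.le
  have p2 : (κ2 * kd ^ 2) * (aq (bt e) g / aq (bt e) r) ≤ Pr P S (IAq a b (bt e) (6 * g)) := by
    refine le_trans ?_ (H2 a b e r (6 * g) hr hrr hae heb (by omega) S hSQ
      ((qb_mono (by omega)).trans hS))
    rw [mul_assoc]
    exact mul_le_mul_of_nonneg_left (arm (bt e) hpe r (6 * g) (by omega)) hκ2.le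
  have p3 : k4 ≤ Pr P S (CQ (bt e) (2 * g)) :=
    pr_CQ' hpe (by omega) ((qb_mono (by omega)).trans hS)
  have n2 : 0 ≤ (κ2 * kd ^ 2) * (aq (bt e) g / aq (bt e) r) :=
    mul_nonneg (by positivity) (div_nonneg (aq_nonneg _ _) (aq_nonneg _ _))
  have q1 := fkg (Zar_incr S z h (7 * g)) (IAq_incr S a b (bt e) (6 * g)) n2 p1 p2
  have q2 := fkg (incr_and (Zar_incr S z h (7 * g)) (IAq_incr S a b (bt e) (6 * g)))
    (CQ_incr S (bt e) (2 * g)) k40.le q1 p3
  calc (κ1 * kd ^ 2) * (κ2 * kd ^ 2) * k4 * ((aq (bt e) g / aq (bt e) r) * (aq z g / aq z h)) =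
      ((κ1 * kd ^ 2) * (aq z g / aq z h)) *
        ((κ2 * kd ^ 2) * (aq (bt e) g / aq (bt e) r)) * k4 := by ring
    _ ≤ _ := q2
    _ ≤ _ := by
      apply Pr_mono okP
      rintro F hF ⟨⟨⟨z0, v, i1, i2, i3, i4, i5⟩, ⟨y, w, hy, hw, hyw⟩⟩, hC⟩
      obtain ⟨q, hq⟩ := CQ_meet hpe (by omega) (hSQ.mono hF) hC
      have t1 := sd_tri v (bt e) z
      have t2 := sd_tri z0 z (bt e)
      have m1 := hq z0 v i1 (by omega) (by omega) i4
      have m2 := hq (bt y) w (bt_in y) (sd_bt_le (by push_cast; omega) (by push_cast; omega))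
        (by omega) hyw
      exact ⟨z0, y, hy, m1.trans m2.symm, i5⟩

end Pool.Agent.J6H72.LP
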