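import Pool.Agent.J6H72.LP.Pow2
import Pool.Agent.J6H72.LP.HM

/-!
Bounds for the harmonic measure, with the conformal map `z ↦ z ^ 2`.
-/

set_option autoImplicit false

namespace Pool.Agent.J6H72.LP
open TH976 TH976.QC MeasureTheory Set

/-- the real part of the square of the centre of the face `(x, y)` -/
noncomputable def uz (x y : ℤ) : ℝ := ((x : ℝ) + 1 / 2) ^ 2 - ((y : ℝ) + 1 / 2) ^ 2

/-- the imaginary part of the square of the centre of the face `(x, y)` -/
noncomputable def vz (x y : ℤ) : ℝ := 2 * ((x : ℝ) + 1 / 2) * ((y : ℝ) + 1 / 2)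

/-- the image of the set of the boundary points at distance at most `1 / 2` from `I` -/
def RI (I : Set ℤ) : Set ℝ := {s | ∃ t ∈ I, QC.sq ((t : ℝ) - 1 / 2) ≤ s ∧ s ≤ QC.sq ((t : ℝ) + 1 / 2)}

theorem uv_bounds {x y : ℤ} {h : ℕ} (hy : 0 ≤ y) (hyx : y ≤ x) (hh : (h : ℤ) = y + 1) :
    0 < vz x y ∧ 1 / 2 * Mf x h ≤ vz x y ∧ vz x y ≤ 3 * Mf x h ∧
      |QC.sq (x : ℝ) - uz x y| ≤ Mf x h := by
  have hy' : (0 : ℝ) ≤ y := by exact_mod_cast hy
  have hyx' : (y : ℝ) ≤ x := by exact_mod_cast hyx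
  have hh' : (h : ℝ) = y + 1 := by exact_mod_cast hh
  have hx' : (0 : ℝ) ≤ x := hy'.trans hyx'
  obtain ⟨m, hm⟩ : ∃ m : ℝ, m = max |(x : ℝ)| h := ⟨_, rfl⟩
  have m1 : (x : ℝ) ≤ m := by rw [hm, abs_of_nonneg hx']; exact le_max_left _ _
  have m2 : (y : ℝ) + 1 ≤ m := by rw [hm, ← hh']; exact le_max_right _ _
  have m3 : m ≤ 2 * x + 1 := by
    rw [hm, abs_of_nonneg hx', hh']
    apply max_le <;> linarith
  have hM : Mf x h = (y + 1) * m := by unfold Mf; rw [← hm, hh']
  rw [hM]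
  unfold vz uz QC.sq
  rw [abs_of_nonneg hx', abs_le]
  refine ⟨by positivity, ?_, ?_, ?_, ?_⟩ <;> nlinarith

theorem sqm {a b : ℝ} (h : a ≤ b) : QC.sq a ≤ QC.sq b := QC.sq_strictMono.monotone h

theorem RI_sub {K : Set ℤ} {a b : ℤ} (h : ∀ t ∈ K, a ≤ t ∧ t ≤ b) :
    RI K ⊆ Icc (QC.sq ((a : ℝ) - 1 / 2)) (QC.sq ((b : ℝ) + 1 / 2)) := by
  rintro s ⟨t, ht, h1, h2⟩
  obtain ⟨h3, h4⟩ := h t ht
  have h3' : (a : ℝ) ≤ t := by exact_mod_cast h3
  have h4' : (t : ℝ) ≤ b := by exact_mod_cast h4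
  exact ⟨(sqm (by linarith)).trans h1, h2.trans (sqm (by linarith))⟩

theorem RI_sup {K : Set ℤ} {a b : ℤ} (hab : a ≤ b) (h : ∀ t, a ≤ t → t ≤ b → t ∈ K) :
    Icc (QC.sq ((a : ℝ) - 1 / 2)) (QC.sq ((b : ℝ) + 1 / 2)) ⊆ RI K := by
  obtain ⟨n, hn⟩ : ∃ n : ℕ, (n : ℤ) = b - a := ⟨(b - a).toNat, by omega⟩
  induction n generalizing b with
  | zero =>
    have : b = a := by omega
    subst this
    rintro s ⟨h1, h2⟩
    exact ⟨b, h b le_rfl le_rfl, h1, h2⟩
  | succ n ih =>
    rintro s ⟨h1, h2⟩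
    rcases le_or_gt s (QC.sq (((b - 1 : ℤ) : ℝ) + 1 / 2)) with h3 | h3
    · exact ih (b := b - 1) (by omega) (fun t h4 h5 => h t h4 (by omega))
        (by push_cast at hn ⊢; omega) ⟨h1, h3⟩
    · refine ⟨b, h b hab le_rfl, ?_, h2⟩
      have e : ((b - 1 : ℤ) : ℝ) + 1 / 2 = (b : ℝ) - 1 / 2 := by push_cast; ring
      rw [e] at h3
      exact h3.le

/-- **lower bound for the harmonic measure** -/
theorem num_low : ∃ c : ℝ, 0 < c ∧ ∀ (K : Set ℤ) (x y a b e : ℤ) (h r g : ℕ),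
    0 ≤ y → y ≤ x → (h : ℤ) = y + 1 → 1 ≤ r → (r : ℤ) = b - a + 1 → a ≤ e → e ≤ b → h ≤ g →
    |x - e| ≤ 2 * g → (∀ t, a ≤ t → t ≤ b → t ∈ K) →
    c * (qf x h g * qf e r g) ≤ hmr (uz x y) (vz x y) (RI K) := by
  refine ⟨1 / 409600, by norm_num, ?_⟩
  intro K x y a b e h r g hy hyx hh hr hrr hae heb hhg hxe hK
  obtain ⟨v0, v1, v2, u1⟩ := uv_bounds hy hyx hh
  rw [abs_le] at hxe u1
  obtain ⟨r', hr'⟩ : ∃ r', r' = min r g := ⟨_, rfl⟩
  obtain ⟨a', ha'⟩ : ∃ a', a' = max a (e - r' + 1) := ⟨_, rfl⟩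
  obtain ⟨b', hb'⟩ : ∃ b', b' = a' + r' - 1 := ⟨_, rfl⟩
  have hh1 : 1 ≤ h := by omega
  have hg1 : 1 ≤ g := by omega
  have hr1 : 1 ≤ r' := by omega
  have hg0 : (1 : ℝ) ≤ g := by exact_mod_cast hg1
  have hh0 : (1 : ℝ) ≤ h := by exact_mod_cast hh1
  have hr0 : (1 : ℝ) ≤ r' := by exact_mod_cast hr1
  have hrr0 : (1 : ℝ) ≤ r := by exact_mod_cast hr
  have hhg' : (h : ℝ) ≤ g := by exact_mod_cast hhg
  have i1 : (a' : ℝ) ≤ e := by exact_mod_cast (by omega : a' ≤ e)
  have i2 : (e : ℝ) ≤ b' := by exact_mod_cast (by omega : e ≤ b')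
  have i3 : (b' : ℝ) = a' + r' - 1 := by rw [hb']; push_cast; ring
  have i4 : (x : ℝ) - 3 * g ≤ a' - 1 / 2 := by
    have : x - 3 * g + 1 ≤ a' := by omega
    have h' : (x : ℝ) - 3 * g + 1 ≤ a' := by exact_mod_cast this
    linarith
  have i5 : (b' : ℝ) + 1 / 2 ≤ x + 3 * g := by
    have : b' + 1 ≤ x + 3 * g := by omega
    have h' : (b' : ℝ) + 1 ≤ x + 3 * g := by exact_mod_cast this
    linarith
  have ph := Mf_pos x (n := (h : ℝ)) (by linarith)
  have pg := Mf_pos x (n := (g : ℝ)) (by linarith)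
  have pe := Mf_pos e (n := (g : ℝ)) (by linarith)
  have pr := Mf_pos e (n := (r' : ℝ)) (by linarith)
  have hhg2 : Mf x h ≤ Mf x g := Mf_mono x (by linarith) hhg'
  -- the length
  obtain ⟨n1, hn1⟩ : ∃ n1 : ℝ, n1 = e - a' + 1 / 2 := ⟨_, rfl⟩
  obtain ⟨n2, hn2⟩ : ∃ n2 : ℝ, n2 = b' + 1 / 2 - e := ⟨_, rfl⟩
  have s1 := (sq_sub e (n := n1) (by linarith)).1
  have s2 := (sq_add e (n := n2) (by linarith)).1
  have e1 : (e : ℝ) - n1 = a' - 1 / 2 := by rw [hn1]; ring
  have e2 : (e : ℝ) + n2 = b' + 1 / 2 := by rw [hn2]; ring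
  rw [e1] at s1
  rw [e2] at s2
  have hlen : 1 / 8 * Mf e r' ≤ QC.sq ((b' : ℝ) + 1 / 2) - QC.sq ((a' : ℝ) - 1 / 2) := by
    have t1 := Mf_scale e (n := (r' : ℝ) / 2) (k := 2) (by linarith) (by norm_num)
    have e3 : 2 * ((r' : ℝ) / 2) = r' := by ring
    rw [e3] at t1
    have p1 := Mf_pos e (n := n1) (by linarith)
    have p2 := Mf_pos e (n := n2) (by linarith)
    rcases le_total n1 n2 with h3 | h3
    · have := Mf_mono e (m := (r' : ℝ) / 2) (n := n2) (by linarith) (by linarith)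
      linarith
    · have := Mf_mono e (m := (r' : ℝ) / 2) (n := n1) (by linarith) (by linarith)
      linarith
  -- the distance
  have t3 := Mf_scale x (n := (g : ℝ)) (k := 3) (by linarith) (by norm_num)
  have t4 := (sq_add x (n := 3 * (g : ℝ)) (by linarith)).2
  have t5 := (sq_sub x (n := 3 * (g : ℝ)) (by linarith)).2
  have t6 := sqm i4
  have t7 := sqm i5
  have hdist : ∀ s ∈ Icc (QC.sq ((a' : ℝ) - 1 / 2)) (QC.sq ((b' : ℝ) + 1 / 2)),
      |s - uz x y| ≤ 28 * Mf x g := by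
    rintro s ⟨h1, h2⟩
    rw [abs_le]
    constructor <;> linarith
  have h1 := hmr_low (uz x y) v0 (A := RI K) (by linarith) (RI_sup (a := a') (b := b')
    (by omega) (fun t h1 h2 => hK t (by omega) (by omega))) hdist
  refine le_trans ?_ h1
  have j1 : Mf x g ≤ 8 * Mf e g := by
    have h2 : |(x : ℝ) - e| ≤ 2 * g := by
      rw [abs_le]
      have k1 : -(2 * (g : ℝ)) ≤ x - e := by exact_mod_cast hxe.1
      have k2 : (x : ℝ) - e ≤ 2 * g := by exact_mod_cast hxe.2
      exact ⟨k1, k2⟩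
    calc Mf x g ≤ Mf x (2 * g) := Mf_mono x (by linarith) (by linarith)
      _ ≤ 2 * Mf e (2 * g) := Mf_shift (by linarith) h2
      _ ≤ 2 * (2 ^ 2 * Mf e g) := by
          have := Mf_scale e (n := (g : ℝ)) (k := 2) (by linarith) (by norm_num)
          linarith
      _ = _ := by ring
  have e4 : (r' : ℝ) = min (r : ℝ) g := by rw [hr']; push_cast; rfl
  rw [qf_small (by linarith) hhg', ← qf_min e (by linarith : (0 : ℝ) < r)
    (by linarith : (0 : ℝ) < g), ← e4]
  have hden : ((28 * Mf x g) ^ 2 + vz x y ^ 2) * Real.pi ≤ 3200 * Mf x g ^ 2 := by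
    have w1 : vz x y ^ 2 ≤ (3 * Mf x g) ^ 2 :=
      pow_le_pow_left₀ v0.le (v2.trans (by linarith)) 2
    have w2 : (28 * Mf x g) ^ 2 + vz x y ^ 2 ≤ 800 * Mf x g ^ 2 := by nlinarith
    have w3 := Real.pi_le_four
    calc ((28 * Mf x g) ^ 2 + vz x y ^ 2) * Real.pi ≤ (800 * Mf x g ^ 2) * 4 :=
          mul_le_mul w2 w3 Real.pi_pos.le (by positivity)
      _ = _ := by ring
  have hnum : (1 / 8 * Mf e r') * (1 / 2 * Mf x h) ≤
      (QC.sq ((b' : ℝ) + 1 / 2) - QC.sq ((a' : ℝ) - 1 / 2)) * vz x y :=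
    mul_le_mul hlen v1 (by positivity) (by linarith)
  have hden0 : 0 < ((28 * Mf x g) ^ 2 + vz x y ^ 2) * Real.pi := by
    have := Real.pi_pos
    positivity
  calc 1 / 409600 * (Mf x h / Mf x g * (Mf e r' / Mf e g)) =
      (1 / 16 * (Mf e r' * Mf x h)) / (3200 * (Mf x g * (8 * Mf e g))) := by
        field_simp
        norm_num
    _ ≤ (1 / 16 * (Mf e r' * Mf x h)) / (3200 * (Mf x g * Mf x g)) := by
        apply div_le_div_of_nonneg_left (by positivity) (by positivity)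
        have := mul_le_mul_of_nonneg_left j1 pg.le
        linarith
    _ ≤ ((QC.sq ((b' : ℝ) + 1 / 2) - QC.sq ((a' : ℝ) - 1 / 2)) * vz x y) /
        (((28 * Mf x g) ^ 2 + vz x y ^ 2) * Real.pi) := by
        rw [div_le_div_iff₀ (by positivity) hden0]
        have z1 : 1 / 16 * (Mf e r' * Mf x h) ≤
            (QC.sq ((b' : ℝ) + 1 / 2) - QC.sq ((a' : ℝ) - 1 / 2)) * vz x y := by linarith
        have z2 : ((28 * Mf x g) ^ 2 + vz x y ^ 2) * Real.pi ≤ 3200 * (Mf x g * Mf x g) := by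
          linarith
        exact mul_le_mul z1 z2 hden0.le (by
          have := mul_pos pr ph
          linarith)

/-- the distance of the images -/
theorem sq_far {x y : ℤ} {h D : ℕ} (hy : 0 ≤ y) (hyx : y ≤ x) (hh : (h : ℤ) = y + 1)
    (hD : 1 ≤ D) (hMD : 16 * Mf x h < Mf x D) :
    uz x y + 1 / 16 * Mf x D ≤ QC.sq ((x : ℝ) + D - 1 / 2) ∧
      QC.sq ((x : ℝ) - D + 1 / 2) ≤ uz x y - 1 / 16 * Mf x D := by
  obtain ⟨v0, v1, v2, u1⟩ := uv_bounds hy hyx hh
  rw [abs_le] at u1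
  have hD0 : (1 : ℝ) ≤ D := by exact_mod_cast hD
  have t1 := Mf_scale x (n := (D : ℝ) - 1 / 2) (k := 2) (by linarith) (by norm_num)
  have t2 := Mf_mono x (m := (D : ℝ)) (n := 2 * ((D : ℝ) - 1 / 2)) (by linarith) (by linarith)
  have s1 := (sq_sub x (n := (D : ℝ) - 1 / 2) (by linarith)).1
  have s2 := (sq_add x (n := (D : ℝ) - 1 / 2) (by linarith)).1
  have e1 : (x : ℝ) - (D - 1 / 2) = x - D + 1 / 2 := by ring
  have e2 : (x : ℝ) + (D - 1 / 2) = x + D - 1 / 2 := by ring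
  rw [e1] at s1
  rw [e2] at s2
  constructor <;> linarith

/-- **upper bound**: `K` is far from `x` -/
theorem num_up1 : ∀ (K : Set ℤ) (x y : ℤ) (h D : ℕ),
    0 ≤ y → y ≤ x → (h : ℤ) = y + 1 → 1 ≤ D → (∀ t ∈ K, (D : ℤ) ≤ |x - t|) →
    hmr (uz x y) (vz x y) (RI K) ≤ 96 * qf x h D := by
  intro K x y h D hy hyx hh hD hK
  obtain ⟨v0, v1, v2, u1⟩ := uv_bounds hy hyx hh
  have hD0 : (1 : ℝ) ≤ D := by exact_mod_cast hD
  have hh0 : (1 : ℝ) ≤ h := by exact_mod_cast (by omega : 1 ≤ h)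
  have ph := Mf_pos x (n := (h : ℝ)) (by linarith)
  have pD := Mf_pos x (n := (D : ℝ)) (by linarith)
  unfold qf
  rw [mul_min_of_nonneg _ _ (by norm_num : (0 : ℝ) ≤ 96)]
  apply le_min
  · exact (hmr_le_one _ v0 _).trans (by norm_num)
  · rcases le_or_gt (Mf x D) (16 * Mf x h) with h1 | h1
    · refine (hmr_le_one _ v0 _).trans ?_
      rw [mul_div_assoc', le_div_iff₀ pD]
      linarith
    · obtain ⟨f1, f2⟩ := sq_far hy hyx hh hD h1
      have hsub : RI K ⊆ Iic (uz x y - 1 / 16 * Mf x D) ∪ Ici (uz x y + 1 / 16 * Mf x D) := by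
        rintro s ⟨t, ht, h2, h3⟩
        have h4 := hK t ht
        rcases abs_cases (x - t) with ⟨h5, _⟩ | ⟨h5, _⟩
        · left
          have : (t : ℝ) ≤ x - D := by exact_mod_cast (by omega : t ≤ x - D)
          exact (h3.trans (sqm (by linarith))).trans f2
        · right
          have : (x : ℝ) + D ≤ t := by exact_mod_cast (by omega : x + D ≤ t)
          exact (f1.trans (sqm (by linarith))).trans h2
      have hd : 0 < 1 / 16 * Mf x D := by positivity
      calc hmr (uz x y) (vz x y) (RI K) ≤ _ := hmr_mono _ v0 hsub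
        _ ≤ _ := hmr_union _ v0
        _ ≤ vz x y / (1 / 16 * Mf x D) + vz x y / (1 / 16 * Mf x D) :=
            add_le_add (hmr_left _ v0 hd le_rfl) (hmr_right _ v0 hd le_rfl)
        _ = 32 * vz x y / Mf x D := by field_simp; ring
        _ ≤ 96 * (Mf x h / Mf x D) := by
            rw [mul_div_assoc']
            apply div_le_div_of_nonneg_right _ pD.le
            linarith

/-- **upper bound** for an interval -/
theorem num_up2 : ∃ C : ℝ, 1 ≤ C ∧ ∀ (K : Set ℤ) (x y a b e : ℤ) (h r g : ℕ),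
    0 ≤ y → y ≤ x → (h : ℤ) = y + 1 → 1 ≤ r → (r : ℤ) = b - a + 1 → a ≤ e → e ≤ b →
    (∀ t, a ≤ t → t ≤ b → |x - e| ≤ |x - t|) → (g : ℤ) = max |x - e| h →
    (∀ t ∈ K, a ≤ t ∧ t ≤ b) →
    hmr (uz x y) (vz x y) (RI K) ≤ C * (qf x h g * qf e r g) := by
  refine ⟨20000, by norm_num, ?_⟩
  intro K x y a b e h r g hy hyx hh hr hrr hae heb hnear hgg hK
  obtain ⟨v0, v1, v2, u1⟩ := uv_bounds hy hyx hh
  have hh1 : 1 ≤ h := by omega
  have hg1 : 1 ≤ g := by omega
  have hg0 : (1 : ℝ) ≤ g := by exact_mod_cast hg1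
  have hh0 : (1 : ℝ) ≤ h := by exact_mod_cast hh1
  have hr0 : (1 : ℝ) ≤ r := by exact_mod_cast hr
  have hhg' : (h : ℝ) ≤ g := by exact_mod_cast (by omega : h ≤ g)
  have ph := Mf_pos x (n := (h : ℝ)) (by linarith)
  have pg := Mf_pos x (n := (g : ℝ)) (by linarith)
  have pe := Mf_pos e (n := (g : ℝ)) (by linarith)
  have pr := Mf_pos e (n := (r : ℝ)) (by linarith)
  have hsub := RI_sub hK
  have hle1 := hmr_le_one (uz x y) v0 (RI K)
  obtain ⟨α, hα⟩ : ∃ α, α = QC.sq ((a : ℝ) - 1 / 2) := ⟨_, rfl⟩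
  obtain ⟨β, hβ⟩ : ∃ β, β = QC.sq ((b : ℝ) + 1 / 2) := ⟨_, rfl⟩
  rw [← hα, ← hβ] at hsub
  have i1 : (a : ℝ) ≤ e := by exact_mod_cast hae
  have i2 : (e : ℝ) ≤ b := by exact_mod_cast heb
  have i3 : (r : ℝ) = b - a + 1 := by exact_mod_cast hrr
  have hab : α ≤ β := by rw [hα, hβ]; exact sqm (by linarith)
  -- the length
  have hlen : β - α ≤ 6 * Mf e r := by
    obtain ⟨n1, hn1⟩ : ∃ n1 : ℝ, n1 = e - a + 1 / 2 := ⟨_, rfl⟩
    obtain ⟨n2, hn2⟩ : ∃ n2 : ℝ, n2 = b + 1 / 2 - e := ⟨_, rfl⟩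
    have s1 := (sq_sub e (n := n1) (by linarith)).2
    have s2 := (sq_add e (n := n2) (by linarith)).2
    have e1 : (e : ℝ) - n1 = a - 1 / 2 := by rw [hn1]; ring
    have e2 : (e : ℝ) + n2 = b + 1 / 2 := by rw [hn2]; ring
    rw [e1, ← hα] at s1
    rw [e2, ← hβ] at s2
    have m1 := Mf_mono e (m := n1) (n := (r : ℝ)) (by linarith) (by linarith)
    have m2 := Mf_mono e (m := n2) (n := (r : ℝ)) (by linarith) (by linarith)
    linarith
  have hxe : |(e : ℝ) - x| ≤ g := by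
    have : |x - e| ≤ (g : ℤ) := by omega
    rw [abs_sub_comm]
    exact_mod_cast this
  have j1 : Mf e g ≤ 2 * Mf x g := Mf_shift (by linarith) hxe
  have q1 := qf_small (t := x) (by linarith : (0 : ℝ) < h) hhg'
  have hvr : (β - α) / vz x y ≤ 12 * Mf e r / Mf x h := by
    rw [div_le_div_iff₀ v0 ph]
    have := mul_le_mul hlen v1 (by positivity) (by positivity)
    nlinarith
  rcases le_or_gt (Mf x g) (16 * Mf x h) with hc | hc
  · have k1 : 1 / 16 ≤ qf x h g := by
      rw [q1, div_le_div_iff₀ (by norm_num) pg]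
      linarith
    have k2 : hmr (uz x y) (vz x y) (RI K) ≤ 400 * qf e r g := by
      unfold qf
      rw [mul_min_of_nonneg _ _ (by norm_num : (0 : ℝ) ≤ 400)]
      apply le_min
      · linarith
      · refine (hmr_up1 _ v0 hab hsub).trans (hvr.trans ?_)
        rw [mul_div_assoc', div_le_div_iff₀ ph pe]
        have : Mf e g ≤ 32 * Mf x h := by linarith
        nlinarith [mul_le_mul_of_nonneg_left this pr.le]
    have q2 := qf_pos e (r := (r : ℝ)) (g := (g : ℝ)) (by linarith) (by linarith)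
    nlinarith
  · -- far
    have hgG : (g : ℤ) = |x - e| := by
      by_contra hne
      have : g = h := by omega
      rw [this] at hc
      linarith
    obtain ⟨f1, f2⟩ := sq_far hy hyx hh hg1 hc
    obtain ⟨d, hd⟩ : ∃ d, d = 1 / 16 * Mf x g := ⟨_, rfl⟩
    have hd0 : 0 < d := by rw [hd]; positivity
    have hside : (∀ s ∈ Icc α β, uz x y + d ≤ s) ∨ (∀ s ∈ Icc α β, s ≤ uz x y - d) := by
      have n1 := hnear a le_rfl (by omega)
      have n2 := hnear b (by omega) le_rfl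
      rcases le_total x e with h1 | h1
      · left
        rintro s ⟨h2, -⟩
        have h3 : x + g ≤ a := by
          rcases abs_cases (x - e) with ⟨j1, _⟩ | ⟨j1, _⟩ <;>
            rcases abs_cases (x - a) with ⟨j2, _⟩ | ⟨j2, _⟩ <;>
              rcases abs_cases (x - b) with ⟨j3, _⟩ | ⟨j3, _⟩ <;> first | omega | skip
          all_goals
            exfalso
            have := hnear x (by omega) (by omega)
            rw [sub_self, abs_zero] at this
            omega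
        have h3' : (x : ℝ) + g ≤ a := by exact_mod_cast h3
        have h4 := sqm (by linarith : (x : ℝ) + g - 1 / 2 ≤ a - 1 / 2)
        rw [← hα] at h4
        linarith
      · right
        rintro s ⟨-, h2⟩
        have h3 : b ≤ x - g := by
          rcases abs_cases (x - e) with ⟨j1, _⟩ | ⟨j1, _⟩ <;>
            rcases abs_cases (x - a) with ⟨j2, _⟩ | ⟨j2, _⟩ <;>
              rcases abs_cases (x - b) with ⟨j3, _⟩ | ⟨j3, _⟩ <;> first | omega | skip
          all_goals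
            exfalso
            have := hnear x (by omega) (by omega)
            rw [sub_self, abs_zero] at this
            omega
        have h3' : (b : ℝ) ≤ x - g := by exact_mod_cast h3
        have h4 := sqm (by linarith : (b : ℝ) + 1 / 2 ≤ x - g + 1 / 2)
        rw [← hβ] at h4
        linarith
    have hdis : ∀ s ∈ Icc α β, d ≤ |s - uz x y| := by
      intro s hs
      rcases hside with h1 | h1
      · have := h1 s hs
        exact le_trans (by linarith) (le_abs_self _)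
      · have := h1 s hs
        have h9 := neg_abs_le (s - uz x y)
        linarith
    have b1 := hmr_up2 (uz x y) v0 hab hd0 hsub hdis
    have b2 : hmr (uz x y) (vz x y) (RI K) ≤ vz x y / d := by
      rcases hside with h1 | h1
      · exact hmr_right _ v0 hd0 (hsub.trans (fun s hs => h1 s hs))
      · exact hmr_left _ v0 hd0 (hsub.trans (fun s hs => h1 s hs))
    have b3 : hmr (uz x y) (vz x y) (RI K) ≤ 48 * (Mf x h / Mf x g) := by
      refine b2.trans ?_
      rw [hd, mul_div_assoc', div_le_div_iff₀ (by positivity) pg]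
      nlinarith
    have b4 : hmr (uz x y) (vz x y) (RI K) ≤
        48 * (Mf x h / Mf x g) * (200 * (Mf e r / Mf e g)) := by
      refine b1.trans ?_
      have z1 : (β - α) * vz x y ≤ (6 * Mf e r) * (3 * Mf x h) :=
        mul_le_mul hlen v2 v0.le (by positivity)
      have z2 : 0 < d ^ 2 := by positivity
      calc (β - α) * vz x y / d ^ 2 ≤ (6 * Mf e r) * (3 * Mf x h) / d ^ 2 :=
            div_le_div_of_nonneg_right z1 z2.le
        _ = 4608 * (Mf x h * Mf e r) / (Mf x g * Mf x g) := by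
            rw [hd]; field_simp; norm_num
        _ ≤ 4608 * (Mf x h * Mf e r) / (Mf x g * (1 / 2 * Mf e g)) := by
            apply div_le_div_of_nonneg_left (by positivity) (by positivity)
            apply mul_le_mul_of_nonneg_left _ pg.le
            linarith
        _ = 9216 * (Mf x h * Mf e r) / (Mf x g * Mf e g) := by field_simp; norm_num
        _ ≤ 9600 * (Mf x h * Mf e r) / (Mf x g * Mf e g) := by
            apply div_le_div_of_nonneg_right _ (by positivity)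
            have := mul_pos ph pr
            linarith
        _ = _ := by field_simp; norm_num
    rw [q1]
    have w0 : 0 ≤ 48 * (Mf x h / Mf x g) := by positivity
    have key : hmr (uz x y) (vz x y) (RI K) ≤ 48 * (Mf x h / Mf x g) * (200 * qf e r g) := by
      unfold qf
      rcases le_total 1 (Mf e r / Mf e g) with h1 | h1
      · rw [min_eq_left h1]
        nlinarith
      · rw [min_eq_right h1]
        exact b4
    calc hmr (uz x y) (vz x y) (RI K) ≤ _ := key
      _ = 9600 * (Mf x h / Mf x g * qf e r g) := by ring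
      _ ≤ _ := by
        apply mul_le_mul_of_nonneg_right (by norm_num)
        have q2 := qf_pos e (r := (r : ℝ)) (g := (g : ℝ)) (by linarith) (by linarith)
        positivity

/-- the complement -/
theorem RI_compl {x y : ℤ} (hv : 0 < vz x y) (K : Set ℤ) :
    hmr (uz x y) (vz x y) (RI K) + hmr (uz x y) (vz x y) (RI Kᶜ) = 1 := by
  have hcd : ∀ K : Set ℤ, RI K = ⋃ t ∈ K, Icc (QC.sq ((t : ℝ) - 1 / 2)) (QC.sq ((t : ℝ) + 1 / 2)) := by
    intro K
    ext s
    simp only [RI, mem_setOf_eq, mem_iUnion, mem_Icc, exists_prop]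
  apply hmr_compl (uz x y) hv
  · rw [hcd]
    exact MeasurableSet.biUnion K.to_countable (fun _ _ => measurableSet_Icc)
  · -- every real number is in one of the two sets
    ext s
    simp only [mem_univ, iff_true]
    obtain ⟨t, ht1, ht2⟩ : ∃ t : ℤ, QC.sq ((t : ℝ) - 1 / 2) ≤ s ∧ s ≤ QC.sq ((t : ℝ) + 1 / 2) := by
      obtain ⟨w, hw⟩ : ∃ w : ℝ, QC.sq w = s := by
        rcases le_total 0 s with h | h
        · refine ⟨Real.sqrt s, ?_⟩
          unfold QC.sq
          rw [abs_of_nonneg (Real.sqrt_nonneg s), Real.mul_self_sqrt h]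
        · refine ⟨-Real.sqrt (-s), ?_⟩
          rw [sq_neg]
          unfold QC.sq
          rw [abs_of_nonneg (Real.sqrt_nonneg _), Real.mul_self_sqrt (by linarith)]
          ring
      refine ⟨⌊w + 1 / 2⌋, ?_, ?_⟩
      · rw [← hw]
        have := Int.floor_le (w + 1 / 2)
        exact sqm (by linarith)
      · rw [← hw]
        have := Int.lt_floor_add_one (w + 1 / 2)
        exact sqm (by linarith)
    by_cases h : t ∈ K
    · exact Or.inl ⟨t, h, ht1, ht2⟩
    · exact Or.inr ⟨t, h, ht1, ht2⟩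
  · -- the intersection is countable
    apply Set.Countable.measure_zero
    apply (Set.countable_range (fun t : ℤ => QC.sq ((t : ℝ) + 1 / 2))).mono
    rintro s ⟨⟨t, ht, h1, h2⟩, ⟨t', ht', h3, h4⟩⟩
    rcases lt_trichotomy t t' with h | h | h
    · refine ⟨t, le_antisymm ?_ h2⟩
      have : (t : ℝ) + 1 ≤ t' := by exact_mod_cast h
      exact (sqm (by linarith)).trans h3
    · rw [h] at ht
      exact absurd ht ht'
    · refine ⟨t', le_antisymm ?_ h4⟩
      have : (t' : ℝ) + 1 ≤ t := by exact_mod_cast h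
      exact (sqm (by linarith)).trans h1

end Pool.Agent.J6H72.LP
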