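import Pool.Agent.J6H72.LP.Up

/-!
Power bounds for the probability that the clusters of `I` surround the face `z`.
-/

set_option autoImplicit false

namespace Pool.Agent.J6H72.LP
open Finset H974 TH976 TH976.QC MeasureTheory
open Pool.Agent.H160R2.CV Pool.Agent.H160R2.CV.Quad
open H362P Pool.Agent.H389R2.CD

/-- ratios of one-arm probabilities near a boundary point -/
theorem ratz (hA : ArS) : ∃ K : ℝ, 1 ≤ K ∧ ∀ (u : Vtx) (t : ℤ) (r n : ℕ), InV u → 1 ≤ r →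
    sd u (bt t) ≤ r → r ≤ n →
    Cmp K (aq u n / aq u r) ((Mf t r / Mf t n) ^ ((1 : ℝ) / 3)) := by
  obtain ⟨K, hK⟩ := ratio_cmp hA
  have hK1 : 1 ≤ K := (hK 0 1 1 le_rfl le_rfl).hk
  have hkr : 1 ≤ kr⁻¹ := (rat_cmp (bt_in 0) (bt_in 0) (r := 1) (n := 1) le_rfl
    (by rw [sd_self]; omega) le_rfl).hk
  refine ⟨kr⁻¹ * 1 * K, Cmp.one_le_mul' (by linarith) hK1, ?_⟩
  intro u t r n hu hr hut hrn
  have hp := bt_in t
  have c1 := rat_cmp hu hp hr hut hrn
  have u1 := aq_pos hu n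
  have u2 := aq_pos hu r
  have p1 := aq_pos hp n
  have p2 := aq_pos hp r
  have c2 := c1.mul (Cmp.refl (x := aq (bt t) n / aq u r) (div_pos p1 u2))
  have c3 := c2.trans ((hK t r n hr (by omega)).congr (by field_simp) rfl)
  exact c3.congr (by field_simp) rfl

theorem qf_le_one (t : ℤ) (r g : ℝ) : qf t r g ≤ 1 := min_le_left _ _

theorem qf_small {t : ℤ} {r g : ℝ} (hr : 0 < r) (hrg : r ≤ g) : qf t r g = Mf t r / Mf t g := by
  unfold qf
  exact min_eq_right ((div_le_one (Mf_pos t (hr.trans_le hrg))).mpr (Mf_mono t hr.le hrg))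

/-- the arm from `z` -/
theorem up_z (hA : ArS) : ∃ C : ℝ, 1 ≤ C ∧ ∀ (z : Vtx) (t : ℤ) (h g : ℕ), InV z → 1 ≤ h →
    sd z (bt t) ≤ h → h ≤ g / 8 → bq z h (g / 8) ≤ C * (qf t h g) ^ ((1 : ℝ) / 3) := by
  obtain ⟨K, hK1, hK⟩ := ratz hA
  have k40 := k4_pos
  have k41 := k4_le
  have kd0 := kd_pos
  have kd1 := kd_le
  have hkk : 1 ≤ (k4 * kd)⁻¹ := by
    rw [inv_eq_one_div, le_div_iff₀ (by positivity), one_mul]
    calc k4 * kd ≤ 1 * 1 := mul_le_mul k41 kd1 kd0.le zero_le_one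
      _ = 1 := by norm_num
  have hkK : 1 ≤ (k4 * kd)⁻¹ * K := Cmp.one_le_mul' hkk hK1
  refine ⟨(k4 * kd)⁻¹ * K * 256, by linarith, ?_⟩
  intro z t h g hz hh hzt hhg
  obtain ⟨n, hn⟩ : ∃ n, n = g / 8 := ⟨_, rfl⟩
  rw [← hn] at hhg ⊢
  have hn1 : 1 ≤ n := by omega
  have hh1' : (1 : ℝ) ≤ h := by exact_mod_cast hh
  have hn1' : (1 : ℝ) ≤ n := by exact_mod_cast hn1
  have h1 := bq_up hz hh hhg
  have h2 := (hK z t h n hz hh hzt hhg).l
  have h6 : (h : ℝ) ≤ g := by exact_mod_cast (by omega : h ≤ g)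
  have hq := qf_pos t (r := (h : ℝ)) (g := (g : ℝ)) (by linarith) (by linarith)
  have h3 : Mf t h / Mf t n ≤ 256 * qf t h g := by
    have h4 : (g : ℝ) ≤ 16 * n := by exact_mod_cast (by omega : g ≤ 16 * n)
    have h5 : Mf t g ≤ 256 * Mf t n := by
      calc Mf t g ≤ Mf t (16 * n) := Mf_mono t (by linarith) h4
        _ ≤ 16 ^ 2 * Mf t n := Mf_scale t (by linarith) (by norm_num)
        _ = _ := by norm_num
    have h7 := Mf_pos t (n := (h : ℝ)) (by linarith)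
    have h8 := Mf_pos t (n := (n : ℝ)) (by linarith)
    have h9 := Mf_pos t (n := (g : ℝ)) (by linarith)
    rw [qf_small (by linarith) h6, mul_div_assoc', div_le_div_iff₀ h8 h9]
    nlinarith
  have h10 : (Mf t h / Mf t n) ^ ((1 : ℝ) / 3) ≤ 256 * (qf t h g) ^ ((1 : ℝ) / 3) := by
    have h7 := Mf_pos t (n := (h : ℝ)) (by linarith)
    have h8 := Mf_pos t (n := (n : ℝ)) (by linarith)
    exact rp_le (by positivity) hq.le (by norm_num) h3
  calc bq z h n ≤ (k4 * kd)⁻¹ * (aq z n / aq z h) := h1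
    _ ≤ (k4 * kd)⁻¹ * (K * (Mf t h / Mf t n) ^ ((1 : ℝ) / 3)) :=
        mul_le_mul_of_nonneg_left h2 (by positivity)
    _ ≤ (k4 * kd)⁻¹ * (K * (256 * (qf t h g) ^ ((1 : ℝ) / 3))) :=
        mul_le_mul_of_nonneg_left (mul_le_mul_of_nonneg_left h10 (by linarith)) (by positivity)
    _ = _ := by ring

/-- **lower bound** -/
theorem pE_low (hA : ArS) : ∃ c : ℝ, 0 < c ∧ ∀ (I : Set ℤ) (x y a b e : ℤ) (h r g : ℕ),
    0 ≤ y → y ≤ x → (h : ℤ) = y + 1 → 1 ≤ r → (r : ℤ) = b - a + 1 → a ≤ e → e ≤ b → h ≤ g →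
    |x - e| ≤ g → (∀ t, a ≤ t → t ≤ b → t ∈ I) →
    c * (qf x h g * qf e r g) ^ ((1 : ℝ) / 3) ≤ pE I (x, y) := by
  obtain ⟨κ, hκ, hL⟩ := LE_low
  obtain ⟨K, hK1, hK⟩ := ratz hA
  have hK0 : 0 < K := by linarith
  refine ⟨κ * (K⁻¹ * K⁻¹), by positivity, ?_⟩
  intro I x y a b e h r g hy hyx hh hr hrr hae heb hhg hxe hI
  have hx : 0 ≤ x := by omega
  have hz : InV ((x, y) : Vtx) := ⟨hx, hy⟩
  rw [abs_le] at hxe
  obtain ⟨r', hr'⟩ : ∃ r', r' = min r g := ⟨_, rfl⟩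
  obtain ⟨a', ha'⟩ : ∃ a', a' = max a (e - r' + 1) := ⟨_, rfl⟩
  have hg1 : 1 ≤ g := by omega
  have hsd : sd (x, y) (bt e) ≤ g := by
    unfold sd bt
    simp only
    omega
  have h1 := hL (x, y) a' (a' + r' - 1) e h r' g hz (by simp only; omega) (by omega) (by omega)
    (by omega) (by omega) hhg (by omega) hsd (qb (bt e) (18 * g)) (qb_inQ _ _)
    (Finset.Subset.refl _)
  have h2 := low_inf (I := I) (z := (x, y)) (a := a') (b := a' + r' - 1)
    (fun t h1 h2 => hI t (by omega) (by omega)) (qb_inQ (bt e) (18 * g))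
  refine le_trans ?_ (h1.trans h2)
  rw [mul_assoc]
  apply mul_le_mul_of_nonneg_left _ hκ.le
  have hg0 : (0 : ℝ) < g := by exact_mod_cast hg1
  have hh0 : (0 : ℝ) < h := by exact_mod_cast (by omega : 0 < h)
  have hr0 : (0 : ℝ) < r := by exact_mod_cast (by omega : 0 < r)
  have hhg' : (h : ℝ) ≤ g := by exact_mod_cast hhg
  have e1 : (r' : ℝ) = min (r : ℝ) g := by rw [hr']; push_cast; rfl
  have g1 := hK (bt e) e r' g (bt_in e) (by omega) (by rw [sd_self]; omega) (by omega)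
  have g2 := hK (x, y) x h g hz (by omega) (by unfold sd bt; simp only; omega) hhg
  rw [e1, qf_min e hr0 hg0] at g1
  rw [← qf_small hh0 hhg'] at g2
  have q1 := qf_pos e hr0 hg0
  have q2 := qf_pos x hh0 hg0
  rw [Real.mul_rpow q2.le q1.le]
  have l1 : K⁻¹ * qf e r g ^ ((1 : ℝ) / 3) ≤ aq (bt e) g / aq (bt e) r' := by
    rw [inv_mul_eq_div, div_le_iff₀ hK0, mul_comm]
    exact g1.r
  have l2 : K⁻¹ * qf x h g ^ ((1 : ℝ) / 3) ≤ aq (x, y) g / aq (x, y) h := by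
    rw [inv_mul_eq_div, div_le_iff₀ hK0, mul_comm]
    exact g2.r
  calc K⁻¹ * K⁻¹ * (qf x h g ^ ((1 : ℝ) / 3) * qf e r g ^ ((1 : ℝ) / 3)) =
      (K⁻¹ * qf e r g ^ ((1 : ℝ) / 3)) * (K⁻¹ * qf x h g ^ ((1 : ℝ) / 3)) := by ring
    _ ≤ _ := mul_le_mul l1 l2 (by positivity) g1.hx.le

/-- the bound of the distance -/
theorem dist_bd {x y t : ℤ} {G : ℕ} (hy : 0 ≤ y) (hyx : y ≤ x) (hG : 40 * (y + 1) ≤ G)
    (ht : (G : ℤ) ≤ |x - t|) : 2 * (G / 8) + 1 ≤ sd (bt t) (x, y) := by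
  unfold sd bt
  simp only
  rcases abs_cases (x - t) with ⟨h1, _⟩ | ⟨h1, _⟩
  · omega
  · omega

theorem pE_le_one (I : Set ℤ) (z : Vtx) : pE I z ≤ 1 := measureReal_le_one

/-- **upper bound** far from `I` -/
theorem pE_up1 (hA : ArS) : ∃ C : ℝ, 1 ≤ C ∧ ∀ (I : Set ℤ) (x y : ℤ) (h G : ℕ),
    0 ≤ y → y ≤ x → (h : ℤ) = y + 1 → 40 * h ≤ G → (∀ t ∈ I, (G : ℤ) ≤ |x - t|) →
    pE I (x, y) ≤ C * (qf x h G) ^ ((1 : ℝ) / 3) := by
  obtain ⟨C, hC1, hC⟩ := up_z hA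
  refine ⟨C, hC1, ?_⟩
  intro I x y h G hy hyx hh hG hI
  have hx : 0 ≤ x := by omega
  have hxI : ¬ (x ∈ I ∧ x + 1 ∈ I) := by
    rintro ⟨h1, _⟩
    have := hI x h1
    rw [sub_self, abs_zero] at this
    omega
  refine (up_one hx hy hh (n := G / 8) (by omega) ?_ hxI).trans
    (hC (x, y) x h G ⟨hx, hy⟩ (by omega) (by unfold sd bt; simp only; omega) (by omega))
  intro t ht
  have := dist_bd hy hyx (G := G) (by omega) (hI t ht)
  omega

/-- **upper bound** for an interval -/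
theorem pE_up2 (hA : ArS) : ∃ C : ℝ, 1 ≤ C ∧ ∀ (x y a b e : ℤ) (h r g : ℕ),
    0 ≤ y → y ≤ x → (h : ℤ) = y + 1 → 1 ≤ r → (r : ℤ) = b - a + 1 → a ≤ e → e ≤ b →
    (∀ t, a ≤ t → t ≤ b → |x - e| ≤ |x - t|) → (g : ℤ) = max |x - e| h →
    pE (Set.Icc a b) (x, y) ≤ C * (qf x h g * qf e r g) ^ ((1 : ℝ) / 3) := by
  obtain ⟨C1, hC1, hU⟩ := up_half hA
  obtain ⟨C2, hC2, hZ⟩ := up_z hA
  refine ⟨C1 * C2 + C1 * (1600 * 1600), by nlinarith, ?_⟩
  intro x y a b e h r g hy hyx hh hr hrr hae heb hnear hgg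
  have hx : 0 ≤ x := by omega
  have hh1 : 1 ≤ h := by omega
  have hr0 : (0 : ℝ) < r := by exact_mod_cast hr
  have hh0 : (0 : ℝ) < h := by exact_mod_cast hh1
  have hg1 : 1 ≤ g := by omega
  have hg0 : (0 : ℝ) < g := by exact_mod_cast hg1
  have q1 := qf_pos x hh0 hg0
  have q2 := qf_pos e hr0 hg0
  have p1 : 0 ≤ (qf x h g) ^ ((1 : ℝ) / 3) := Real.rpow_nonneg q1.le _
  have p2 : 0 ≤ (qf e r g) ^ ((1 : ℝ) / 3) := Real.rpow_nonneg q2.le _
  have hple := pE_le_one (Set.Icc a b) (x, y)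
  have hp0 : 0 ≤ pE (Set.Icc a b) (x, y) := measureReal_nonneg
  rw [Real.mul_rpow q1.le q2.le]
  obtain ⟨G, hG⟩ : ∃ G : ℕ, (G : ℤ) = |x - e| := ⟨(|x - e|).toNat, by
    have := abs_nonneg (x - e); omega⟩
  rcases le_or_gt (40 * h) G with hc | hc
  · -- far away
    have hgG : g = G := by omega
    have hI : ∀ t ∈ Set.Icc a b, (G : ℤ) ≤ |x - t| := fun t ht => by
      rw [hG]; exact hnear t ht.1 ht.2
    have hxI : ¬ (x ∈ Set.Icc a b ∧ x + 1 ∈ Set.Icc a b) := by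
      rintro ⟨h1, _⟩
      have := hI x h1
      rw [sub_self, abs_zero] at this
      omega
    have hIn : ∀ t ∈ Set.Icc a b, G / 8 ≤ sd (bt t) (x, y) := by
      intro t ht
      have := dist_bd hy hyx (G := G) (by omega) (hI t ht)
      omega
    have z1 := hZ (x, y) x h G ⟨hx, hy⟩ hh1 (by unfold sd bt; simp only; omega) (by omega)
    obtain ⟨u1, u2⟩ := hU e r G hr (by omega)
    rw [hgG] at p1 p2 ⊢
    have key : pE (Set.Icc a b) (x, y) ≤
        (C2 * (qf x h G) ^ ((1 : ℝ) / 3)) * (C1 * (qf e r G) ^ ((1 : ℝ) / 3)) := by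
      rcases Nat.lt_or_ge (G / 8) r with h1 | h1
      · have k1 := u1 h1
        have k2 := (up_one hx hy hh (n := G / 8) (by omega) hIn hxI).trans z1
        have k3 : 0 ≤ C2 * (qf x h G) ^ ((1 : ℝ) / 3) := by positivity
        nlinarith
      · have k1 := u2 h1
        have k2 := up_two' (r := r) (n := G / 8) (e := e) hx hy hh (by omega) h1 hIn hxI
          (fun t ht => ⟨by have := ht.1; omega, by have := ht.2; omega⟩) (by
            have := dist_bd hy hyx (G := G) (by omega) (hI e ⟨hae, heb⟩)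
            rw [sd_comm] at this
            omega)
        exact k2.trans (mul_le_mul z1 k1 (bq_nonneg _ _ _) (by positivity))
    refine key.trans ?_
    have : 0 ≤ (qf x h G) ^ ((1 : ℝ) / 3) * (qf e r G) ^ ((1 : ℝ) / 3) := mul_nonneg p1 p2
    nlinarith
  · -- close
    have hg40 : (g : ℝ) ≤ 40 * h := by exact_mod_cast (by omega : g ≤ 40 * h)
    obtain ⟨u1, u2⟩ := hU e r h hr hh1
    have m1 : 1 / 1600 ≤ qf x h g := by
      unfold qf
      refine le_min (by norm_num) ?_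
      rw [div_le_div_iff₀ (by norm_num) (Mf_pos x hg0)]
      calc 1 * Mf x g = Mf x g := one_mul _
        _ ≤ Mf x (40 * h) := Mf_mono x hg0.le hg40
        _ ≤ 40 ^ 2 * Mf x h := Mf_scale x hh0.le (by norm_num)
        _ = _ := by ring
    have m2 : qf e r h ≤ 1600 * qf e r g := by
      have s1 : Mf e g ≤ 1600 * Mf e h := by
        calc Mf e g ≤ Mf e (40 * h) := Mf_mono e hg0.le hg40
          _ ≤ 40 ^ 2 * Mf e h := Mf_scale e hh0.le (by norm_num)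
          _ = _ := by norm_num
      unfold qf
      rw [mul_min_of_nonneg _ _ (by norm_num : (0 : ℝ) ≤ 1600)]
      apply le_min
      · exact (min_le_left _ _).trans (by norm_num)
      · refine (min_le_right _ _).trans ?_
        rw [mul_div_assoc', div_le_div_iff₀ (Mf_pos e hh0) (Mf_pos e hg0)]
        have := Mf_pos e hr0
        nlinarith
    have n1 : 1 ≤ 1600 * (qf x h g) ^ ((1 : ℝ) / 3) := by
      have := rp_le (x := 1) (y := qf x h g) (k := 1600) zero_le_one q1.le (by norm_num)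
        (by linarith)
      rwa [Real.one_rpow] at this
    have n2 := rp_le (qf_pos e hr0 hh0).le q2.le (by norm_num) m2
    have key : pE (Set.Icc a b) (x, y) ≤ C1 * (qf e r h) ^ ((1 : ℝ) / 3) := by
      rcases Nat.lt_or_ge (h / 8) r with h1 | h1
      · exact hple.trans (u1 h1)
      · exact (up_near (e := e) (r := r) (n := h / 8) hyx (by omega) h1 (by omega)
          (fun t ht => ⟨by have := ht.1; omega, by have := ht.2; omega⟩)).trans (u2 h1)
    have hC10 : 0 ≤ C1 := by linarith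
    calc pE (Set.Icc a b) (x, y) ≤ C1 * (qf e r h) ^ ((1 : ℝ) / 3) := key
      _ ≤ C1 * (1600 * (qf e r g) ^ ((1 : ℝ) / 3)) := mul_le_mul_of_nonneg_left n2 hC10
      _ = C1 * 1600 * (1 * (qf e r g) ^ ((1 : ℝ) / 3)) := by ring
      _ ≤ C1 * 1600 * ((1600 * (qf x h g) ^ ((1 : ℝ) / 3)) * (qf e r g) ^ ((1 : ℝ) / 3)) :=
          mul_le_mul_of_nonneg_left (mul_le_mul_of_nonneg_right n1 p2) (by linarith)
      _ = C1 * (1600 * 1600) * ((qf x h g) ^ ((1 : ℝ) / 3) * (qf e r g) ^ ((1 : ℝ) / 3)) := by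
          ring
      _ ≤ _ := by
          apply mul_le_mul_of_nonneg_right _ (mul_nonneg p1 p2)
          have : 0 ≤ C1 * C2 := mul_nonneg hC10 (by linarith)
          linarith

/-- **upper bound for the complement** -/
theorem pN_up (hA : ArS) : ∃ C : ℝ, 1 ≤ C ∧ ∀ (I : Set ℤ) (x y : ℤ) (h D : ℕ),
    0 ≤ y → y ≤ x → (h : ℤ) = y + 1 → 1 ≤ D → (∀ t, x - D + 1 ≤ t → t ≤ x + D → t ∈ I) →
    1 - pE I (x, y) ≤ C * (qf x h D) ^ ((1 : ℝ) / 3) := by
  obtain ⟨K, hK⟩ := ratio_cmp hA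
  have hK1 : 1 ≤ K := (hK 0 1 1 le_rfl le_rfl).hk
  have k40 := k4_pos
  have k41 := k4_le
  have kd0 := kd_pos
  have kd1 := kd_le
  have hkk : 1 ≤ (k4 * kd)⁻¹ := by
    rw [inv_eq_one_div, le_div_iff₀ (by positivity), one_mul]
    calc k4 * kd ≤ 1 * 1 := mul_le_mul k41 kd1 kd0.le zero_le_one
      _ = 1 := by norm_num
  have hkK : 1 ≤ (k4 * kd)⁻¹ * K := Cmp.one_le_mul' hkk hK1
  refine ⟨(k4 * kd)⁻¹ * K * 4096, by linarith, ?_⟩
  intro I x y h D hy hyx hh hD hI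
  have hx : 0 ≤ x := by omega
  have hh1 : 1 ≤ h := by omega
  have hh0 : (1 : ℝ) ≤ h := by exact_mod_cast hh1
  have hD0 : (1 : ℝ) ≤ D := by exact_mod_cast hD
  have q1 := qf_pos x (r := (h : ℝ)) (g := (D : ℝ)) (by linarith) (by linarith)
  have p1 : 0 ≤ (qf x h D) ^ ((1 : ℝ) / 3) := Real.rpow_nonneg q1.le _
  have hp0 : 0 ≤ pE I (x, y) := measureReal_nonneg
  rcases Nat.lt_or_ge D (40 * h) with hc | hc
  · have hg40 : (D : ℝ) ≤ 40 * h := by exact_mod_cast hc.le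
    have m1 : 1 / 1600 ≤ qf x h D := by
      unfold qf
      refine le_min (by norm_num) ?_
      rw [div_le_div_iff₀ (by norm_num) (Mf_pos x (by linarith))]
      calc 1 * Mf x D = Mf x D := one_mul _
        _ ≤ Mf x (40 * h) := Mf_mono x (by linarith) hg40
        _ ≤ 40 ^ 2 * Mf x h := Mf_scale x (by linarith) (by norm_num)
        _ = _ := by ring
    have n1 : 1 ≤ 1600 * (qf x h D) ^ ((1 : ℝ) / 3) := by
      have := rp_le (x := 1) (y := qf x h D) (k := 1600) zero_le_one q1.le (by norm_num)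
        (by linarith)
      rwa [Real.one_rpow] at this
    nlinarith
  · obtain ⟨t0, ht0⟩ : ∃ t0, t0 = max (x - h) 0 := ⟨_, rfl⟩
    obtain ⟨g, hg⟩ : ∃ g, g = 2 * h + 2 := ⟨_, rfl⟩
    obtain ⟨n, hn⟩ : ∃ n, n = D / 4 := ⟨_, rfl⟩
    have h1 := dup_inf (I := I) (a := x - D + 1) (d := x + D) hx hy hh hg
      (n := n) (by omega) hI ht0 (by omega) (by omega)
    have h2 := bq_up (bt_in t0) (r := g) (n := n) (by omega) (by omega)
    have h3 := (hK t0 g n (by omega) (by omega)).l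
    have ht : |((t0 : ℤ) : ℝ) - x| ≤ h := by
      have : |t0 - x| ≤ (h : ℤ) := by rw [abs_le]; omega
      exact_mod_cast this
    have ht' : |(x : ℝ) - (t0 : ℤ)| ≤ h := by rw [abs_sub_comm]; exact ht
    have hn0 : (1 : ℝ) ≤ n := by exact_mod_cast (by omega : 1 ≤ n)
    have hg0 : (1 : ℝ) ≤ g := by exact_mod_cast (by omega : 1 ≤ g)
    have hhn : (h : ℝ) ≤ n := by exact_mod_cast (by omega : h ≤ n)
    have i1 : Mf t0 g ≤ 32 * Mf x h := by
      have h4 : (g : ℝ) ≤ 4 * h := by exact_mod_cast (by omega : g ≤ 4 * h)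
      calc Mf t0 g ≤ Mf t0 (4 * h) := Mf_mono t0 (by linarith) h4
        _ ≤ 4 ^ 2 * Mf t0 h := Mf_scale t0 (by linarith) (by norm_num)
        _ ≤ 4 ^ 2 * (2 * Mf x h) := by
            have := Mf_shift (s := t0) (t := x) (n := (h : ℝ)) (by linarith) ht
            linarith
        _ = _ := by ring
    have i2 : Mf x D ≤ 128 * Mf t0 n := by
      have h4 : (D : ℝ) ≤ 8 * n := by exact_mod_cast (by omega : D ≤ 8 * n)
      calc Mf x D ≤ Mf x (8 * n) := Mf_mono x (by linarith) h4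
        _ ≤ 8 ^ 2 * Mf x n := Mf_scale x (by linarith) (by norm_num)
        _ ≤ 8 ^ 2 * (2 * Mf t0 n) := by
            have := Mf_shift (s := x) (t := t0) (n := (n : ℝ)) (by linarith) (ht'.trans hhn)
            linarith
        _ = _ := by ring
    have pn := Mf_pos t0 (n := (n : ℝ)) (by linarith)
    have pg := Mf_pos t0 (n := (g : ℝ)) (by linarith)
    have ph := Mf_pos x (n := (h : ℝ)) (by linarith)
    have pD := Mf_pos x (n := (D : ℝ)) (by linarith)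
    have i3 : Mf t0 g / Mf t0 n ≤ 4096 * qf x h D := by
      rw [qf_small (by linarith) (hhn.trans (by exact_mod_cast (by omega : n ≤ D))),
        mul_div_assoc', div_le_div_iff₀ pn pD]
      calc Mf t0 g * Mf x D ≤ (32 * Mf x h) * (128 * Mf t0 n) :=
            mul_le_mul i1 i2 pD.le (by positivity)
        _ = _ := by ring
    have i4 := rp_le (by positivity) q1.le (by norm_num) i3
    have h5 : bq (bt t0) g n ≤ (k4 * kd)⁻¹ * K * 4096 * (qf x h D) ^ ((1 : ℝ) / 3) := by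
      calc bq (bt t0) g n ≤ (k4 * kd)⁻¹ * (aq (bt t0) n / aq (bt t0) g) := h2
        _ ≤ (k4 * kd)⁻¹ * (K * (Mf t0 g / Mf t0 n) ^ ((1 : ℝ) / 3)) :=
            mul_le_mul_of_nonneg_left h3 (by positivity)
        _ ≤ (k4 * kd)⁻¹ * (K * (4096 * (qf x h D) ^ ((1 : ℝ) / 3))) :=
            mul_le_mul_of_nonneg_left (mul_le_mul_of_nonneg_left i4 (by linarith))
              (by positivity)
        _ = _ := by ring
    linarith

/-- **lower bound for the complement** -/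
theorem pN_low (hA : ArS) : ∃ c : ℝ, 0 < c ∧ ∀ (I : Set ℤ) (x y p0 p1 e : ℤ) (h g : ℕ),
    0 ≤ y → y ≤ x → (h : ℤ) = y + 1 → h ≤ g → (g : ℤ) = p1 - p0 + 1 → (p0 ≤ e ∧ e ≤ p1) →
    |x - e| ≤ g → (∀ p, p0 ≤ p → p ≤ p1 → ¬ (p ∈ I ∧ p + 1 ∈ I)) →
    c * (qf x h g) ^ ((1 : ℝ) / 3) ≤ 1 - pE I (x, y) := by
  obtain ⟨κ, hκ, hL⟩ := LE_low
  obtain ⟨K, hK1, hK⟩ := ratz hA
  have hK0 : 0 < K := by linarith
  have kd0 := kd_pos
  refine ⟨1 / 4 * (κ * (kd ^ 2 * (K⁻¹ * (1 / 4)))), by positivity, ?_⟩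
  intro I x y p0 p1 e h g hy hyx hh hhg hgg he hxe hI
  have hx : 0 ≤ x := by omega
  have hz : InV ((x, y) : Vtx) := ⟨hx, hy⟩
  have hh1 : 1 ≤ h := by omega
  rw [abs_le] at hxe
  have k1 : kap p0 ≤ kap e := kap_mono he.1
  have k2 : kap e ≤ kap p1 := kap_mono he.2
  obtain ⟨r, hr⟩ : ∃ r : ℕ, (r : ℤ) = kap p1 - kap p0 + 1 :=
    ⟨(kap p1 - kap p0 + 1).toNat, by omega⟩
  have hr1 : 1 ≤ r := by omega
  have hrg : g ≤ r + 1 ∧ r ≤ g := by
    unfold TH976.QC.kap at hr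
    split_ifs at hr <;> omega
  have hke : kap e - e = 0 ∨ kap e - e = 1 := by
    unfold TH976.QC.kap
    split_ifs <;> omega
  have hkp0 : kap p0 - p0 = 0 ∨ kap p0 - p0 = 1 := by
    unfold TH976.QC.kap
    split_ifs <;> omega
  have hkp1 : kap p1 - p1 = 0 ∨ kap p1 - p1 = 1 := by
    unfold TH976.QC.kap
    split_ifs <;> omega
  obtain ⟨N, hN⟩ : ∃ N : ℤ, N = |p0| + |p1| + |e| + 40 * g + 10 := ⟨_, rfl⟩
  have b1 := le_abs_self p0
  have b2 := neg_abs_le p0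
  have b3 := le_abs_self p1
  have b4 := neg_abs_le p1
  have b5 := le_abs_self e
  have b6 := neg_abs_le e
  have hsd : sd (x, y) (bt (kap e)) ≤ 2 * g := by
    unfold sd bt
    simp only
    omega
  have h1 := hL (x, y) (kap p0) (kap p1) (kap e) h r (2 * g) hz (by simp only; omega) hr1 hr
    k1 k2 (by omega) (by omega) hsd (dmp (intE N)) (dint_inQ N) (by
      apply qb_dint <;> unfold bt <;> push_cast <;> omega)
  have h2 := NE_ge (N := N) (z := (x, y)) (p0 := p0) (p1 := p1) (by omega)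
  have h3 := law_compl_le (A := {ω | Enc (OQ ω) I (x, y)}) (RE 0 N 0 N) (NE N (x, y) p0 p1)
    (dlow_inf hz (by omega) (by omega) (by omega) hI)
  have h4 : Pr P (RE 0 N 0 N) (NE N (x, y) p0 p1) ≤ 1 - pE I (x, y) := by
    have : pE I (x, y) ≤ 1 - Pr P (RE 0 N 0 N) (NE N (x, y) p0 p1) := h3
    linarith
  refine le_trans ?_ ((mul_le_mul_of_nonneg_left h1 (by norm_num : (0 : ℝ) ≤ 1 / 4)).trans
    (h2.trans h4))
  rw [mul_assoc]
  apply mul_le_mul_of_nonneg_left _ (by norm_num)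
  rw [mul_assoc]
  apply mul_le_mul_of_nonneg_left _ hκ.le
  have hg0 : (1 : ℝ) ≤ g := by exact_mod_cast (by omega : 1 ≤ g)
  have hh0 : (1 : ℝ) ≤ h := by exact_mod_cast hh1
  have hhg' : (h : ℝ) ≤ g := by exact_mod_cast hhg
  have a1 : kd ^ 2 ≤ aq (bt (kap e)) (2 * g) / aq (bt (kap e)) r := by
    have hp := bt_in (kap e)
    rw [le_div_iff₀ (aq_pos hp r)]
    exact (aq_dbl2 hp r).trans (aq_anti (by omega))
  have g2 := (hK (x, y) x h (2 * g) hz hh1 (by unfold sd bt; simp only; omega) (by omega)).r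
  have a2 : K⁻¹ * (1 / 4) * (qf x h g) ^ ((1 : ℝ) / 3) ≤ aq (x, y) (2 * g) / aq (x, y) h := by
    have s1 : K⁻¹ * (Mf x h / Mf x ((2 * g : ℕ) : ℝ)) ^ ((1 : ℝ) / 3) ≤
        aq (x, y) (2 * g) / aq (x, y) h := by
      rw [inv_mul_eq_div, div_le_iff₀ hK0]
      exact g2.trans (le_of_eq (mul_comm _ _))
    refine le_trans ?_ s1
    rw [mul_assoc]
    apply mul_le_mul_of_nonneg_left _ (by positivity)
    have q1 := qf_pos x (r := (h : ℝ)) (g := (g : ℝ)) (by linarith) (by linarith)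
    have ph := Mf_pos x (n := (h : ℝ)) (by linarith)
    have pg := Mf_pos x (n := (g : ℝ)) (by linarith)
    have e2 : ((2 * g : ℕ) : ℝ) = 2 * (g : ℝ) := by push_cast; rfl
    have pg2 := Mf_pos x (n := 2 * (g : ℝ)) (by linarith)
    have s2 : qf x h g ≤ 4 * (Mf x h / Mf x (2 * (g : ℝ))) := by
      have s3 := Mf_scale x (n := (g : ℝ)) (k := 2) (by linarith) (by norm_num)
      rw [qf_small (by linarith) hhg', mul_div_assoc', div_le_div_iff₀ pg pg2]
      nlinarith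
    have s4 := rp_le q1.le (by positivity) (by norm_num) s2
    rw [e2]
    linarith
  calc kd ^ 2 * (K⁻¹ * (1 / 4)) * (qf x h g) ^ ((1 : ℝ) / 3) =
      kd ^ 2 * (K⁻¹ * (1 / 4) * (qf x h g) ^ ((1 : ℝ) / 3)) := by ring
    _ ≤ _ := by
      refine mul_le_mul a1 a2 ?_ ?_
      · have q1 := qf_pos x (r := (h : ℝ)) (g := (g : ℝ)) (by linarith) (by linarith)
        positivity
      · exact div_nonneg (aq_nonneg _ _) (aq_nonneg _ _)

end Pool.Agent.J6H72.LP
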