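import Pool.Agent.J6H72.LP.Dual2

/-!
Power bounds in the case where the complement of `I` is a finite interval.
-/

set_option autoImplicit false

namespace Pool.Agent.J6H72.LP
open Finset H974 TH976 TH976.QC MeasureTheory
open Pool.Agent.H160R2.CV Pool.Agent.H160R2.CV.Quad
open H362P Pool.Agent.H389R2.CD

theorem bq_qf (hA : ArS) : ∃ C : ℝ, 1 ≤ C ∧ ∀ (t s : ℤ) (r n R G : ℕ), 1 ≤ r → r ≤ n →
    r ≤ 4 * R → G ≤ 128 * n → 1 ≤ R → R ≤ G → |t - s| ≤ r →
    bq (bt t) r n ≤ C * (qf s R G) ^ ((1 : ℝ) / 3) := by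
  obtain ⟨K, hK⟩ := ratio_cmp hA
  have hK1 : 1 ≤ K := (hK 0 1 1 le_rfl le_rfl).hk
  have k40 := k4_pos
  have k41 := k4_le
  have kd0 := kd_pos
  have kd1 := kd_le
  have hkk : 1 ≤ (k4 * kd)⁻¹ := by
    rw [inv_eq_one_div, le_div_iff₀ (by positivity), one_mul]
    calc k4 * kd ≤ 1 * 1 := mul_le_mul k41 kd1 kd0.le zero_le_one
      _ = 1 := by norm_num
  have hkK : 1 ≤ (k4 * kd)⁻¹ * K := Cmp.one_le_mul' hkk hK1
  refine ⟨(k4 * kd)⁻¹ * K * (32 * 32768), by linarith, ?_⟩
  intro t s r n R G hr hrn hrR hGn hR hRG hts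
  have hr0 : (1 : ℝ) ≤ r := by exact_mod_cast hr
  have hn0 : (1 : ℝ) ≤ n := by exact_mod_cast hr.trans hrn
  have hR0 : (1 : ℝ) ≤ R := by exact_mod_cast hR
  have hG0 : (1 : ℝ) ≤ G := by exact_mod_cast hR.trans hRG
  have hrn' : (r : ℝ) ≤ n := by exact_mod_cast hrn
  have hRG' : (R : ℝ) ≤ G := by exact_mod_cast hRG
  have ht : |(t : ℝ) - s| ≤ r := by exact_mod_cast hts
  have ht' : |(s : ℝ) - t| ≤ r := by rw [abs_sub_comm]; exact ht
  have h2 := bq_up (bt_in t) hr hrn
  have h3 := (hK t r n hr (hr.trans hrn)).l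
  have i1 : Mf t r ≤ 32 * Mf s R := by
    have h4 : (r : ℝ) ≤ 4 * R := by exact_mod_cast hrR
    calc Mf t r ≤ 2 * Mf s r := Mf_shift (by linarith) ht
      _ ≤ 2 * Mf s (4 * R) := by
          have := Mf_mono s (m := (r : ℝ)) (by linarith) h4
          linarith
      _ ≤ 2 * (4 ^ 2 * Mf s R) := by
          have := Mf_scale s (n := (R : ℝ)) (k := 4) (by linarith) (by norm_num)
          linarith
      _ = _ := by ring
  have i2 : Mf s G ≤ 32768 * Mf t n := by
    have h4 : (G : ℝ) ≤ 128 * n := by exact_mod_cast hGn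
    calc Mf s G ≤ Mf s (128 * n) := Mf_mono s (by linarith) h4
      _ ≤ 128 ^ 2 * Mf s n := Mf_scale s (by linarith) (by norm_num)
      _ ≤ 128 ^ 2 * (2 * Mf t n) := by
          have := Mf_shift (s := s) (t := t) (n := (n : ℝ)) (by linarith) (ht'.trans hrn')
          linarith
      _ = _ := by ring
  have pn := Mf_pos t (n := (n : ℝ)) (by linarith)
  have pr := Mf_pos t (n := (r : ℝ)) (by linarith)
  have pR := Mf_pos s (n := (R : ℝ)) (by linarith)
  have pG := Mf_pos s (n := (G : ℝ)) (by linarith)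
  have q1 := qf_pos s (r := (R : ℝ)) (g := (G : ℝ)) (by linarith) (by linarith)
  have i3 : Mf t r / Mf t n ≤ 32 * 32768 * qf s R G := by
    rw [qf_small (by linarith) hRG', mul_div_assoc', div_le_div_iff₀ pn pG]
    calc Mf t r * Mf s G ≤ (32 * Mf s R) * (32768 * Mf t n) :=
          mul_le_mul i1 i2 pG.le (by positivity)
      _ = _ := by ring
  have i4 := rp_le (by positivity) q1.le (by norm_num) i3
  calc bq (bt t) r n ≤ (k4 * kd)⁻¹ * (aq (bt t) n / aq (bt t) r) := h2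
    _ ≤ (k4 * kd)⁻¹ * (K * (Mf t r / Mf t n) ^ ((1 : ℝ) / 3)) :=
        mul_le_mul_of_nonneg_left h3 (by positivity)
    _ ≤ (k4 * kd)⁻¹ * (K * (32 * 32768 * (qf s R G) ^ ((1 : ℝ) / 3))) :=
        mul_le_mul_of_nonneg_left (mul_le_mul_of_nonneg_left i4 (by linarith))
          (by positivity)
    _ = _ := by ring

theorem qf_ge_of {t : ℤ} {r g k : ℝ} (hr : 0 < r) (hg : 0 < g) (hk : 1 ≤ k) (h : g ≤ k * r) :
    1 ≤ k ^ 2 * qf t r g := by
  have hk0 : 0 < k := by linarith
  unfold qf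
  rw [mul_min_of_nonneg _ _ (by positivity : (0 : ℝ) ≤ k ^ 2)]
  apply le_min
  · nlinarith
  · rw [mul_div_assoc', le_div_iff₀ (Mf_pos t hg), one_mul]
    exact (Mf_mono t hg.le h).trans (Mf_scale t hr.le hk)

theorem qf_rp_ge {t : ℤ} {r g k : ℝ} (hr : 0 < r) (hg : 0 < g) (hk : 1 ≤ k) (h : g ≤ k * r) :
    1 ≤ k ^ 2 * (qf t r g) ^ ((1 : ℝ) / 3) := by
  have h1 := qf_ge_of (t := t) hr hg hk h
  have := rp_le (x := 1) (y := qf t r g) (k := k ^ 2) zero_le_one (qf_pos t hr hg).le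
    (by nlinarith) h1
  rwa [Real.one_rpow] at this

/-- **upper bound for the complement**, the complement of `I` is finite -/
theorem pN_up2 (hA : ArS) : ∃ C : ℝ, 1 ≤ C ∧ ∀ (I : Set ℤ) (x y c d e : ℤ) (h r g : ℕ),
    0 ≤ y → y ≤ x → (h : ℤ) = y + 1 → 1 ≤ r → (r : ℤ) = d - c + 1 → c ≤ e → e ≤ d →
    (∀ t, c ≤ t → t ≤ d → |x - e| ≤ |x - t|) → (g : ℤ) = max |x - e| h →
    (∀ t, (t < c ∨ d < t) → t ∈ I) →
    1 - pE I (x, y) ≤ C * (qf x h g * qf e r g) ^ ((1 : ℝ) / 3) := by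
  obtain ⟨C, hC1, hB⟩ := bq_qf hA
  refine ⟨C * C * 160000 * 160000 * 160000, by nlinarith, ?_⟩
  intro I x y c d e h r g hy hyx hh hr hrr hce hed hnear hgg hIc
  have hx : 0 ≤ x := by omega
  have hh1 : 1 ≤ h := by omega
  have hcd : c ≤ d := by omega
  have hr0 : (0 : ℝ) < r := by exact_mod_cast hr
  have hh0 : (0 : ℝ) < h := by exact_mod_cast hh1
  have hg1 : 1 ≤ g := by omega
  have hg0 : (0 : ℝ) < g := by exact_mod_cast hg1
  have q1 := qf_pos x hh0 hg0
  have q2 := qf_pos e hr0 hg0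
  have p1 : 0 ≤ (qf x h g) ^ ((1 : ℝ) / 3) := Real.rpow_nonneg q1.le _
  have p2 : 0 ≤ (qf e r g) ^ ((1 : ℝ) / 3) := Real.rpow_nonneg q2.le _
  have hple := pE_le_one I (x, y)
  have hp0 : 0 ≤ pE I (x, y) := measureReal_nonneg
  have hJ : ∀ t, ¬ (t ∈ I ∧ t + 1 ∈ I) → c - 1 ≤ t ∧ t ≤ d := by
    intro t ht
    by_contra hcon
    exact ht ⟨hIc t (by omega), hIc (t + 1) (by omega)⟩
  rw [Real.mul_rpow q1.le q2.le]
  obtain ⟨G, hG⟩ : ∃ G : ℕ, (G : ℤ) = |x - e| := ⟨(|x - e|).toNat, by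
    have := abs_nonneg (x - e); omega⟩
  obtain ⟨s0, hs0⟩ : ∃ s0, s0 = ctr (c - 1) (d + 1) := ⟨_, rfl⟩
  have hs0m := ctr_mem (b := c - 1) (c := d + 1) (by omega)
  rw [← hs0] at hs0m
  have hse : |s0 - e| ≤ ((r + 1 : ℕ) : ℤ) := by rw [abs_le]; push_cast; omega
  have hCC : C ≤ C * C := by nlinarith
  rcases le_or_gt (400 * h) G with hc | hc
  · -- far away
    have hgG : g = G := by omega
    rw [hgG] at p1 p2 ⊢
    obtain ⟨n, hn⟩ : ∃ n, n = G / 64 := ⟨_, rfl⟩
    obtain ⟨t0, ht0⟩ : ∃ t0, t0 = max (x - h) 0 := ⟨_, rfl⟩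
    have hIx : ∀ t, x - (G - 1) ≤ t → t ≤ x + (G - 1) → t ∈ I := by
      intro t h1 h2
      apply hIc
      by_contra h3
      have h4 := hnear t (by omega) (by omega)
      rw [← hG] at h4
      rcases abs_cases (x - t) with ⟨h5, _⟩ | ⟨h5, _⟩ <;> omega
    have b1 := hB t0 x (2 * h + 2) n h G (by omega) (by omega) (by omega) (by omega) hh1
      (by omega) (by rw [abs_le]; push_cast; omega)
    have key : 1 - pE I (x, y) ≤ (C * (qf x h G) ^ ((1 : ℝ) / 3)) *
        (C * 160000 * (qf e r G) ^ ((1 : ℝ) / 3)) := by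
      rcases Nat.lt_or_ge (r + 1) n with h1 | h1
      · -- two arms
        obtain ⟨N, hN⟩ : ∃ N : ℤ, N = t0 + |s0| + n + 2 := ⟨_, rfl⟩
        have a0 := abs_nonneg s0
        have k1 := le_abs_self s0
        have k2 := neg_abs_le s0
        have hx' : x < c - 2 * n - 5 ∨ d + 2 * n + 5 ≤ x := by
          have i1 := hnear c le_rfl hcd
          have i2 := hnear d hcd le_rfl
          rw [← hG] at i1 i2
          rcases abs_cases (x - e) with ⟨j1, _⟩ | ⟨j1, _⟩ <;>
            rcases abs_cases (x - c) with ⟨j2, _⟩ | ⟨j2, _⟩ <;>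
              rcases abs_cases (x - d) with ⟨j3, _⟩ | ⟨j3, _⟩ <;> omega
        have hsx : ((G - (r + 1) : ℕ) : ℤ) ≤ |x - s0| := by
          rcases abs_cases (x - e) with ⟨j1, _⟩ | ⟨j1, _⟩ <;>
            rcases abs_cases (x - s0) with ⟨j2, _⟩ | ⟨j2, _⟩ <;>
              rcases abs_cases (s0 - e) with ⟨j3, _⟩ | ⟨j3, _⟩ <;> omega
        have hT : ∀ e' ∈ VP x y, n + 1 < sd (src e') (bt (ctr (c - 1) (d + 1))) := by
          rw [← hs0]
          rintro ⟨u, v, w⟩ ⟨i1, i2, i3⟩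
          simp only at i1 i2
          rw [src_mk, i1, sd_comm]
          have := dist_bd (x := x) (y := v) (t := s0) (G := G - (r + 1)) i2.1 (by omega)
            (by omega) hsx
          omega
        have d1 := hB s0 e (r + 1) n r G (by omega) (by omega) (by omega) (by omega) hr
          (by omega) hse
        have dis : n + n + 1 ≤ sd (bt t0) (bt s0) := by
          apply le_sd_bt
          rcases abs_cases (x - s0) with ⟨j1, _⟩ | ⟨j1, _⟩ <;> push_cast <;> omega
        have hdis : Disjoint (qb (bt t0) n \ qb (bt t0) (2 * h + 2))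
            (qb (bt s0) n \ qb (bt s0) (r + 1)) :=
          Finset.disjoint_of_subset_left Finset.sdiff_subset
            (Finset.disjoint_of_subset_right Finset.sdiff_subset (qb_disj dis))
        have i1 := indep2 (dmp (RE 0 N 0 N)) _ _ hdis (CxL_inc (bt t0) (2 * h + 2) n)
          (CxL_inc (bt s0) (r + 1) n) (CxL_loc _ _ _) (CxL_loc _ _ _)
        rw [pr_CxL, pr_CxL, ← pr_dual] at i1
        have i2 := le_law_compl (A := {ω | Enc (OQ ω) I (x, y)}) (RE 0 N 0 N)
          (fun F => CxL (bt t0) (2 * h + 2) n (dmp (RE 0 N 0 N \ F)) ∧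
            CxL (bt s0) (r + 1) n (dmp (RE 0 N 0 N \ F))) (by
              intro ω hω
              have hsub : (↑(FF (RE 0 N 0 N) ω) : Set Edg) ⊆ OQ ω := by
                rw [FF_coe]
                exact Set.inter_subset_inter_right _
                  (fun e he => RE_inQ N e (Finset.mem_coe.mp he))
              refine ⟨dup_det (F := OQ ω) hx hy hh rfl (by omega) hIx ht0 (by omega) (by omega)
                (by omega) (Finset.filter_subset _ _) hsub hω, ?_⟩
              rw [hs0]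
              exact dualJ_det (F := OQ ω) (x' := x) hcd (by push_cast; omega) h1
                (fun t ht => hIc t (by omega)) hJ hx' (vpath' hx hy) hT
                (by rw [← hs0]; omega) (Finset.filter_subset _ _) hsub hω)
        have i3 : 1 - pE I (x, y) ≤ bq (bt t0) (2 * h + 2) n * bq (bt s0) (r + 1) n := by
          have : 1 - Pr P (RE 0 N 0 N) (fun F => CxL (bt t0) (2 * h + 2) n
            (dmp (RE 0 N 0 N \ F)) ∧ CxL (bt s0) (r + 1) n (dmp (RE 0 N 0 N \ F))) ≤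
              pE I (x, y) := i2
          linarith
        refine i3.trans (mul_le_mul b1 (d1.trans ?_) (bq_nonneg _ _ _) (by positivity))
        apply mul_le_mul_of_nonneg_right _ p2
        linarith
      · -- one arm
        have i1 := dup_inf (I := I) (a := x - (G - 1)) (d := x + (G - 1)) hx hy hh rfl
          (n := n) (by omega) hIx ht0 (by omega) (by omega)
        have i2 := qf_rp_ge (t := e) (r := (r : ℝ)) (g := (G : ℝ)) (k := 400) hr0
          (by rw [← hgG]; exact hg0) (by norm_num)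
          (by exact_mod_cast (by omega : G ≤ 400 * r))
        have i3 : 1 ≤ C * 160000 * (qf e r G) ^ ((1 : ℝ) / 3) := by
          have : 0 ≤ 160000 * (qf e r G) ^ ((1 : ℝ) / 3) := by positivity
          nlinarith
        have i4 : 0 ≤ C * (qf x h G) ^ ((1 : ℝ) / 3) := by positivity
        nlinarith
    refine key.trans ?_
    have : 0 ≤ (qf x h G) ^ ((1 : ℝ) / 3) * (qf e r G) ^ ((1 : ℝ) / 3) := mul_nonneg p1 p2
    calc C * (qf x h G) ^ ((1 : ℝ) / 3) * (C * 160000 * (qf e r G) ^ ((1 : ℝ) / 3)) =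
        C * C * 160000 * 1 * ((qf x h G) ^ ((1 : ℝ) / 3) * (qf e r G) ^ ((1 : ℝ) / 3)) := by ring
      _ ≤ _ := by
        apply mul_le_mul_of_nonneg_right _ this
        have : 0 < C * C := by positivity
        nlinarith
  · -- close
    have hg40 : (g : ℝ) ≤ 400 * h := by exact_mod_cast (by omega : g ≤ 400 * h)
    have n1 := qf_rp_ge (t := x) hh0 hg0 (by norm_num) hg40
    have m2 : qf e r h ≤ 160000 * qf e r g := by
      have s1 : Mf e g ≤ 160000 * Mf e h := by
        calc Mf e g ≤ Mf e (400 * h) := Mf_mono e hg0.le hg40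
          _ ≤ 400 ^ 2 * Mf e h := Mf_scale e hh0.le (by norm_num)
          _ = _ := by norm_num
      unfold qf
      rw [mul_min_of_nonneg _ _ (by norm_num : (0 : ℝ) ≤ 160000)]
      apply le_min
      · exact (min_le_left _ _).trans (by norm_num)
      · refine (min_le_right _ _).trans ?_
        rw [mul_div_assoc', div_le_div_iff₀ (Mf_pos e hh0) (Mf_pos e hg0)]
        have := Mf_pos e hr0
        nlinarith
    have n2 := rp_le (qf_pos e hr0 hh0).le q2.le (by norm_num) m2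
    have key : 1 - pE I (x, y) ≤ C * C * (qf e r h) ^ ((1 : ℝ) / 3) ∨
        1 - pE I (x, y) ≤ 160000 * (qf e r h) ^ ((1 : ℝ) / 3) := by
      obtain ⟨n, hn⟩ : ∃ n, n = h / 64 := ⟨_, rfl⟩
      rcases Nat.lt_or_ge (r + 1) n with h1 | h1
      · left
        obtain ⟨N, hN⟩ : ∃ N : ℤ, N = |s0| + n + 2 := ⟨_, rfl⟩
        have d1 := hB s0 e (r + 1) n r h (by omega) (by omega) (by omega) (by omega) hr
          (by omega) hse
        obtain ⟨x', T, hx', hd, hT⟩ : ∃ (x' : ℤ) (T : Set Edg),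
            (x' < c - 2 * n - 5 ∨ d + 2 * n + 5 ≤ x') ∧ DReach (T ∩ QE) (x, y) (ofc x') ∧
            ∀ e' ∈ T, n + 1 < sd (src e') (bt s0) := by
          by_cases hcase : e < 0 ∨ (4 * n + 10 : ℤ) < x - e ∨ (4 * n + 10 : ℤ) < e - x
          · refine ⟨x, VP x y, by omega, vpath' hx hy, ?_⟩
            rintro ⟨u, v, w⟩ ⟨i1, i2, i3⟩
            simp only at i1 i2
            rw [src_mk, i1]
            unfold sd bt
            simp only
            omega
          · push Not at hcase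
            obtain ⟨m, hm⟩ : ∃ m : ℕ, m = 3 * (4 * n + 10) := ⟨_, rfl⟩
            refine ⟨x + m, HP x y m ∪ VP (x + m) y, by omega, ?_, ?_⟩
            · refine ((hpath hx hy m).mono ?_).trans ((vpath' (by omega) hy).mono ?_)
              · exact Set.inter_subset_inter_left _ Set.subset_union_left
              · exact Set.inter_subset_inter_left _ Set.subset_union_right
            · rintro ⟨u, v, w⟩ (⟨i1, i2, i3⟩ | ⟨i1, i2, i3⟩)
              · simp only at i1 i2
                rw [src_mk]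
                unfold sd bt
                simp only
                omega
              · simp only at i1 i2
                rw [src_mk]
                unfold sd bt
                simp only
                omega
        have i2 := le_law_compl (A := {ω | Enc (OQ ω) I (x, y)}) (RE 0 N 0 N)
          (fun F => CxL (bt s0) (r + 1) n (dmp (RE 0 N 0 N \ F))) (by
              intro ω hω
              have hsub : (↑(FF (RE 0 N 0 N) ω) : Set Edg) ⊆ OQ ω := by
                rw [FF_coe]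
                exact Set.inter_subset_inter_right _
                  (fun e he => RE_inQ N e (Finset.mem_coe.mp he))
              rw [hs0]
              exact dualJ_det (F := OQ ω) (x' := x') hcd (by push_cast; omega) h1
                (fun t ht => hIc t (by omega)) hJ hx' hd (by rw [← hs0]; exact hT)
                (by rw [← hs0]; omega) (Finset.filter_subset _ _) hsub hω)
        have i3 : 1 - pE I (x, y) ≤ bq (bt s0) (r + 1) n := by
          rw [pr_dual] at i2
          have j1 := pr_le_loc (dmp (RE 0 N 0 N)) _ (CxL_inc (bt s0) (r + 1) n)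
            (CxL_loc (bt s0) (r + 1) n)
          rw [pr_CxL] at j1
          have : 1 - Pr P (dmp (RE 0 N 0 N)) (CxL (bt s0) (r + 1) n) ≤ pE I (x, y) := i2
          linarith
        refine (i3.trans d1).trans ?_
        apply mul_le_mul_of_nonneg_right hCC
        exact Real.rpow_nonneg (qf_pos e hr0 hh0).le _
      · right
        have i2 := qf_rp_ge (t := e) (r := (r : ℝ)) (g := (h : ℝ)) (k := 400) hr0 hh0
          (by norm_num) (by exact_mod_cast (by omega : h ≤ 400 * r))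
        have e1 : (400 : ℝ) ^ 2 = 160000 := by norm_num
        rw [e1] at i2
        linarith
    have e1 : (400 : ℝ) ^ 2 = 160000 := by norm_num
    rw [e1] at n1
    have hq0 : 0 ≤ (qf e r h) ^ ((1 : ℝ) / 3) := Real.rpow_nonneg (qf_pos e hr0 hh0).le _
    have k1 : 1 - pE I (x, y) ≤ C * C * 160000 * (qf e r h) ^ ((1 : ℝ) / 3) := by
      rcases key with h1 | h1
      · refine h1.trans (mul_le_mul_of_nonneg_right ?_ hq0)
        nlinarith
      · refine h1.trans (mul_le_mul_of_nonneg_right ?_ hq0)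
        nlinarith
    have hCC0 : 0 ≤ C * C * 160000 := by positivity
    calc 1 - pE I (x, y) ≤ C * C * 160000 * (qf e r h) ^ ((1 : ℝ) / 3) := k1
      _ ≤ C * C * 160000 * (160000 * (qf e r g) ^ ((1 : ℝ) / 3)) :=
          mul_le_mul_of_nonneg_left n2 hCC0
      _ = C * C * 160000 * (1 * (160000 * (qf e r g) ^ ((1 : ℝ) / 3))) := by ring
      _ ≤ C * C * 160000 * ((160000 * (qf x h g) ^ ((1 : ℝ) / 3)) *
          (160000 * (qf e r g) ^ ((1 : ℝ) / 3))) :=
          mul_le_mul_of_nonneg_left (mul_le_mul_of_nonneg_right n1 (by positivity)) hCC0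
      _ = C * C * 160000 * 160000 * 160000 *
          ((qf x h g) ^ ((1 : ℝ) / 3) * (qf e r g) ^ ((1 : ℝ) / 3)) := by ring

/-- **lower bound for the complement**, general form -/
theorem pN_low2 (hA : ArS) : ∃ c : ℝ, 0 < c ∧ ∀ (I : Set ℤ) (x y p0 p1 e : ℤ) (h r g : ℕ),
    0 ≤ y → y ≤ x → (h : ℤ) = y + 1 → h ≤ g → 1 ≤ r → (r : ℤ) = p1 - p0 + 1 →
    (p0 ≤ e ∧ e ≤ p1) → |x - e| ≤ g → (∀ p, p0 ≤ p → p ≤ p1 → ¬ (p ∈ I ∧ p + 1 ∈ I)) →
    c * (qf x h g * qf e r g) ^ ((1 : ℝ) / 3) ≤ 1 - pE I (x, y) := by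
  obtain ⟨κ, hκ, hL⟩ := LE_low
  obtain ⟨K, hK1, hK⟩ := ratz hA
  have hK0 : 0 < K := by linarith
  refine ⟨1 / 4 * (κ * ((K⁻¹ * (1 / 64)) * (K⁻¹ * (1 / 4)))), by positivity, ?_⟩
  intro I x y p0 p1 e h r g hy hyx hh hhg hr1 hrr he hxe hI
  have hx : 0 ≤ x := by omega
  have hz : InV ((x, y) : Vtx) := ⟨hx, hy⟩
  have hh1 : 1 ≤ h := by omega
  rw [abs_le] at hxe
  obtain ⟨r', hr'⟩ : ∃ r', r' = min r g := ⟨_, rfl⟩
  obtain ⟨q0, hq0⟩ : ∃ q0, q0 = max p0 (e - r' + 1) := ⟨_, rfl⟩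
  obtain ⟨q1, hq1⟩ : ∃ q1, q1 = q0 + r' - 1 := ⟨_, rfl⟩
  have he' : q0 ≤ e ∧ e ≤ q1 := by omega
  have hq01 : p0 ≤ q0 ∧ q1 ≤ p1 := by omega
  have k1 : kap q0 ≤ kap e := kap_mono he'.1
  have k2 : kap e ≤ kap q1 := kap_mono he'.2
  obtain ⟨s, hs⟩ : ∃ s : ℕ, (s : ℤ) = kap q1 - kap q0 + 1 :=
    ⟨(kap q1 - kap q0 + 1).toNat, by omega⟩
  have hs1 : 1 ≤ s := by omega
  have hsr : r' ≤ s + 1 ∧ s ≤ r' := by
    unfold TH976.QC.kap at hs
    split_ifs at hs <;> omega
  have hke : kap e - e = 0 ∨ kap e - e = 1 := by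
    unfold TH976.QC.kap
    split_ifs <;> omega
  have hkp0 : kap q0 - q0 = 0 ∨ kap q0 - q0 = 1 := by
    unfold TH976.QC.kap
    split_ifs <;> omega
  have hkp1 : kap q1 - q1 = 0 ∨ kap q1 - q1 = 1 := by
    unfold TH976.QC.kap
    split_ifs <;> omega
  obtain ⟨N, hN⟩ : ∃ N : ℤ, N = |q0| + |q1| + |e| + 40 * g + 10 := ⟨_, rfl⟩
  have b1 := le_abs_self q0
  have b2 := neg_abs_le q0
  have b3 := le_abs_self q1
  have b4 := neg_abs_le q1
  have b5 := le_abs_self e
  have b6 := neg_abs_le e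
  have hsd : sd (x, y) (bt (kap e)) ≤ 2 * g := by
    unfold sd bt
    simp only
    omega
  have h1 := hL (x, y) (kap q0) (kap q1) (kap e) h s (2 * g) hz (by simp only; omega) hs1 hs
    k1 k2 (by omega) (by omega) hsd (dmp (intE N)) (dint_inQ N) (by
      apply qb_dint <;> unfold bt <;> push_cast <;> omega)
  have h2 := NE_ge (N := N) (z := (x, y)) (p0 := q0) (p1 := q1) (by omega)
  have h3 := law_compl_le (A := {ω | Enc (OQ ω) I (x, y)}) (RE 0 N 0 N) (NE N (x, y) q0 q1)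
    (dlow_inf hz (by omega) (by omega) (by omega)
      (fun p hp1 hp2 => hI p (by omega) (by omega)))
  have h4 : Pr P (RE 0 N 0 N) (NE N (x, y) q0 q1) ≤ 1 - pE I (x, y) := by
    have : pE I (x, y) ≤ 1 - Pr P (RE 0 N 0 N) (NE N (x, y) q0 q1) := h3
    linarith
  refine le_trans ?_ ((mul_le_mul_of_nonneg_left h1 (by norm_num : (0 : ℝ) ≤ 1 / 4)).trans
    (h2.trans h4))
  rw [mul_assoc]
  apply mul_le_mul_of_nonneg_left _ (by norm_num)
  rw [mul_assoc]
  apply mul_le_mul_of_nonneg_left _ hκ.le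
  have hg0 : (1 : ℝ) ≤ g := by exact_mod_cast (by omega : 1 ≤ g)
  have hh0 : (1 : ℝ) ≤ h := by exact_mod_cast hh1
  have hr0 : (1 : ℝ) ≤ r := by exact_mod_cast hr1
  have hs0 : (1 : ℝ) ≤ s := by exact_mod_cast hs1
  have hr'0 : (1 : ℝ) ≤ r' := by exact_mod_cast (by omega : 1 ≤ r')
  have hhg' : (h : ℝ) ≤ g := by exact_mod_cast hhg
  have q1' := qf_pos x (r := (h : ℝ)) (g := (g : ℝ)) (by linarith) (by linarith)
  have q2' := qf_pos e (r := (r : ℝ)) (g := (g : ℝ)) (by linarith) (by linarith)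
  have e2 : ((2 * g : ℕ) : ℝ) = 2 * (g : ℝ) := by push_cast; rfl
  have a1 : K⁻¹ * (1 / 64) * (qf e r g) ^ ((1 : ℝ) / 3) ≤
      aq (bt (kap e)) (2 * g) / aq (bt (kap e)) s := by
    have g1 := (hK (bt (kap e)) (kap e) s (2 * g) (bt_in _) hs1 (by rw [sd_self]; omega)
      (by omega)).r
    have s1 : K⁻¹ * (Mf (kap e) s / Mf (kap e) ((2 * g : ℕ) : ℝ)) ^ ((1 : ℝ) / 3) ≤
        aq (bt (kap e)) (2 * g) / aq (bt (kap e)) s := by
      rw [inv_mul_eq_div, div_le_iff₀ hK0]
      exact g1.trans (le_of_eq (mul_comm _ _))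
    refine le_trans ?_ s1
    rw [mul_assoc]
    apply mul_le_mul_of_nonneg_left _ (by positivity)
    have t1 : |(e : ℝ) - (kap e : ℤ)| ≤ 1 := by
      have : |e - kap e| ≤ 1 := by rw [abs_le]; omega
      exact_mod_cast this
    have t2 : |((kap e : ℤ) : ℝ) - e| ≤ 1 := by rw [abs_sub_comm]; exact t1
    have ps := Mf_pos (kap e) (n := (s : ℝ)) (by linarith)
    have pg := Mf_pos e (n := (g : ℝ)) (by linarith)
    have pg2 := Mf_pos (kap e) (n := 2 * (g : ℝ)) (by linarith)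
    have m1 : Mf e r' ≤ 8 * Mf (kap e) s := by
      have h5 : (r' : ℝ) ≤ 2 * s := by exact_mod_cast (by omega : r' ≤ 2 * s)
      calc Mf e r' ≤ 2 * Mf (kap e) r' := Mf_shift (by linarith) (t1.trans hr'0)
        _ ≤ 2 * Mf (kap e) (2 * s) := by
            have := Mf_mono (kap e) (m := (r' : ℝ)) (by linarith) h5
            linarith
        _ ≤ 2 * (2 ^ 2 * Mf (kap e) s) := by
            have := Mf_scale (kap e) (n := (s : ℝ)) (k := 2) (by linarith) (by norm_num)
            linarith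
        _ = _ := by ring
    have m2 : Mf (kap e) (2 * (g : ℝ)) ≤ 8 * Mf e g := by
      calc Mf (kap e) (2 * (g : ℝ)) ≤ 2 ^ 2 * Mf (kap e) g :=
            Mf_scale (kap e) (by linarith) (by norm_num)
        _ ≤ 2 ^ 2 * (2 * Mf e g) := by
            have := Mf_shift (s := kap e) (t := e) (n := (g : ℝ)) (by linarith)
              (t2.trans hg0)
            linarith
        _ = _ := by ring
    have m3 : qf e r g ≤ 64 * (Mf (kap e) s / Mf (kap e) (2 * (g : ℝ))) := by
      have e1 : (r' : ℝ) = min (r : ℝ) g := by rw [hr']; push_cast; rfl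
      rw [← qf_min e (by linarith : (0 : ℝ) < r) (by linarith : (0 : ℝ) < g), ← e1,
        mul_div_assoc', div_le_div_iff₀ pg pg2]
      have := mul_le_mul m1 m2 pg2.le (by positivity)
      nlinarith
    have s4 := rp_le q2'.le (by positivity) (by norm_num) m3
    rw [e2]
    linarith
  have g2 := (hK (x, y) x h (2 * g) hz hh1 (by unfold sd bt; simp only; omega) (by omega)).r
  have a2 : K⁻¹ * (1 / 4) * (qf x h g) ^ ((1 : ℝ) / 3) ≤ aq (x, y) (2 * g) / aq (x, y) h := by
    have s1 : K⁻¹ * (Mf x h / Mf x ((2 * g : ℕ) : ℝ)) ^ ((1 : ℝ) / 3) ≤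
        aq (x, y) (2 * g) / aq (x, y) h := by
      rw [inv_mul_eq_div, div_le_iff₀ hK0]
      exact g2.trans (le_of_eq (mul_comm _ _))
    refine le_trans ?_ s1
    rw [mul_assoc]
    apply mul_le_mul_of_nonneg_left _ (by positivity)
    have ph := Mf_pos x (n := (h : ℝ)) (by linarith)
    have pg := Mf_pos x (n := (g : ℝ)) (by linarith)
    have pg2 := Mf_pos x (n := 2 * (g : ℝ)) (by linarith)
    have s2 : qf x h g ≤ 4 * (Mf x h / Mf x (2 * (g : ℝ))) := by
      have s3 := Mf_scale x (n := (g : ℝ)) (k := 2) (by linarith) (by norm_num)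
      rw [qf_small (by linarith) hhg', mul_div_assoc', div_le_div_iff₀ pg pg2]
      nlinarith
    have s4 := rp_le q1'.le (by positivity) (by norm_num) s2
    rw [e2]
    linarith
  rw [Real.mul_rpow q1'.le q2'.le]
  calc K⁻¹ * (1 / 64) * (K⁻¹ * (1 / 4)) *
        ((qf x h g) ^ ((1 : ℝ) / 3) * (qf e r g) ^ ((1 : ℝ) / 3)) =
      (K⁻¹ * (1 / 64) * (qf e r g) ^ ((1 : ℝ) / 3)) *
        (K⁻¹ * (1 / 4) * (qf x h g) ^ ((1 : ℝ) / 3)) := by ring
    _ ≤ _ := mul_le_mul a1 a2 (by positivity) (div_nonneg (aq_nonneg _ _) (aq_nonneg _ _))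

end Pool.Agent.J6H72.LP
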