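import Pool.Agent.J6H72.LP.Asm

/-!
The transposition of the coordinates.
-/

set_option autoImplicit false

namespace Pool.Agent.J6H72.LP
open H974 TH976 TH976.QC MeasureTheory Set
open Pool.Agent.H160R2.CV Pool.Agent.H160R2.CV.Quad
open H362P Pool.Agent.H389R2.CD

/-- the transposition of the edges -/
def tE (e : Edg) : Edg := (e.2.1, e.1, !e.2.2)

theorem tE_tE (e : Edg) : tE (tE e) = e := by
  obtain ⟨x, y, b⟩ := e
  simp [tE]

theorem src_tE (e : Edg) : src (tE e) = (src e).swap := rfl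

theorem tgt_tE (e : Edg) : tgt (tE e) = (tgt e).swap := by
  obtain ⟨x, y, b⟩ := e
  cases b <;> simp [tE, tgt]

theorem dsrc_tE (e : Edg) : dsrc (tE e) = (dsrc e).swap := by
  obtain ⟨x, y, b⟩ := e
  cases b <;> simp [tE, dsrc]

theorem dtgt_tE (e : Edg) : dtgt (tE e) = (dtgt e).swap := rfl

theorem tE_pre (F : Set Edg) : tE ⁻¹' (tE ⁻¹' F) = F := by
  ext e
  simp only [mem_preimage, tE_tE]

theorem adj_t {F : Set Edg} {u v : Vtx} (h : Adj F u v) : Adj (tE ⁻¹' F) u.swap v.swap := by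
  obtain ⟨e, he, h1⟩ := h
  refine ⟨tE e, by rw [mem_preimage, tE_tE]; exact he, ?_⟩
  rw [src_tE, tgt_tE]
  rcases h1 with ⟨h1, h2⟩ | ⟨h1, h2⟩
  · exact Or.inl ⟨by rw [h1], by rw [h2]⟩
  · exact Or.inr ⟨by rw [h1], by rw [h2]⟩

theorem dadj_t {F : Set Edg} {u v : Vtx} (h : DAdj F u v) : DAdj (tE ⁻¹' F) u.swap v.swap := by
  obtain ⟨e, he, h1⟩ := h
  refine ⟨tE e, by rw [mem_preimage, tE_tE]; exact he, ?_⟩
  rw [dsrc_tE, dtgt_tE]
  rcases h1 with ⟨h1, h2⟩ | ⟨h1, h2⟩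
  · exact Or.inl ⟨by rw [h1], by rw [h2]⟩
  · exact Or.inr ⟨by rw [h1], by rw [h2]⟩

theorem reach_t {F : Set Edg} {u v : Vtx} (h : Reach F u v) :
    Reach (tE ⁻¹' F) u.swap v.swap := by
  induction h with
  | refl => exact Relation.ReflTransGen.refl
  | tail _ hs ih => exact Relation.ReflTransGen.tail ih (adj_t hs)

theorem dreach_t {F : Set Edg} {u v : Vtx} (h : DReach F u v) :
    DReach (tE ⁻¹' F) u.swap v.swap := by
  induction h with
  | refl => exact Relation.ReflTransGen.refl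
  | tail _ hs ih => exact Relation.ReflTransGen.tail ih (dadj_t hs)

theorem reach_t_iff {F : Set Edg} {u v : Vtx} :
    Reach (tE ⁻¹' F) u.swap v.swap ↔ Reach F u v := by
  refine ⟨fun h => ?_, reach_t⟩
  have := reach_t h
  rwa [tE_pre, Prod.swap_swap, Prod.swap_swap] at this

theorem dreach_t_iff {F : Set Edg} {u v : Vtx} :
    DReach (tE ⁻¹' F) u.swap v.swap ↔ DReach F u v := by
  refine ⟨fun h => ?_, dreach_t⟩
  have := dreach_t h
  rwa [tE_pre, Prod.swap_swap, Prod.swap_swap] at this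

theorem bt_swap (t : ℤ) : (bt t).swap = bt (-t) := by
  unfold bt
  rw [Prod.swap_prod_mk, neg_neg]

theorem ofc_swap (t : ℤ) : (ofc t).swap = ofc (-t - 1) := by
  unfold ofc
  split_ifs with h1 h2
  · omega
  · rw [Prod.swap_prod_mk, Prod.mk.injEq]
    exact ⟨rfl, by omega⟩
  · rw [Prod.swap_prod_mk]
  · omega

/-- the reflected arc -/
def ng (I : Set ℤ) : Set ℤ := {t | -t ∈ I}

theorem ng_ng (I : Set ℤ) : ng (ng I) = I := by
  ext t
  simp only [ng, mem_ofPred_eq, neg_neg]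

theorem QE_t : tE ⁻¹' QE = QE := by
  ext e
  simp only [mem_preimage, QE, tE, mem_ofPred_eq]
  exact and_comm

theorem WI_t (F : Set Edg) (I : Set ℤ) : WI (tE ⁻¹' F) (ng I) = tE ⁻¹' (WI F I) := by
  ext e
  simp only [WI, mem_preimage, mem_ofPred_eq, ng]
  refine and_congr_right fun _ => ?_
  constructor
  · rintro ⟨t, ht, h⟩
    refine ⟨-t, ht, ?_⟩
    rw [← bt_swap, src_tE]
    have : Reach (tE ⁻¹' (tE ⁻¹' F)) (bt t).swap (src e).swap := reach_t h
    rwa [tE_pre] at this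
  · rintro ⟨t, ht, h⟩
    refine ⟨-t, by rwa [neg_neg], ?_⟩
    rw [← bt_swap]
    rw [src_tE] at h
    have := reach_t h
    rwa [Prod.swap_swap] at this

theorem enc_t {F : Set Edg} {I : Set ℤ} {z : Vtx} (h : Enc F I z) :
    Enc (tE ⁻¹' F) (ng I) z.swap := by
  intro t ht hd
  refine h (-t - 1) ?_ ?_
  · rintro ⟨h1, h2⟩
    refine ht ⟨?_, ?_⟩
    · show -t ∈ I
      rw [show -t = -t - 1 + 1 by ring]
      exact h2
    · show -(t + 1) ∈ I
      rw [show -(t + 1) = -t - 1 by ring]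
      exact h1
  · rw [WI_t] at hd
    have h2 := dreach_t hd
    rw [Prod.swap_swap, ofc_swap] at h2
    refine h2.mono ?_
    rintro e ⟨h3, h4⟩
    refine ⟨fun h5 => h3 ?_, ?_⟩
    · rw [mem_preimage, tE_tE]
      exact h5
    · rw [← QE_t]
      exact h4

theorem enc_t_iff {F : Set Edg} {I : Set ℤ} {z : Vtx} :
    Enc (tE ⁻¹' F) (ng I) z.swap ↔ Enc F I z := by
  refine ⟨fun h => ?_, enc_t⟩
  have := enc_t h
  rwa [tE_pre, ng_ng, Prod.swap_swap] at this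

/-- the transposition of the lattice -/
def swI : sqLattice ≃g sqLattice where
  toEquiv := Equiv.prodComm ℤ ℤ
  map_rel_iff' := by
    intro u v
    show |u.2 - v.2| + |u.1 - v.1| = 1 ↔ |u.1 - v.1| + |u.2 - v.2| = 1
    rw [add_comm]

theorem toE_t (e : Edg) : toE (tE e) = swI.mapEdgeSet (toE e) := by
  apply Subtype.ext
  show s(src (tE e), tgt (tE e)) = Sym2.map _ s(src e, tgt e)
  rw [src_tE, tgt_tE]
  rfl

/-- the law is invariant under the transposition -/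
theorem law_t (p : unitInterval) (A : Set (sqLattice.edgeSet → Bool)) :
    (bondLaw p).real {ω | (fun e => ω (swI.mapEdgeSet e)) ∈ A} = (bondLaw p).real A := by
  have h := Measure.infinitePi_map_piCongrLeft
    (μ := fun _ : sqLattice.edgeSet => ProbabilityTheory.bernoulliMeasure true false p)
    (swI.mapEdgeSet.symm)
  have h2 : bondLaw p A = bondLaw p {ω | (fun e => ω (swI.mapEdgeSet e)) ∈ A} := by
    conv_lhs => rw [bondLaw, ← h]
    rw [MeasurableEquiv.map_apply]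
    have h3 : (MeasurableEquiv.piCongrLeft (fun _ : sqLattice.edgeSet => Bool)
        swI.mapEdgeSet.symm) ⁻¹' A = {ω | (fun e => ω (swI.mapEdgeSet e)) ∈ A} := by
      ext ω
      rw [mem_preimage, mem_ofPred_eq]
      have h4 : (MeasurableEquiv.piCongrLeft (fun _ : sqLattice.edgeSet => Bool)
          swI.mapEdgeSet.symm) ω = fun e => ω (swI.mapEdgeSet e) := by
        funext e
        rw [MeasurableEquiv.coe_piCongrLeft]
        have h5 := Equiv.piCongrLeft_apply_apply (fun _ : sqLattice.edgeSet => Bool)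
          swI.mapEdgeSet.symm ω (swI.mapEdgeSet e)
        rwa [Equiv.symm_apply_apply] at h5
      rw [h4]
    rw [h3]
    rfl
  unfold Measure.real
  rw [h2]

theorem opn_t (ω : sqLattice.edgeSet → Bool) :
    OQ (fun e => ω (swI.mapEdgeSet e)) = tE ⁻¹' (OQ ω) := by
  unfold OQ
  rw [preimage_inter, QE_t]
  congr 1
  ext e
  simp only [opn, mem_preimage, mem_ofPred_eq, toE_t]

/-- the reflected arc, the reflected face -/
theorem pE_t (I : Set ℤ) (x y : ℤ) : pE (ng I) (y, x) = pE I (x, y) := by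
  unfold pE
  rw [← law_t H731C.half {ω | Enc (OQ ω) (ng I) (y, x)}]
  congr 1
  ext ω
  simp only [mem_ofPred_eq]
  rw [opn_t]
  exact enc_t_iff (z := (x, y))

theorem RI_meas (I : Set ℤ) : MeasurableSet (RI I) := by
  have hcd : RI I = ⋃ t ∈ I, Icc (QC.sq ((t : ℝ) - 1 / 2)) (QC.sq ((t : ℝ) + 1 / 2)) := by
    ext s
    simp only [RI, mem_ofPred_eq, mem_iUnion, mem_Icc, exists_prop]
  rw [hcd]
  exact MeasurableSet.biUnion I.to_countable (fun _ _ => measurableSet_Icc)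

theorem RI_t (I : Set ℤ) : RI (ng I) = (fun s => -s) ⁻¹' RI I := by
  have key : ∀ (I : Set ℤ) (s : ℝ), s ∈ RI (ng I) → -s ∈ RI I := by
    rintro I s ⟨t, ht, h1, h2⟩
    refine ⟨-t, ht, ?_, ?_⟩
    · rw [show ((-t : ℤ) : ℝ) - 1 / 2 = -((t : ℝ) + 1 / 2) by push_cast; ring, QC.sq_neg]
      linarith
    · rw [show ((-t : ℤ) : ℝ) + 1 / 2 = -((t : ℝ) - 1 / 2) by push_cast; ring, QC.sq_neg]
      linarith
  ext s
  rw [mem_preimage]
  refine ⟨key I s, fun h => ?_⟩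
  have := key (ng I) (-s) (by rwa [ng_ng])
  rwa [neg_neg] at this

theorem hmr_t (I : Set ℤ) (x y : ℤ) :
    hmr (uz y x) (vz y x) (RI (ng I)) = hmr (uz x y) (vz x y) (RI I) := by
  have e1 : uz y x = -uz x y := by unfold uz; ring
  have e2 : vz y x = vz x y := by unfold vz; ring
  rw [e1, e2, RI_t]
  exact hmr_refl _ (RI_meas I)

theorem big_ng {I : Set ℤ} (h : Big I) : Big (ng I) := by
  intro x
  obtain ⟨e, he, hn, hr⟩ := h (-x)
  have h0 : ∀ a b : ℤ, |-a - b| = |a - -b| := by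
    intro a b
    rw [← abs_neg]
    congr 1
    ring
  refine ⟨-e, by show - -e ∈ I; rwa [neg_neg], ?_, ?_⟩
  · intro t ht
    have h1 := hn (-t) ht
    rw [h0, h0, neg_neg] at h1
    exact h1
  · rcases hr with hr | hr
    · exact Or.inr fun t ht => hr (-t) (by omega)
    · exact Or.inl fun t ht => hr (-t) (by omega)

theorem fi_ng {I : Set ℤ} (h : Fi I) : Fi (ng I) := by
  obtain ⟨a, b, hab, rfl⟩ := h
  refine ⟨-b, -a, by omega, ?_⟩
  ext t
  simp only [ng, mem_ofPred_eq, mem_Icc]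
  omega

theorem ng_compl (I : Set ℤ) : ng Iᶜ = (ng I)ᶜ := rfl

/-- **all bounds**, all faces of the quadrant -/
theorem all_bounds (hA : ArS) : ∃ c C : ℝ, 0 < c ∧ 0 < C ∧ ∀ (I : Set ℤ) (x y : ℤ),
    0 ≤ x → 0 ≤ y → I.Nonempty → Iᶜ.Nonempty → (I.OrdConnected ∨ Iᶜ.OrdConnected) →
    (c * hmr (uz x y) (vz x y) (RI I) ^ ((1 : ℝ) / 3) ≤ pE I (x, y) ∧
      pE I (x, y) ≤ C * hmr (uz x y) (vz x y) (RI I) ^ ((1 : ℝ) / 3)) ∧
    c * (1 - hmr (uz x y) (vz x y) (RI I)) ^ ((1 : ℝ) / 3) ≤ 1 - pE I (x, y) ∧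
      1 - pE I (x, y) ≤ C * (1 - hmr (uz x y) (vz x y) (RI I)) ^ ((1 : ℝ) / 3) := by
  obtain ⟨c1, C1, hc1, hC1, h1⟩ := asm_I hA
  obtain ⟨c2, C2, hc2, hC2, h2⟩ := asm_N hA
  refine ⟨min c1 c2, max C1 C2, lt_min hc1 hc2, lt_max_of_lt_left hC1, ?_⟩
  have key : ∀ (I : Set ℤ) (x y : ℤ), 0 ≤ y → y ≤ x → (Big I ∨ Fi I) ∧ (Big Iᶜ ∨ Fi Iᶜ) →
      (min c1 c2 * hmr (uz x y) (vz x y) (RI I) ^ ((1 : ℝ) / 3) ≤ pE I (x, y) ∧
        pE I (x, y) ≤ max C1 C2 * hmr (uz x y) (vz x y) (RI I) ^ ((1 : ℝ) / 3)) ∧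
      min c1 c2 * (1 - hmr (uz x y) (vz x y) (RI I)) ^ ((1 : ℝ) / 3) ≤ 1 - pE I (x, y) ∧
        1 - pE I (x, y) ≤ max C1 C2 * (1 - hmr (uz x y) (vz x y) (RI I)) ^ ((1 : ℝ) / 3) := by
    intro I x y hy hyx hI
    obtain ⟨v0, -, -, -⟩ := uv_bounds (h := (y + 1).toNat) hy hyx (by omega)
    obtain ⟨a1, a2⟩ := h1 I x y hy hyx hI.1
    obtain ⟨b1, b2⟩ := h2 I x y hy hyx hI.2
    have e1 := RI_compl v0 I
    have e2 : hmr (uz x y) (vz x y) (RI Iᶜ) = 1 - hmr (uz x y) (vz x y) (RI I) := by linarith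
    rw [e2] at b1 b2
    obtain ⟨w0, w1⟩ := hmr_nonneg' v0 I
    have r0 : 0 ≤ hmr (uz x y) (vz x y) (RI I) ^ ((1 : ℝ) / 3) := Real.rpow_nonneg w0 _
    have r1 : 0 ≤ (1 - hmr (uz x y) (vz x y) (RI I)) ^ ((1 : ℝ) / 3) :=
      Real.rpow_nonneg (by linarith) _
    exact ⟨⟨(mul_le_mul_of_nonneg_right (min_le_left _ _) r0).trans a1,
      a2.trans (mul_le_mul_of_nonneg_right (le_max_left _ _) r0)⟩,
      (mul_le_mul_of_nonneg_right (min_le_right _ _) r1).trans b1,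
      b2.trans (mul_le_mul_of_nonneg_right (le_max_right _ _) r1)⟩
  intro I x y hx hy hn hn' hoc
  have hI := arc_cases hn hn' hoc
  rcases le_total y x with h | h
  · exact key I x y hy h hI
  · have hI' : (Big (ng I) ∨ Fi (ng I)) ∧ (Big (ng I)ᶜ ∨ Fi (ng I)ᶜ) := by
      rw [← ng_compl]
      exact ⟨hI.1.imp big_ng fi_ng, hI.2.imp big_ng fi_ng⟩
    have := key (ng I) y x hx h hI'
    rwa [pE_t, hmr_t] at this

end Pool.Agent.J6H72.LP
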