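import Pool.Agent.TH976.QC.Fin
import Pool.Agent.J6H72.LP.LowP

/-!
The probability that the clusters of `I` surround the face `z`: bounds by arm events, in the
infinite quadrant.
-/

set_option autoImplicit false

namespace Pool.Agent.J6H72.LP
open Finset H974 TH976 TH976.QC MeasureTheory
open Pool.Agent.H160R2.CV Pool.Agent.H160R2.CV.Quad
open H362P

/-- the open edges of the quadrant -/
def OQ (ω : sqLattice.edgeSet → Bool) : Set Edg := opn ω ∩ QE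

/-- the probability that the clusters of `I` surround `z` -/
noncomputable def pE (I : Set ℤ) (z : Vtx) : ℝ :=
  (bondLaw H731C.half).real {ω | Enc (OQ ω) I z}

/-- the probability of the complement -/
noncomputable def pN (I : Set ℤ) (z : Vtx) : ℝ :=
  (bondLaw H731C.half).real {ω | ¬ Enc (OQ ω) I z}

theorem law_P (S : Finset Edg) (Q : Finset Edg → Prop) :
    (bondLaw H731C.half).real {ω | Q (FF S ω)} = Pr P S Q := law_event H731C.half S Q

theorem law_le {A : Set (sqLattice.edgeSet → Bool)} (S : Finset Edg) (Q : Finset Edg → Prop)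
    (h : A ⊆ {ω | Q (FF S ω)}) : (bondLaw H731C.half).real A ≤ Pr P S Q := by
  rw [← law_P]
  exact measureReal_mono h

theorem le_law {A : Set (sqLattice.edgeSet → Bool)} (S : Finset Edg) (Q : Finset Edg → Prop)
    (h : {ω | Q (FF S ω)} ⊆ A) : Pr P S Q ≤ (bondLaw H731C.half).real A := by
  rw [← law_P]
  exact measureReal_mono h

/-- an upper bound for an event from a lower bound for a part of its complement -/
theorem law_compl_le {A : Set (sqLattice.edgeSet → Bool)} (S : Finset Edg)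
    (Q : Finset Edg → Prop) (h : {ω | Q (FF S ω)} ⊆ Aᶜ) :
    (bondLaw H731C.half).real A ≤ 1 - Pr P S Q := by
  have h1 : A ⊆ {ω | ¬ Q (FF S ω)} := fun ω hω hQ => h hQ hω
  have h2 := law_le S (fun F => ¬ Q F) h1
  rwa [Pr_not] at h2

theorem le_law_compl {A : Set (sqLattice.edgeSet → Bool)} (S : Finset Edg)
    (Q : Finset Edg → Prop) (h : Aᶜ ⊆ {ω | Q (FF S ω)}) :
    1 - Pr P S Q ≤ (bondLaw H731C.half).real A := by
  have h1 : {ω | ¬ Q (FF S ω)} ⊆ A := by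
    intro ω hω
    by_contra hA
    exact hω (h hA)
  have h2 := le_law S (fun F => ¬ Q F) h1
  rwa [Pr_not] at h2

theorem FF_inter {S T : Finset Edg} (h : T ⊆ S) (ω : sqLattice.edgeSet → Bool) :
    FF S ω ∩ T = FF T ω := by
  ext e
  rw [Finset.mem_inter, mem_FF, mem_FF]
  constructor
  · rintro ⟨⟨_, h2⟩, h3⟩; exact ⟨h3, h2⟩
  · rintro ⟨h1, h2⟩; exact ⟨⟨h h1, h2⟩, h1⟩

theorem RE_inQ (M : ℤ) : InQ (RE 0 M 0 M) := by
  rintro ⟨x, y, _ | _⟩ h
  · rw [mem_RE_false] at h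
    simp only
    omega
  · rw [mem_RE_true] at h
    simp only
    omega

/-- an infinite-volume crossing gives a local one -/
theorem CxL_of_set {ω : sqLattice.edgeSet → Bool} {c u v : Vtx} {r n : ℕ} (hu : InV u)
    (h1 : sd u c ≤ r) (h2 : n ≤ sd v c) (hrn : r ≤ n) (h : Reach (OQ ω) u v)
    {S : Finset Edg} (hS : qb c n \ qb c r ⊆ S) : CxL c r n (FF S ω) := by
  obtain ⟨N, hN⟩ := reach_box h
  obtain ⟨M, hM⟩ : ∃ M : ℤ, M = max N (max (c.1 + n) (c.2 + n) + 1) := ⟨_, rfl⟩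
  have h3 := hN M (by omega)
  obtain ⟨F, hF⟩ : ∃ F, F = FF (RE 0 M 0 M) ω := ⟨_, rfl⟩
  have h4 : Reach (↑F : Set Edg) u v := by
    rw [hF, FF_coe]
    exact h3
  have hFQ : InQ F := by
    rw [hF]
    exact (RE_inQ M).mono (Finset.filter_subset _ _)
  have h5 := Cx_loc hFQ hrn ⟨u, v, hu, h1, h2, h4⟩
  have hsub : qb c n \ qb c r ⊆ RE 0 M 0 M := by
    refine Finset.sdiff_subset.trans ?_
    unfold qb
    apply RE_subset <;> omega
  unfold CxL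
  rw [FF_inter hS]
  rw [hF, FF_inter hsub] at h5
  exact h5

/-- the vertical face path below `z` meets the clusters of `I` -/
theorem hit_vert {F : Set Edg} {I : Set ℤ} {x y : ℤ} (hx : 0 ≤ x) (hy : 0 ≤ y)
    (hE : Enc F I (x, y)) (hxI : ¬ (x ∈ I ∧ x + 1 ∈ I)) :
    ∃ t ∈ I, ∃ k : ℤ, (0 ≤ k ∧ k ≤ y) ∧ Reach F (bt t) (x, k) := by
  obtain ⟨⟨a, b, c⟩, ⟨h1, h2, h3⟩, ⟨h4, t, h5, h6⟩⟩ := enc_hit hE hxI (vpath' hx hy)
  simp only at h1 h2
  refine ⟨t, h5, b, h2, ?_⟩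
  rw [src_mk, h1] at h6
  exact h6

/-- a small set close to `z` is connected to a macroscopic distance -/
theorem near_hit {F : Set Edg} {I : Set ℤ} {x y e : ℤ} {r n : ℕ} (hxy : y ≤ x)
    (hn : 1 ≤ n) (hrn : r ≤ n) (hnh : 4 * (n : ℤ) ≤ y + 1)
    (hI : ∀ t ∈ I, e - r ≤ t ∧ t ≤ e + r) (hE : Enc F I (x, y)) :
    ∃ t ∈ I, ∃ w : Vtx, n ≤ sd w (bt e) ∧ Reach F (bt t) w := by
  have hy : 0 ≤ y := by omega
  have hx : 0 ≤ x := by omega
  by_cases hc : e < 0 ∨ (n : ℤ) < x - e ∨ (n : ℤ) < e - x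
  · have hxI : ¬ (x ∈ I ∧ x + 1 ∈ I) := by
      rintro ⟨h1, h2⟩
      have k1 := hI _ h1
      have k2 := hI _ h2
      omega
    obtain ⟨t, ht, k, hk, hr⟩ := hit_vert hx hy hE hxI
    refine ⟨t, ht, (x, k), ?_, hr⟩
    unfold sd bt
    simp only
    omega
  · push Not at hc
    obtain ⟨m, hm⟩ : ∃ m : ℕ, m = 2 * n + 1 := ⟨_, rfl⟩
    have hxI : ¬ (x + m ∈ I ∧ x + m + 1 ∈ I) := by
      rintro ⟨h1, h2⟩
      have k1 := hI _ h1
      omega
    have hd : DReach ((HP x y m ∪ VP (x + m) y) ∩ QE) (x, y) (ofc (x + m)) := by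
      refine ((hpath hx hy m).mono ?_).trans ((vpath' (by omega) hy).mono ?_)
      · exact Set.inter_subset_inter_left _ Set.subset_union_left
      · exact Set.inter_subset_inter_left _ Set.subset_union_right
    obtain ⟨⟨a, b, c⟩, h1, ⟨h4, t, h5, h6⟩⟩ := enc_hit hE hxI hd
    rw [src_mk] at h6
    refine ⟨t, h5, (a, b), ?_, h6⟩
    rcases h1 with ⟨h1, h2, h3⟩ | ⟨h1, h2, h3⟩
    · simp only at h1 h2
      unfold sd bt
      simp only
      omega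
    · simp only at h1 h2
      unfold sd bt
      simp only
      omega

/-- one arm from `z` -/
theorem up_one {I : Set ℤ} {x y : ℤ} {h n : ℕ} (hx : 0 ≤ x) (hy : 0 ≤ y) (hh : (h : ℤ) = y + 1)
    (hhn : h ≤ n) (hI : ∀ t ∈ I, n ≤ sd (bt t) (x, y)) (hxI : ¬ (x ∈ I ∧ x + 1 ∈ I)) :
    pE I (x, y) ≤ bq (x, y) h n := by
  refine (law_le (qb (x, y) n) (CxL (x, y) h n) ?_).trans ?_
  · intro ω hω
    obtain ⟨t, ht, k, hk, hr⟩ := hit_vert hx hy hω hxI
    refine CxL_of_set (u := (x, k)) (v := bt t) ?_ ?_ (hI t ht) hhn hr.symm Finset.sdiff_subset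
    · exact ⟨hx, hk.1⟩
    · unfold sd
      simp only
      omega
  · rw [← pr_CxL]
    exact pr_le_loc _ _ (CxL_inc _ _ _) (CxL_loc _ _ _)

/-- two arms, from `z` and from `I` -/
theorem up_two' {I : Set ℤ} {x y e : ℤ} {h r n : ℕ} (hx : 0 ≤ x) (hy : 0 ≤ y)
    (hh : (h : ℤ) = y + 1) (hhn : h ≤ n) (hrn : r ≤ n) (hI : ∀ t ∈ I, n ≤ sd (bt t) (x, y))
    (hxI : ¬ (x ∈ I ∧ x + 1 ∈ I)) (hIe : ∀ t ∈ I, e - r ≤ t ∧ t ≤ e + r)
    (hd : n + n + 1 ≤ sd (x, y) (bt e)) :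
    pE I (x, y) ≤ bq (x, y) h n * bq (bt e) r n := by
  have hdis : Disjoint (qb (x, y) n \ qb (x, y) h) (qb (bt e) n \ qb (bt e) r) :=
    Finset.disjoint_of_subset_left Finset.sdiff_subset
      (Finset.disjoint_of_subset_right Finset.sdiff_subset (qb_disj hd))
  have h1 := indep2 (qb (x, y) n ∪ qb (bt e) n) _ _ hdis (CxL_inc (x, y) h n)
    (CxL_inc (bt e) r n) (CxL_loc (x, y) h n) (CxL_loc (bt e) r n)
  rw [pr_CxL, pr_CxL] at h1
  refine le_trans (law_le (qb (x, y) n ∪ qb (bt e) n)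
    (fun F => CxL (x, y) h n F ∧ CxL (bt e) r n F) ?_) h1
  intro ω hω
  obtain ⟨t, ht, k, hk, hr⟩ := hit_vert hx hy hω hxI
  have hw : sd (x, k) (x, y) ≤ h := by
    unfold sd
    simp only
    omega
  refine ⟨?_, ?_⟩
  · exact CxL_of_set (u := (x, k)) (v := bt t) ⟨hx, hk.1⟩ hw (hI t ht) hhn hr.symm
      (Finset.sdiff_subset.trans Finset.subset_union_left)
  · have k1 := hIe t ht
    have k2 := sd_tri (x, y) (x, k) (bt e)
    have k3 := sd_comm (x, y) (x, k)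
    exact CxL_of_set (u := bt t) (v := (x, k)) (bt_in t) (sd_bt_le (by omega) (by omega))
      (by omega) hrn hr (Finset.sdiff_subset.trans Finset.subset_union_right)

/-- one arm from a small set `I` close to `z` -/
theorem up_near {I : Set ℤ} {x y e : ℤ} {r n : ℕ} (hxy : y ≤ x)
    (hn : 1 ≤ n) (hrn : r ≤ n) (hnh : 4 * (n : ℤ) ≤ y + 1)
    (hI : ∀ t ∈ I, e - r ≤ t ∧ t ≤ e + r) : pE I (x, y) ≤ bq (bt e) r n := by
  refine (law_le (qb (bt e) n) (CxL (bt e) r n) ?_).trans ?_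
  · intro ω hω
    obtain ⟨t, ht, w, hw, hr⟩ := near_hit hxy hn hrn hnh hI hω
    have k1 := hI t ht
    exact CxL_of_set (u := bt t) (v := w) (bt_in t) (sd_bt_le (by omega) (by omega))
      hw hrn hr Finset.sdiff_subset
  · rw [← pr_CxL]
    exact pr_le_loc _ _ (CxL_inc _ _ _) (CxL_loc _ _ _)

/-- lower bound for the probability -/
theorem low_inf {I : Set ℤ} {z : Vtx} {a b : ℤ} (hI : ∀ t, a ≤ t → t ≤ b → t ∈ I)
    {S : Finset Edg} (hS : InQ S) : Pr P S (LE z a b) ≤ pE I z := by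
  refine le_law S (LE z a b) ?_
  rintro ω ⟨z0, x, hx, h1, h2⟩
  have hsub : (↑(FF S ω) : Set Edg) ⊆ OQ ω := by
    rw [FF_coe]
    exact Set.inter_subset_inter_right _ (fun e he => hS e (Finset.mem_coe.mp he))
  exact enc_of_blk (hI x hx.1 hx.2) (h1.mono hsub) (h2.mono hsub)

/-- the dual event -/
def NE (N : ℤ) (z : Vtx) (p0 p1 : ℤ) (F : Finset Edg) : Prop :=
  ∃ p : ℤ, (p0 ≤ p ∧ p ≤ p1) ∧ be p ∉ F ∧ ∃ z0 : Vtx,
    Reach (↑(dmp (intE N \ F))) z0 (bt (kap p)) ∧ Blk (↑(dmp (intE N \ F))) z0 z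

theorem NE_ge {N p0 p1 : ℤ} {z : Vtx} (h01 : p0 ≤ p1) :
    1 / 4 * Pr P (dmp (intE N)) (LE z (kap p0) (kap p1)) ≤ Pr P (RE 0 N 0 N) (NE N z p0 p1) := by
  rw [← pr_dual]
  apply fubini2 (intE_sub N)
  rintro A' hA' ⟨z0, x, hx, h1, h2⟩
  obtain ⟨p, hp1, hp2⟩ := kap_surj h01 hx.1 hx.2
  refine ⟨be p, be p, fun B hB hb _ => ?_⟩
  have hsub : (↑(dmp (intE N \ A')) : Set Edg) ⊆ ↑(dmp (intE N \ (A' ∪ B))) := by
    have : dmp (intE N \ A') ⊆ dmp (intE N \ (A' ∪ B)) := by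
      intro e he
      rw [mem_dmp, Finset.mem_sdiff] at he ⊢
      refine ⟨he.1, fun h => ?_⟩
      rcases Finset.mem_union.mp h with h | h
      · exact he.2 h
      · exact (Finset.mem_sdiff.mp (hB h)).2 he.1
    exact_mod_cast this
  refine ⟨p, hp1, ?_, z0, ?_, h2.mono hsub⟩
  · rw [Finset.mem_union]
    rintro (h | h)
    · exact be_notMem N p (hA' h)
    · exact hb h
  · rw [hp2]
    exact h1.mono hsub

/-- lower bound for the probability of the complement -/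
theorem dlow_inf {I : Set ℤ} {z : Vtx} (hz : InV z) {N p0 p1 : ℤ} (_h01 : p0 ≤ p1)
    (hN0 : -N ≤ p0) (hN1 : p1 < N) (hI : ∀ p, p0 ≤ p → p ≤ p1 → ¬ (p ∈ I ∧ p + 1 ∈ I)) :
    {ω | NE N z p0 p1 (FF (RE 0 N 0 N) ω)} ⊆ {ω | Enc (OQ ω) I z}ᶜ := by
  rintro ω ⟨p, hp, hb, z0, h1, h2⟩
  have hout : ∀ e ∈ RE 0 N 0 N, e ∉ FF (RE 0 N 0 N) ω → e ∉ OQ ω := by
    intro e he h h'
    exact h (mem_FF.mpr ⟨he, h'.1⟩)
  have hH : (↑(dmp (intE N \ FF (RE 0 N 0 N) ω)) : Set Edg) ⊆ dl '' ((OQ ω)ᶜ ∩ QE) := by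
    rw [coe_dmp]
    apply Set.image_mono
    intro e he
    rw [Finset.mem_coe, Finset.mem_sdiff] at he
    have h3 := intE_sub N he.1
    exact ⟨hout e h3 he.2, RE_inQ N e h3⟩
  refine not_enc_of_dual hH hz h2 (hI p hp.1 hp.2) ?_ h1
  exact hout _ (be_mem (by omega) (by omega)) hb

/-- a dual arm from the foot of `z` -/
theorem dup_det {F : Set Edg} {I : Set ℤ} {x y a d N t0 : ℤ} {h g n : ℕ} {FN : Finset Edg}
    (hx : 0 ≤ x) (hy : 0 ≤ y) (hh : (h : ℤ) = y + 1) (hg : g = 2 * h + 2) (hgn : g < n)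
    (hI : ∀ t, a ≤ t → t ≤ d → t ∈ I) (ht : t0 = max (x - h) 0)
    (hr : 2 * (n : ℤ) + 5 ≤ x - h - a + 1) (hs : 2 * (n : ℤ) + 5 ≤ d - (x + h + 2) + 1)
    (hN : t0 + n + 2 ≤ N) (hFN : FN ⊆ RE 0 N 0 N) (hFF : (↑FN : Set Edg) ⊆ F)
    (hE : ¬ Enc F I (x, y)) : CxL (bt t0) g n (dmp (RE 0 N 0 N \ FN)) := by
  obtain ⟨F', hF'⟩ : ∃ F', F' = FN \ qb (bt x) h := ⟨_, rfl⟩
  have hF'N : F' ⊆ FN := by rw [hF']; exact Finset.sdiff_subset
  have hbx : bt x = (x, 0) := by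
    unfold bt
    rw [Prod.mk.injEq]
    omega
  have hno : ¬ CNq a (x - h) (x + h + 2) d F' := by
    rintro ⟨u, v, hu, hv, huv⟩
    apply hE
    refine enc_of_path (F' := (↑F' : Set Edg)) (a := u) (b := v)
      (Set.Subset.trans (by exact_mod_cast hF'N) hFF) ?_ hx hy
      (hI u (by omega) (by omega)) ?_ ?_ huv
    · intro e he
      exact RE_inQ N e (hFN (hF'N (Finset.mem_coe.mp he)))
    · intro t ht'
      have h1 : ¬ (u ≤ t ∧ t < v) := fun h1 => ht' ⟨hI t (by omega) (by omega),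
        hI (t + 1) (by omega) (by omega)⟩
      exact ⟨fun _ => h1, fun _ => ⟨by omega, by omega⟩⟩
    · rintro ⟨p, q, c⟩ ⟨h1, h2, h3⟩ h4
      simp only at h1 h2 h3
      rw [h3, h1, Finset.mem_coe, hF', Finset.mem_sdiff] at h4
      apply h4.2
      rw [qb, mem_RE_true, hbx]
      simp only
      omega
  have h1 := dual_armQ (a := a) (b := x - h) (c := x + h + 2) (d := d) (N := N) (t0 := t0)
    (g := g) (n := n) (F := F') (by omega) (by omega) ht (by omega) hgn (by omega) (by omega)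
    hN (hF'N.trans hFN) hno
  rw [CxL_loc (bt t0) g n] at h1 ⊢
  have e : dmp (RE 0 N 0 N \ F') ∩ (qb (bt t0) n \ qb (bt t0) g) =
      dmp (RE 0 N 0 N \ FN) ∩ (qb (bt t0) n \ qb (bt t0) g) := by
    have hbt : bt t0 = (t0, 0) := by
      unfold bt
      rw [Prod.mk.injEq]
      omega
    ext ⟨p, q, _ | _⟩
    · simp only [Finset.mem_inter, Finset.mem_sdiff, mem_dmp, dls_f, hF', qb, mem_RE_true,
        mem_RE_false, hbt, hbx]
      constructor
      · rintro ⟨⟨k1, k2⟩, k3, k4⟩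
        exact ⟨⟨k1, fun k5 => k2 ⟨k5, by omega⟩⟩, k3, k4⟩
      · rintro ⟨⟨k1, k2⟩, k3, k4⟩
        exact ⟨⟨k1, fun k5 => k2 k5.1⟩, k3, k4⟩
    · simp only [Finset.mem_inter, Finset.mem_sdiff, mem_dmp, dls_t, hF', qb, mem_RE_true,
        mem_RE_false, hbt, hbx]
      constructor
      · rintro ⟨⟨k1, k2⟩, k3, k4⟩
        exact ⟨⟨k1, fun k5 => k2 ⟨k5, by omega⟩⟩, k3, k4⟩
      · rintro ⟨⟨k1, k2⟩, k3, k4⟩
        exact ⟨⟨k1, fun k5 => k2 k5.1⟩, k3, k4⟩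
  rw [e] at h1
  exact h1

/-- upper bound for the probability of the complement -/
theorem dup_inf {I : Set ℤ} {x y a d t0 : ℤ} {h g n : ℕ}
    (hx : 0 ≤ x) (hy : 0 ≤ y) (hh : (h : ℤ) = y + 1) (hg : g = 2 * h + 2) (hgn : g < n)
    (hI : ∀ t, a ≤ t → t ≤ d → t ∈ I) (ht : t0 = max (x - h) 0)
    (hr : 2 * (n : ℤ) + 5 ≤ x - h - a + 1) (hs : 2 * (n : ℤ) + 5 ≤ d - (x + h + 2) + 1) :
    1 - bq (bt t0) g n ≤ pE I (x, y) := by
  obtain ⟨N, hN⟩ : ∃ N : ℤ, N = t0 + n + 2 := ⟨_, rfl⟩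
  have h1 := le_law_compl (A := {ω | Enc (OQ ω) I (x, y)}) (RE 0 N 0 N)
    (fun F => CxL (bt t0) g n (dmp (RE 0 N 0 N \ F))) (by
      intro ω hω
      refine dup_det (F := OQ ω) hx hy hh hg hgn hI ht hr hs hN.ge
        (Finset.filter_subset _ _) ?_ hω
      rw [FF_coe]
      exact Set.inter_subset_inter_right _ (fun e he => RE_inQ N e (Finset.mem_coe.mp he)))
  refine le_trans ?_ h1
  rw [pr_dual, ← pr_CxL]
  have := pr_le_loc (dmp (RE 0 N 0 N)) _ (CxL_inc (bt t0) g n) (CxL_loc (bt t0) g n)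
  linarith

end Pool.Agent.J6H72.LP
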